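import Pool.Agent.H78DS.Defs

/-! # H78DS/Advice: the advice and its computability

`F'` is a computable function; `gB F' j = σ ^ j` with `σ = 2 (F' j * j) ^ 2 + 1`. `pK F' K` is the parameter of the image: it starts
with `1` and is increased by one from `K` to `K + 1` if afterwards `p * gB F' p ≤ K + 1`.

PROOFS. `pK_computable`: `Computable.nat_rec` with a step function computed by `gB` (closure under `*`, `+`, `^`:
`Primrec.nat_mul`, `Primrec.nat_add`, and the power by `Computable.nat_rec` or `Primrec`-lemmas for `pow`), a decidable `≤`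
(`Primrec.nat_le` and `Computable.cond` / `Primrec.ite`). `pK_pos`, `pK_le`: induction. `pK_spec`: induction: `pK = 1 ∨ pK * gB pK ≤ K`.
`pK_tendsto`: monotone (`pK K ≤ pK (K + 1)`) and unbounded: if it were constant `= c` for all large `K` then at
`K + 1 ≥ (c + 1) * gB (c + 1)` it is increased, contradiction (`Filter.tendsto_atTop_atTop_of_monotone`). `adv_computable`: a list of seven
computable numbers (`Primrec.list_cons.to_comp.comp`). `eK_bound`: `e * p = (K / p + 1 + B) * p ≤ K + p + p B` and
`p B ≤ max K (gB 1)`, `p ≤ K + 1`. -/

set_option autoImplicit false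

namespace Pool.Agent.H78DS

open Filter

variable (F' : ℕ → ℕ)

/-- the number of colours of the hash functions for the parameter `j` -/
def sg (j : ℕ) : ℕ := 2 * (F' j * j) ^ 2 + 1

/-- the number of colour tuples -/
def gB (j : ℕ) : ℕ := sg F' j ^ j

/-- the parameter of the image -/
def pK : ℕ → ℕ
  | 0 => 1
  | K + 1 => if (pK K + 1) * gB F' (pK K + 1) ≤ K + 1 then pK K + 1 else pK K

/-- size of the groups -/
def tK (K : ℕ) : ℕ := K / pK F' K + 1

/-- number of the isolated vertices to be added -/
def rK (K : ℕ) : ℕ := pK F' K * tK F' K - K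

/-- exponent -/
def eK (K : ℕ) : ℕ := tK F' K + gB F' (pK F' K)

/-- the advice `[p, t, r, H, σ, B, c₀]` -/
def adv (K : ℕ) : List ℕ :=
  [pK F' K, tK F' K, rK F' K, F' (pK F' K) * pK F' K, sg F' (pK F' K), gB F' (pK F' K), (K + 2) ^ eK F' K]

theorem pK_pos (K : ℕ) : 1 ≤ pK F' K := by
  induction K with
  | zero => exact le_rfl
  | succ K ih =>
    rw [pK]
    split_ifs <;> omega

theorem pK_le (K : ℕ) : pK F' K ≤ K + 1 := by
  induction K with
  | zero => exact le_rfl
  | succ K ih =>
    rw [pK]
    split_ifs <;> omega

theorem pK_spec (K : ℕ) : pK F' K = 1 ∨ pK F' K * gB F' (pK F' K) ≤ K := by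
  induction K with
  | zero => exact Or.inl rfl
  | succ K ih =>
    rw [pK]
    split_ifs with h
    · exact Or.inr h
    · exact ih.imp id (fun h => h.trans (Nat.le_succ K))

theorem pK_mono : Monotone (pK F') := by
  apply monotone_nat_of_le_succ
  intro K
  rw [pK]
  split_ifs <;> omega

theorem pK_tendsto : Tendsto (pK F') atTop atTop := by
  apply tendsto_atTop_atTop_of_monotone (pK_mono F')
  intro b
  induction b with
  | zero => exact ⟨0, Nat.zero_le _⟩
  | succ b ih =>
    obtain ⟨K, hK⟩ := ih
    set K' := max K ((b + 1) * gB F' (b + 1)) with hK'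
    have h1 : b ≤ pK F' K' := hK.trans (pK_mono F' (le_max_left _ _))
    rcases Nat.lt_or_ge b (pK F' K') with h2 | h2
    · exact ⟨K', h2⟩
    · have h3 : pK F' K' = b := le_antisymm h2 h1
      refine ⟨K' + 1, ?_⟩
      have h4 : (b + 1) * gB F' (b + 1) ≤ K' + 1 := (le_max_right _ _).trans (Nat.le_succ _)
      rw [pK, h3, if_pos h4]

theorem rK_spec (K : ℕ) : pK F' K * tK F' K = K + rK F' K := by
  have h := Nat.lt_mul_div_succ K (pK_pos F' K)
  unfold rK tK
  omega

theorem rK_le (K : ℕ) : rK F' K ≤ K + 1 := by
  have h1 := pK_le F' K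
  have h2 := Nat.mul_div_le K (pK F' K)
  unfold rK tK
  rw [mul_add, mul_one]
  omega

theorem eK_bound (K : ℕ) : eK F' K * pK F' K ≤ (gB F' 1 + 3) * (K + 1) := by
  have h1 := pK_le F' K
  have h2 := Nat.div_mul_le_self K (pK F' K)
  unfold eK tK
  rw [add_mul, add_mul, one_mul]
  rcases pK_spec F' K with h3 | h3
  · rw [h3] at h2 ⊢
    nlinarith
  · nlinarith

variable {F'}

private theorem pow_computable : Computable₂ (fun a b : ℕ => a ^ b) := by
  have h : Primrec₂ (fun a b : ℕ => a ^ b) := by
    have h1 : Primrec₂ (fun a b : ℕ => (Nat.rec 1 (fun _ x => x * a) b : ℕ)) := by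
      refine Primrec.nat_rec (f := fun _ : ℕ => 1) (g := fun (a : ℕ) (p : ℕ × ℕ) => p.2 * a)
        (Primrec.const 1) ?_
      exact Primrec.nat_mul.comp (Primrec.snd.comp Primrec.snd) Primrec.fst
    refine h1.of_eq fun a b => ?_
    induction b with
    | zero => rfl
    | succ b ih => rw [pow_succ, ← ih]
  exact h.to_comp

private theorem mul_computable : Computable₂ (fun a b : ℕ => a * b) := Primrec.nat_mul.to_comp

private theorem add_computable : Computable₂ (fun a b : ℕ => a + b) := Primrec.nat_add.to_comp

theorem sg_computable (hF : Computable F') : Computable (sg F') := by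
  unfold sg
  exact add_computable.comp (mul_computable.comp (Computable.const 2)
    (pow_computable.comp (mul_computable.comp hF Computable.id) (Computable.const 2)))
    (Computable.const 1)

theorem gB_computable (hF : Computable F') : Computable (gB F') :=
  pow_computable.comp (sg_computable hF) Computable.id

theorem pK_computable (hF : Computable F') : Computable (pK F') := by
  have hstep : Computable₂ (fun (_ : ℕ) (q : ℕ × ℕ) =>
      cond (decide ((q.2 + 1) * gB F' (q.2 + 1) ≤ q.1 + 1)) (q.2 + 1) q.2) := by
    have h1 : Computable (fun x : ℕ × ℕ × ℕ => x.2.2 + 1) :=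
      Computable.succ.comp (Computable.snd.comp Computable.snd)
    have h2 : Computable (fun x : ℕ × ℕ × ℕ => x.2.1 + 1) :=
      Computable.succ.comp (Computable.fst.comp Computable.snd)
    have h3 : Computable (fun x : ℕ × ℕ × ℕ => (x.2.2 + 1) * gB F' (x.2.2 + 1)) :=
      mul_computable.comp h1 ((gB_computable hF).comp h1)
    have h4 : Computable₂ (fun a b : ℕ => decide (a ≤ b)) := Primrec.nat_le.decide.to_comp
    exact Computable.cond (h4.comp h3 h2) h1 (Computable.snd.comp Computable.snd)
  have h := Computable.nat_rec (f := fun K : ℕ => K) (g := fun _ : ℕ => 1) Computable.id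
    (Computable.const 1) hstep
  refine h.of_eq fun K => ?_
  have key : ∀ L : ℕ, (Nat.rec 1 (fun y IH => cond (decide ((IH + 1) * gB F' (IH + 1) ≤ y + 1))
      (IH + 1) IH) L : ℕ) = pK F' L := by
    intro L
    induction L with
    | zero => rfl
    | succ L ih =>
      rw [pK, ← ih]
      exact Bool.cond_decide _ _ _
  exact key K

theorem tK_computable (hF : Computable F') : Computable (tK F') := by
  unfold tK
  exact Computable.succ.comp (Primrec.nat_div.to_comp.comp Computable.id (pK_computable hF))

theorem eK_computable (hF : Computable F') : Computable (eK F') := by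
  unfold eK
  exact add_computable.comp (tK_computable hF) ((gB_computable hF).comp (pK_computable hF))

theorem rK_computable (hF : Computable F') : Computable (rK F') := by
  unfold rK
  exact Primrec.nat_sub.to_comp.comp (mul_computable.comp (pK_computable hF) (tK_computable hF))
    Computable.id

theorem adv_computable (hF : Computable F') : Computable (adv F') := by
  have hp := pK_computable hF
  unfold adv
  have hc : ∀ {f : ℕ → ℕ} {g : ℕ → List ℕ}, Computable f → Computable g →
      Computable (fun K => f K :: g K) := fun hf hg => Computable.list_cons.comp hf hg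
  exact hc hp (hc (tK_computable hF) (hc (rK_computable hF)
    (hc (mul_computable.comp (hF.comp hp) hp) (hc ((sg_computable hF).comp hp)
      (hc ((gB_computable hF).comp hp) (hc (pow_computable.comp
        (add_computable.comp Computable.id (Computable.const 2)) (eK_computable hF))
          (Computable.const [])))))))

end Pool.Agent.H78DS
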