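import Mathlib

/-! # H78DS/Blocks: counting tapes with conditions on their blocks -/

set_option autoImplicit false

namespace Pool.Agent.H78DS

open Finset

/-- the bijection between tapes and pairs of a first block and the rest -/
theorem card_append (w n : ℕ) (P : List Bool → Bool) (Q : List Bool → Bool) :
    (univ.filter (fun r : Fin (w + n) → Bool => P ((List.ofFn r).take w) = true ∧
      Q ((List.ofFn r).drop w) = true)).card =
    (univ.filter (fun b : Fin w → Bool => P (List.ofFn b) = true)).card *
      (univ.filter (fun c : Fin n → Bool => Q (List.ofFn c) = true)).card := by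
  rw [← Finset.card_product]
  symm
  apply Finset.card_bij (fun p _ => Fin.append p.1 p.2)
  · rintro ⟨b, c⟩ h
    simp only [Finset.mem_product, Finset.mem_filter, Finset.mem_univ, true_and] at h ⊢
    rw [List.ofFn_fin_append]
    rw [List.take_left' (by simp), List.drop_left' (by simp)]
    exact h
  · rintro ⟨b, c⟩ _ ⟨b', c'⟩ _ h
    simp only at h
    refine Prod.ext ?_ ?_
    · funext i
      have := congrFun h (Fin.castAdd n i)
      simpa using this
    · funext i
      have := congrFun h (Fin.natAdd w i)
      simpa using this
  · intro r hr
    refine ⟨(fun i => r (Fin.castAdd n i), fun i => r (Fin.natAdd w i)), ?_, ?_⟩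
    · simp only [Finset.mem_product, Finset.mem_filter, Finset.mem_univ, true_and] at hr ⊢
      have h : r = Fin.append (fun i => r (Fin.castAdd n i)) (fun i => r (Fin.natAdd w i)) := by
        rw [Fin.append_castAdd_natAdd]
      rw [h, List.ofFn_fin_append, List.take_left' (by simp), List.drop_left' (by simp)] at hr
      exact hr
    · exact Fin.append_castAdd_natAdd

theorem card_cast (m n : ℕ) (h : m = n) (P : List Bool → Prop) [DecidablePred P] :
    (univ.filter (fun r : Fin m → Bool => P (List.ofFn r))).card =
      (univ.filter (fun r : Fin n → Bool => P (List.ofFn r))).card := by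
  subst h; rfl

/-- COUNTING OF BLOCKS -/
theorem block_count (w q : ℕ) (B : List Bool → Bool) :
    (univ.filter (fun r : Fin (q * w) → Bool =>
      ∀ i < q, B (((List.ofFn r).drop (i * w)).take w) = true)).card =
    (univ.filter (fun b : Fin w → Bool => B (List.ofFn b) = true)).card ^ q := by
  induction q with
  | zero => simp
  | succ q ih =>
    classical
    have h1 := card_cast ((q + 1) * w) (w + q * w) (by ring)
      (fun l => ∀ i < q + 1, B ((l.drop (i * w)).take w) = true)
    rw [h1]
    have h2 := card_append w (q * w) B
      (fun l => decide (∀ i < q, B ((l.drop (i * w)).take w) = true))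
    have h3 : (univ.filter (fun c : Fin (q * w) → Bool =>
        (fun l => decide (∀ i < q, B ((l.drop (i * w)).take w) = true)) (List.ofFn c) = true)) =
        (univ.filter (fun r : Fin (q * w) → Bool =>
          ∀ i < q, B (((List.ofFn r).drop (i * w)).take w) = true)) := by
      apply Finset.filter_congr
      intro c _
      simp only [decide_eq_true_eq]
    rw [h3, ih] at h2
    rw [pow_succ', ← h2]
    congr 1
    apply Finset.filter_congr
    intro r _
    simp only [decide_eq_true_eq]
    constructor
    · intro h
      refine ⟨?_, fun i hi => ?_⟩
      · have := h 0 (by omega)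
        simpa using this
      · have := h (i + 1) (by omega)
        rw [List.drop_drop]
        rwa [show w + i * w = (i + 1) * w by ring]
    · rintro ⟨h, h'⟩ i hi
      cases i with
      | zero => simpa using h
      | succ i =>
        have := h' i (by omega)
        rw [List.drop_drop] at this
        rwa [show w + i * w = (i + 1) * w by ring] at this

end Pool.Agent.H78DS
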