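import Pool.Agent.H78DS.CombPT
import Pool.Agent.H78DS.Blocks

/-! # H78DS/Amp: amplification of the success probability -/

set_option autoImplicit false

namespace Pool.Agent.H78DS

open Filter Pool.Agent.PT

variable {X Y : Type} [Enc X] [Enc Y]

/-- Randomised fpt Turing reductions with arbitrarily small error `2 ^ (- m)`. -/
def RTRedM (P : Prob X) (Q : Prob Y) : Prop :=
  ∃ (h : ℕ → List ℕ) (G : ℕ → ℕ) (R N : (X × List ℕ) × ℕ → ℕ)
    (next : ((X × List ℕ × List Bool) × ℕ) × List Bool → Y ⊕ Bool),
    Computable h ∧ Computable G ∧ PolyTime R ∧ PolyTime N ∧ PolyTime next ∧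
    ∀ (x : X) (m : ℕ),
      (∀ (r as : List Bool) (y : Y), next (((x, h (P.par x), r), m), as) = Sum.inl y →
        Q.par y ≤ G (P.par x) ∧ (Q.yes y ∨ Q.no y)) ∧
      ∀ O : Y → Bool, (∀ y, Q.yes y → O y = true) → (∀ y, Q.no y → O y = false) →
        (P.yes x → 2 ^ m * (Finset.univ.filter
          (fun r : Fin (R ((x, h (P.par x)), m)) → Bool =>
            runO (fun as => next (((x, h (P.par x), List.ofFn r), m), as)) O
              (N ((x, h (P.par x)), m)) [] = false)).card ≤ 2 ^ R ((x, h (P.par x)), m)) ∧
        (P.no x → ∀ r : Fin (R ((x, h (P.par x)), m)) → Bool,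
          runO (fun as => next (((x, h (P.par x), List.ofFn r), m), as)) O
            (N ((x, h (P.par x)), m)) [] = false)

theorem RTRedM.toRT {P : Prob X} {Q : Prob Y} (hr : RTRedM P Q) : RTRed P Q := by
  obtain ⟨h, G, R, N, next, hh, hG, hR, hN, hnext, H⟩ := hr
  refine ⟨h, G, fun z => R (z, 1), fun z => N (z, 1), fun z => next ((z.1, 1), z.2), hh, hG,
    hR.comp (f := fun z : X × List ℕ => (z, 1)) (by fun_prop),
    hN.comp (f := fun z : X × List ℕ => (z, 1)) (by fun_prop),
    hnext.comp (f := fun z : (X × List ℕ × List Bool) × List Bool => ((z.1, 1), z.2)) (by fun_prop),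
    fun x => ?_⟩
  obtain ⟨H1, H2⟩ := H x 1
  refine ⟨H1, fun O hO1 hO2 => ?_⟩
  obtain ⟨H3, H4⟩ := H2 O hO1 hO2
  refine ⟨fun hx => ?_, H4⟩
  have h3 := H3 hx
  have h4 := Finset.card_filter_add_card_filter_not
    (s := (Finset.univ : Finset (Fin (R ((x, h (P.par x)), 1)) → Bool)))
    (fun r => runO (fun as => next (((x, h (P.par x), List.ofFn r), 1), as)) O
      (N ((x, h (P.par x)), 1)) [] = true)
  simp only [Bool.not_eq_true, Finset.card_univ, Fintype.card_fun, Fintype.card_bool,
    Fintype.card_fin] at h4
  simp only
  omega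

/-- the outer procedure of the amplification: accept if one of `m` runs accepts -/
def ampOut (m : ℕ) (l : List Bool) : Unit ⊕ Bool :=
  if l.any (fun b => b) = true then Sum.inr true else if m ≤ l.length then Sum.inr false
  else Sum.inl ()

theorem runI_ampOut (m : ℕ) (ans : Unit → ℕ → Bool) (n : ℕ) (l : List Bool)
    (hl : l.any (fun b => b) = false) (hn : m + 1 ≤ n + l.length) :
    runI (ampOut m) ans n l = true ↔ ∃ i, l.length ≤ i ∧ i < m ∧ ans () i = true := by
  induction n generalizing l with
  | zero =>
    constructor
    · intro h; simp [runI] at h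
    · rintro ⟨i, h1, h2, -⟩; omega
  | succ n ih =>
    rw [runI]
    unfold ampOut
    rw [hl]
    simp only [Bool.false_eq_true, if_false]
    by_cases hm : m ≤ l.length
    · rw [if_pos hm]
      simp only [Bool.false_eq_true, false_iff]
      rintro ⟨i, h1, h2, -⟩; omega
    · rw [if_neg hm]
      simp only
      cases ha : ans () l.length with
      | false =>
        have h1 := ih (l ++ [false]) (by simp [hl]) (by simp; omega)
        have h2 : runI (ampOut m) ans n (l ++ [false]) = true ↔
            ∃ i, (l ++ [false]).length ≤ i ∧ i < m ∧ ans () i = true := h1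
        have h3 : (runI (fun l => if l.any (fun b => b) = true then Sum.inr true else
            if m ≤ l.length then Sum.inr false else Sum.inl ()) ans n (l ++ [false]) = true) =
            (runI (ampOut m) ans n (l ++ [false]) = true) := rfl
        rw [h3, h2]
        simp only [List.length_append, List.length_singleton]
        constructor
        · rintro ⟨i, h4, h5, h6⟩; exact ⟨i, by omega, h5, h6⟩
        · rintro ⟨i, h4, h5, h6⟩
          refine ⟨i, ?_, h5, h6⟩
          rcases Nat.lt_or_ge l.length i with h7 | h7
          · omega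
          · have : i = l.length := by omega
            rw [this, ha] at h6
            cases h6
      | true =>
        have hn1 : 1 ≤ n := by omega
        obtain ⟨n', rfl⟩ : ∃ n', n = n' + 1 := ⟨n - 1, by omega⟩
        rw [runI]
        have h1 : (l ++ [true]).any (fun b => b) = true := by simp
        rw [h1]
        simp only [if_true, true_iff]
        exact ⟨l.length, le_rfl, by omega, ha⟩

theorem RTRed.toM {P : Prob X} {Q : Prob Y} (hr : RTRed P Q) : RTRedM P Q := by
  obtain ⟨h, G, R, N, next, hh, hG, hR, hN, hnext, H⟩ := hr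
  have hR' : PolyTime (fun z : X × List ℕ => R z) := hR
  have hN' : PolyTime (fun z : X × List ℕ => N z) := hN
  have hnext' : PolyTime (fun z : (X × List ℕ × List Bool) × List Bool => next z) := hnext
  -- context of the combined procedure: `((x, l, r), m)`
  have hout : PolyTime (fun z : ((X × List ℕ × List Bool) × ℕ) × List Bool => ampOut z.1.2 z.2) := by
    unfold ampOut
    have hany : PolyTime (fun z : ((X × List ℕ × List Bool) × ℕ) × List Bool =>
        z.2.any (fun b => b)) :=
      PolyTime.any (l := fun z : ((X × List ℕ × List Bool) × ℕ) × List Bool => z.2)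
        (g := fun _ b => b) (by fun_prop) (by fun_prop)
    exact PolyTime.ite (P := fun z : ((X × List ℕ × List Bool) × ℕ) × List Bool =>
        z.2.any (fun b => b) = true) (PolyTime.decide_eq_true hany) (by fun_prop)
      (PolyTime.ite (by fun_prop) (by fun_prop) (by fun_prop))
  have hinn : PolyTime (fun z : (((X × List ℕ × List Bool) × ℕ) × Unit × ℕ) × List Bool =>
      next ((z.1.1.1.1, z.1.1.1.2.1, (z.1.1.1.2.2.drop (z.1.2.2 * R (z.1.1.1.1, z.1.1.1.2.1))).take
        (R (z.1.1.1.1, z.1.1.1.2.1))), z.2)) := by fun_prop
  have hcomb := comb_polyTime (α := (X × List ℕ × List Bool) × ℕ)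
    (outer := fun z => ampOut z.1.2 z.2)
    (inner := fun z => next ((z.1.1.1.1, z.1.1.1.2.1,
      (z.1.1.1.2.2.drop (z.1.2.2 * R (z.1.1.1.1, z.1.1.1.2.1))).take
        (R (z.1.1.1.1, z.1.1.1.2.1))), z.2))
    (N1 := fun z => z.2 + 1) (N2 := fun z => N (z.1.1.1, z.1.1.2.1)) hout hinn (by fun_prop)
    (by fun_prop)
  refine ⟨h, G, fun z => z.2 * R z.1, fun z => (z.2 + 1) * N z.1 + 1, fun z => comb
    (fun l => ampOut z.1.2 l)
    (fun _ i l => next ((z.1.1.1, z.1.1.2.1,
      (z.1.1.2.2.drop (i * R (z.1.1.1, z.1.1.2.1))).take (R (z.1.1.1, z.1.1.2.1))), l))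
    (z.1.2 + 1) (fun _ => N (z.1.1.1, z.1.1.2.1)) z.2, hh, hG, by fun_prop, by fun_prop,
    hcomb, fun x m => ?_⟩
  obtain ⟨H1, H2⟩ := H x
  refine ⟨?_, ?_⟩
  · -- promise
    intro r as y hy
    obtain ⟨w, l, l', -, -, h3⟩ := comb_inl hy
    exact H1 _ _ _ h3
  · intro O hO1 hO2
    obtain ⟨H3, H4⟩ := H2 O hO1 hO2
    set R0 := R (x, h (P.par x)) with hR0
    set N0 := N (x, h (P.par x)) with hN0
    let run : List Bool → Bool := fun l =>
      runO (fun as => next ((x, h (P.par x), l), as)) O N0 []
    have hrun : ∀ r : List Bool, runO (comb (fun l => ampOut m l)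
        (fun (_ : Unit) i l => next ((x, h (P.par x), (r.drop (i * R0)).take R0), l))
        (m + 1) (fun _ => N0)) O ((m + 1) * N0 + 1) [] = true ↔
        ∃ i < m, run ((r.drop (i * R0)).take R0) = true := by
      intro r
      rw [run_comb (fun l => ampOut m l)
        (fun (_ : Unit) i l => next ((x, h (P.par x), (r.drop (i * R0)).take R0), l))
        (m + 1) (fun _ => N0) O N0 (fun _ => le_rfl) _ le_rfl]
      have h5 := runI_ampOut m (innerAns
        (fun (_ : Unit) i l => next ((x, h (P.par x), (r.drop (i * R0)).take R0), l))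
        (fun _ => N0) O) (m + 1) [] (by simp) (by simp)
      have h6 : (fun l => ampOut m l) = ampOut m := rfl
      rw [h6, h5]
      simp only [List.length_nil, Nat.zero_le, true_and]
      rfl
    refine ⟨fun hx => ?_, fun hx r => ?_⟩
    · -- yes-instances
      have h3 := H3 hx
      have hcount := block_count R0 m (fun l => !run l)
      have hset : (Finset.univ.filter (fun r : Fin (m * R0) → Bool =>
          runO (comb (fun l => ampOut m l)
        (fun (_ : Unit) i l => next ((x, h (P.par x), ((List.ofFn r).drop (i * R0)).take R0), l))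
        (m + 1) (fun _ => N0)) O ((m + 1) * N0 + 1) [] = false)) =
          (Finset.univ.filter (fun r : Fin (m * R0) → Bool =>
            ∀ i < m, (fun l => !run l) (((List.ofFn r).drop (i * R0)).take R0) = true)) := by
        apply Finset.filter_congr
        intro r _
        rw [← Bool.not_eq_true, hrun]
        push Not
        simp only [Bool.not_eq_true']
        constructor
        · intro h7 i hi
          exact Bool.eq_false_iff.2 (h7 i hi)
        · intro h7 i hi
          exact Bool.eq_false_iff.1 (h7 i hi)
      have hgoal : 2 ^ m * (Finset.univ.filter (fun r : Fin (m * R0) → Bool =>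
          runO (comb (fun l => ampOut m l)
        (fun (_ : Unit) i l => next ((x, h (P.par x), ((List.ofFn r).drop (i * R0)).take R0), l))
        (m + 1) (fun _ => N0)) O ((m + 1) * N0 + 1) [] = false)).card ≤ 2 ^ (m * R0) := by
        rw [hset, hcount, ← mul_pow, mul_comm m R0, pow_mul]
        apply Nat.pow_le_pow_left
        have h4 := Finset.card_filter_add_card_filter_not
          (s := (Finset.univ : Finset (Fin R0 → Bool)))
          (fun r => run (List.ofFn r) = true)
        simp only [Bool.not_eq_true, Finset.card_univ, Fintype.card_fun, Fintype.card_bool,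
          Fintype.card_fin] at h4
        simp only [Bool.not_eq_true']
        have h5 : 2 ^ R0 ≤ 2 * (Finset.univ.filter (fun r : Fin R0 → Bool =>
          run (List.ofFn r) = true)).card := h3
        omega
      exact hgoal
    · -- no-instances
      have hgoal : runO (comb (fun l => ampOut m l)
        (fun (_ : Unit) i l => next ((x, h (P.par x), ((List.ofFn r).drop (i * R0)).take R0), l))
        (m + 1) (fun _ => N0)) O ((m + 1) * N0 + 1) [] = false := by
        rw [← Bool.not_eq_true, hrun]
        rintro ⟨i, hi, h7⟩
        have hlen : (((List.ofFn r).drop (i * R0)).take R0).length = R0 := by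
          rw [List.length_take, List.length_drop, List.length_ofFn]
          show min R0 (m * R0 - i * R0) = R0
          have : i * R0 + R0 ≤ m * R0 := by
            calc i * R0 + R0 = (i + 1) * R0 := by ring
              _ ≤ m * R0 := Nat.mul_le_mul_right _ hi
          omega
        have h8 := H4 hx (fun j => (((List.ofFn r).drop (i * R0)).take R0).get (j.cast hlen.symm))
        have h9 : List.ofFn (fun j : Fin R0 =>
            (((List.ofFn r).drop (i * R0)).take R0).get (j.cast hlen.symm)) =
            ((List.ofFn r).drop (i * R0)).take R0 := by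
          apply List.ext_get
          · simp [hlen]
          · intro n h1 h2
            simp
        rw [h9] at h8
        have h10 : run (((List.ofFn r).drop (i * R0)).take R0) = false := h8
        rw [h7] at h10
        cases h10
      exact hgoal

end Pool.Agent.H78DS
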