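import Pool.Agent.H78DS.Barrier

/-! # MP_91b64b_lc: asymptotic form of the locality bound -/

set_option autoImplicit false

namespace Pool.Agent.H78DS

open Filter

theorem ev_rpow_lt (K : ℝ) {a b : ℝ} (hab : a < b) : ∀ᶠ x : ℝ in atTop, K * x ^ a < x ^ b := by
  have h := tendsto_rpow_atTop (y := b - a) (by linarith)
  filter_upwards [h.eventually_gt_atTop K, eventually_gt_atTop 0] with x h1 h2
  have h3 : x ^ b = x ^ (b - a) * x ^ a := by rw [← Real.rpow_add h2]; congr 1; ring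
  rw [h3]
  exact mul_lt_mul_of_pos_right h1 (Real.rpow_pos_of_pos h2 a)

theorem pow_bound {B k N : ℕ} (hB : 1 ≤ B) :
    (B - 1) ^ (⌊(B : ℝ) * (k * Real.log (N + 1))⌋₊ + 1) * (N + 1) ^ k <
      B ^ (⌊(B : ℝ) * (k * Real.log (N + 1))⌋₊ + 1) := by
  set q := ⌊(B : ℝ) * (k * Real.log (N + 1))⌋₊ + 1 with hq
  have hB0 : (0 : ℝ) < B := by exact_mod_cast hB
  have hN0 : (0 : ℝ) < (N : ℝ) + 1 := by positivity
  have h1 : (B : ℝ) * (k * Real.log (N + 1)) < q := by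
    rw [hq]; push_cast; exact Nat.lt_floor_add_one _
  have h2 : (k : ℝ) * Real.log (N + 1) < q / B := by
    rw [lt_div_iff₀ hB0]; linarith
  have h3 : ((N : ℝ) + 1) ^ k < Real.exp (q / B) := by
    calc ((N : ℝ) + 1) ^ k = Real.exp (k * Real.log (N + 1)) := by
          rw [Real.exp_nat_mul, Real.exp_log hN0]
      _ < Real.exp (q / B) := Real.exp_lt_exp.2 h2
  have h4 : (((B - 1 : ℕ) : ℝ)) ^ q ≤ (B : ℝ) ^ q * Real.exp (-(q / B)) := by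
    have h5 : (((B - 1 : ℕ) : ℝ)) = B * (1 - 1 / B) := by
      rw [Nat.cast_sub hB]; field_simp; simp
    have h6 : (1 : ℝ) - 1 / B ≤ Real.exp (-(1 / B)) := by
      have := Real.add_one_le_exp (-(1 / (B : ℝ)))
      linarith
    have h7 : (0 : ℝ) ≤ 1 - 1 / B := by
      rw [sub_nonneg, div_le_one hB0]; exact_mod_cast hB
    rw [h5, mul_pow]
    apply mul_le_mul_of_nonneg_left _ (by positivity)
    calc (1 - 1 / (B : ℝ)) ^ q ≤ (Real.exp (-(1 / B))) ^ q := pow_le_pow_left₀ h7 h6 q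
      _ = Real.exp (-(q / B)) := by rw [← Real.exp_nat_mul]; congr 1; ring
  have h8 : (((B - 1 : ℕ) : ℝ)) ^ q * ((N : ℝ) + 1) ^ k < (B : ℝ) ^ q := by
    calc (((B - 1 : ℕ) : ℝ)) ^ q * ((N : ℝ) + 1) ^ k ≤
          ((B : ℝ) ^ q * Real.exp (-(q / B))) * ((N : ℝ) + 1) ^ k :=
          mul_le_mul_of_nonneg_right h4 (by positivity)
      _ < ((B : ℝ) ^ q * Real.exp (-(q / B))) * Real.exp (q / B) :=
          mul_lt_mul_of_pos_left h3 (by positivity)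
      _ = (B : ℝ) ^ q := by
          rw [mul_assoc, ← Real.exp_add]; simp
  exact_mod_cast h8

/-- ASYMPTOTIC LOCALITY BOUND: with `n` sets and `n` elements, element-local reductions need about `n ^ (⌊ρ⌋ δ)` new
elements. -/
theorem asym_bound (k k' : ℕ) (hk : 1 ≤ k) (ρ f C C' δ : ℝ) (hδ : 0 < δ) (hρ : 0 ≤ ρ)
    (hC : C < ⌊ρ⌋₊ * δ) :
    ∃ n₀ : ℕ, ∀ n : ℕ, n₀ ≤ n → ∀ N M ℓ : ℕ, (N : ℝ) ≤ f * (n : ℝ) ^ C' → (M : ℝ) ≤ f * (n : ℝ) ^ C →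
      (ℓ : ℝ) ≤ f * (n : ℝ) ^ (1 - δ) →
      ∀ Φ : (Fin n → Fin n → Prop) → (Fin N → Fin M → Prop), ElemLocal ℓ Φ → ¬ GapRed k k' ρ Φ := by
  set c := ⌊ρ⌋₊ with hc
  -- choose `β`
  obtain ⟨β, hβ0, hβδ, hCβ⟩ : ∃ β : ℝ, 0 < β ∧ β < δ ∧ C < c * β := by
    have h1 : ContinuousAt (fun t : ℝ => (c : ℝ) * t) δ := by fun_prop
    have h2 : ∀ᶠ t in nhds δ, C < (c : ℝ) * t := h1.eventually (lt_mem_nhds hC)
    have h3 : ∀ᶠ t in nhds δ, 0 < t := lt_mem_nhds hδ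
    have h4 : ∀ᶠ t in nhdsWithin δ (Set.Iio δ), (C < (c : ℝ) * t ∧ 0 < t) ∧ t ∈ Set.Iio δ :=
      ((h2.and h3).filter_mono nhdsWithin_le_nhds).and self_mem_nhdsWithin
    obtain ⟨t, ⟨h5, h6⟩, h7⟩ := h4.exists
    exact ⟨t, h6, h7, h5⟩
  set ε := (δ - β) / 2 with hε
  have hε0 : 0 < ε := by rw [hε]; linarith
  set f' := max f 1 with hf'
  have hf1 : 1 ≤ f' := le_max_right _ _
  have hff : f ≤ f' := le_max_left _ _
  set P := max C' 0 with hP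
  have hP0 : 0 ≤ P := le_max_right _ _
  set K := f' * (2 * (k' * ((P + 1) / ε)) + 1) with hK
  have e1 := tendsto_natCast_atTop_atTop (R := ℝ) |>.eventually (ev_rpow_lt f' hCβ)
  have e2 := tendsto_natCast_atTop_atTop (R := ℝ) |>.eventually
    (ev_rpow_lt (f' + 1) (show P < P + 1 by linarith))
  have e3 := tendsto_natCast_atTop_atTop (R := ℝ) |>.eventually
    (ev_rpow_lt K (show 1 - ε < 1 by linarith))
  have e4 := (eventually_ge_atTop (k + 1) : ∀ᶠ n : ℕ in atTop, k + 1 ≤ n)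
  obtain ⟨n₀, hn₀⟩ := eventually_atTop.1 (((e1.and e2).and e3).and e4)
  refine ⟨n₀, fun n hn N M ℓ hN hM hℓ Φ hloc hgap => ?_⟩
  obtain ⟨⟨⟨h1, h2⟩, h3⟩, h4⟩ := hn₀ n hn
  have hn1 : (1 : ℝ) ≤ n := by exact_mod_cast (by omega : 1 ≤ n)
  have hn0 : (0 : ℝ) < n := by linarith
  -- the number `B`
  set B := ⌈(n : ℝ) ^ β⌉₊ with hB
  have hnβ : (1 : ℝ) ≤ (n : ℝ) ^ β := Real.one_le_rpow hn1 hβ0.le
  have hB1 : 1 ≤ B := by
    rw [hB, Nat.one_le_ceil_iff]; linarith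
  have hBle : (B : ℝ) ≤ 2 * (n : ℝ) ^ β := by
    have := (Nat.ceil_lt_add_one (show (0 : ℝ) ≤ (n : ℝ) ^ β by positivity)).le
    linarith
  have hMB : M < B ^ c := by
    have h5 : (M : ℝ) < ((B ^ c : ℕ) : ℝ) := by
      calc (M : ℝ) ≤ f * (n : ℝ) ^ C := hM
        _ ≤ f' * (n : ℝ) ^ C := mul_le_mul_of_nonneg_right hff (by positivity)
        _ < (n : ℝ) ^ (c * β) := h1
        _ = ((n : ℝ) ^ β) ^ c := by rw [← Real.rpow_mul_natCast hn0.le, mul_comm]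
        _ ≤ (B : ℝ) ^ c := pow_le_pow_left₀ (by positivity) (Nat.le_ceil _) c
        _ = _ := by push_cast; rfl
    exact_mod_cast h5
  have hb := local_bound hk h4 le_rfl hMB (pow_bound hB1) Φ hloc hgap.1
    (fun A hA => hgap.no (Nat.floor_le hρ) A hA)
  -- the contradiction
  have hN1 : (N : ℝ) + 1 ≤ (n : ℝ) ^ (P + 1) := by
    have h5 : (N : ℝ) ≤ f' * (n : ℝ) ^ P := by
      calc (N : ℝ) ≤ f * (n : ℝ) ^ C' := hN
        _ ≤ f' * (n : ℝ) ^ C' := mul_le_mul_of_nonneg_right hff (by positivity)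
        _ ≤ f' * (n : ℝ) ^ P := mul_le_mul_of_nonneg_left
          (Real.rpow_le_rpow_of_exponent_le hn1 (le_max_left _ _)) (by linarith)
    have h6 : (1 : ℝ) ≤ (n : ℝ) ^ P := Real.one_le_rpow hn1 hP0
    nlinarith
  have hlog : Real.log ((N : ℝ) + 1) ≤ (P + 1) * ((n : ℝ) ^ ε / ε) := by
    calc Real.log ((N : ℝ) + 1) ≤ Real.log ((n : ℝ) ^ (P + 1)) :=
          Real.log_le_log (by positivity) hN1
      _ = (P + 1) * Real.log n := Real.log_rpow hn0 _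
      _ ≤ (P + 1) * ((n : ℝ) ^ ε / ε) := mul_le_mul_of_nonneg_left
        (Real.log_le_rpow_div hn0.le hε0) (by linarith)
  have hlog0 : 0 ≤ Real.log ((N : ℝ) + 1) := Real.log_nonneg (by
    have : (0 : ℝ) ≤ N := Nat.cast_nonneg _
    linarith)
  have hq : ((⌊(B : ℝ) * (k' * Real.log (N + 1))⌋₊ + 1 : ℕ) : ℝ) ≤
      (2 * (k' * ((P + 1) / ε)) + 1) * (n : ℝ) ^ (β + ε) := by
    have h5 : (⌊(B : ℝ) * (k' * Real.log (N + 1))⌋₊ : ℝ) ≤ (B : ℝ) * (k' * Real.log (N + 1)) :=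
      Nat.floor_le (by positivity)
    have h6 : (B : ℝ) * (k' * Real.log (N + 1)) ≤
        (2 * (n : ℝ) ^ β) * (k' * ((P + 1) * ((n : ℝ) ^ ε / ε))) :=
      mul_le_mul hBle (mul_le_mul_of_nonneg_left hlog (Nat.cast_nonneg _)) (by positivity)
        (by positivity)
    have h7 : (1 : ℝ) ≤ (n : ℝ) ^ (β + ε) := Real.one_le_rpow hn1 (by linarith)
    have h8 : (n : ℝ) ^ (β + ε) = (n : ℝ) ^ β * (n : ℝ) ^ ε := Real.rpow_add hn0 _ _
    push_cast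
    calc (⌊(B : ℝ) * (k' * Real.log (N + 1))⌋₊ : ℝ) + 1 ≤
          (2 * (n : ℝ) ^ β) * (k' * ((P + 1) * ((n : ℝ) ^ ε / ε))) + 1 * (n : ℝ) ^ (β + ε) := by
            linarith
      _ = (2 * (k' * ((P + 1) / ε)) + 1) * (n : ℝ) ^ (β + ε) := by
          rw [h8]; ring
  have hfin : (n : ℝ) ≤ K * (n : ℝ) ^ (1 - ε) := by
    have h5 : (n : ℝ) ≤ (ℓ : ℝ) * ((⌊(B : ℝ) * (k' * Real.log (N + 1))⌋₊ + 1 : ℕ) : ℝ) := by
      exact_mod_cast hb
    have h6 : (ℓ : ℝ) ≤ f' * (n : ℝ) ^ (1 - δ) :=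
      hℓ.trans (mul_le_mul_of_nonneg_right hff (by positivity))
    calc (n : ℝ) ≤ (ℓ : ℝ) * ((⌊(B : ℝ) * (k' * Real.log (N + 1))⌋₊ + 1 : ℕ) : ℝ) := h5
      _ ≤ (f' * (n : ℝ) ^ (1 - δ)) * ((2 * (k' * ((P + 1) / ε)) + 1) * (n : ℝ) ^ (β + ε)) :=
          mul_le_mul h6 hq (Nat.cast_nonneg _) (by positivity)
      _ = K * ((n : ℝ) ^ (1 - δ) * (n : ℝ) ^ (β + ε)) := by rw [hK]; ring
      _ = K * (n : ℝ) ^ (1 - ε) := by
          rw [← Real.rpow_add hn0]; congr 2; rw [hε]; ring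
  rw [Real.rpow_one] at h3
  exact absurd h3 (not_lt.2 hfin)

end Pool.Agent.H78DS
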