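import Pool.Agent.H78DS.Amp

/-! # H78DS/BDefs: bounded-error randomised fpt Turing reductions -/

set_option autoImplicit false

namespace Pool.Agent.H78DS

open Filter Pool.Agent.PT

variable {X Y Z : Type} [Enc X] [Enc Y] [Enc Z]

theorem RTRedM.toB {P : Prob X} {Q : Prob Y} (hr : RTRedM P Q) : BRed P Q := by
  obtain ⟨h, G, R, N, next, hh, hG, hR, hN, hnext, H⟩ := hr
  refine ⟨h, G, R, N, next, hh, hG, hR, hN, hnext, fun x m _ => ?_⟩
  obtain ⟨H1, H2⟩ := H x m
  refine ⟨H1, fun O hO1 hO2 => ?_⟩
  obtain ⟨H3, H4⟩ := H2 O hO1 hO2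
  refine ⟨H3, fun hx => ?_⟩
  have h1 : (Finset.univ.filter
      (fun r : Fin (R ((x, h (P.par x)), m)) → Bool =>
        runO (fun as => next (((x, h (P.par x), List.ofFn r), m), as)) O
          (N ((x, h (P.par x)), m)) [] = true)) = ∅ := by
    rw [Finset.filter_eq_empty_iff]
    intro r _
    rw [H4 hx r]
    simp
  rw [h1]
  simp

theorem FptRed.toB {P : Prob X} {Q : Prob Y} (hr : FptRed P Q) : BRed P Q := by
  obtain ⟨h, G, R, hh, hG, hR, H⟩ := hr
  have hR' : PolyTime (fun z : X × List ℕ => R z) := hR
  refine ⟨h, G, fun _ => 0, fun _ => 2, fun z => if z.2.length = 0 then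
    (Sum.inl (R (z.1.1.1, z.1.1.2.1)) : Y ⊕ Bool) else Sum.inr (z.2.headD false), hh, hG,
    by fun_prop, by fun_prop, ?_, fun x m hx => ?_⟩
  · exact PolyTime.ite (P := fun z : ((X × List ℕ × List Bool) × ℕ) × List Bool =>
      z.2.length = 0) (PolyTime.decide_eq (by fun_prop) (by fun_prop))
      (PolyTime.inl (by fun_prop)) (PolyTime.inr (by fun_prop))
  · obtain ⟨H1, H2, H3⟩ := H x
    refine ⟨fun r as y hy => ?_, fun O hO1 hO2 => ?_⟩
    · simp only at hy
      split_ifs at hy with hc
      have := Sum.inl.inj hy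
      subst this
      refine ⟨H1, ?_⟩
      rcases hx with hx | hx
      · exact Or.inl (H2 hx)
      · exact Or.inr (H3 hx)
    · have hrun : ∀ r : Fin 0 → Bool, runO (fun as => if as.length = 0 then
          (Sum.inl (R (x, h (P.par x))) : Y ⊕ Bool) else Sum.inr (as.headD false)) O 2 [] =
          O (R (x, h (P.par x))) := by
        intro r
        rfl
      refine ⟨fun hyes => ?_, fun hno => ?_⟩
      · have h1 : (Finset.univ.filter (fun r : Fin 0 → Bool =>
            runO (fun as => if as.length = 0 then
          (Sum.inl (R (x, h (P.par x))) : Y ⊕ Bool) else Sum.inr (as.headD false)) O 2 [] =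
            false)) = ∅ := by
          rw [Finset.filter_eq_empty_iff]
          intro r _
          rw [hrun r, hO1 _ (H2 hyes)]
          simp
        have h2 : 2 ^ m * (Finset.univ.filter (fun r : Fin 0 → Bool =>
            runO (fun as => if as.length = 0 then
          (Sum.inl (R (x, h (P.par x))) : Y ⊕ Bool) else Sum.inr (as.headD false)) O 2 [] =
            false)).card ≤ 2 ^ 0 := by
          rw [h1]; simp
        exact h2
      · have h1 : (Finset.univ.filter (fun r : Fin 0 → Bool =>
            runO (fun as => if as.length = 0 then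
          (Sum.inl (R (x, h (P.par x))) : Y ⊕ Bool) else Sum.inr (as.headD false)) O 2 [] =
            true)) = ∅ := by
          rw [Finset.filter_eq_empty_iff]
          intro r _
          rw [hrun r, hO2 _ (H3 hno)]
          simp
        have h2 : 2 ^ m * (Finset.univ.filter (fun r : Fin 0 → Bool =>
            runO (fun as => if as.length = 0 then
          (Sum.inl (R (x, h (P.par x))) : Y ⊕ Bool) else Sum.inr (as.headD false)) O 2 [] =
            true)).card ≤ 2 ^ 0 := by
          rw [h1]; simp
        exact h2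

end Pool.Agent.H78DS
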