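import Pool.Agent.H78DS.BoostDef

/-! # H78DS/BoostRound: one round with correct answers

PROOF of `round_correct`. `as0` are the answers of the rounds before, `bs` those of this round. Let `k = I.2.2`, `n = I.1`, `q`, `w` as in the
definition; all samples are elements of `V` (`valm v _ < v` for `v ≥ 1`), so `< n`. For `j ≤ n` let `F_j` be the family of the sets
`N_v = {i < q : adjV I v (smp V rs w i)}`, `v < n`, without those `v < j` with `bs.getD v true = true`. By induction on `j`, `F_j` has a
cover by at most `k` sets: `F_0`: `hcov`; if the `j`-th answer is `true` then `F_(j+1)` is the family of the `j`-th query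
(`query` for `as = as0 ++ bs.take j`: `as.length % n = j`, `as.length / n = i`, the positions `i n + v` for `v < j` are those of `bs`), which has
a `k`-cover by `hO`; otherwise `F_(j+1) = F_j`. Let `C` be a cover of `F_n` with at most `k` sets. `T = {v < n : bs.getD v true = false}`
are the sets of `F_n`. If `v ∈ T` and `v ∉ C` then `C` still covers in the `v`-th query (which contains all the sets of `F_n`
except `v`), so its answer is `true` by `hO`, contradiction. So `T ⊆ C`, `T.length ≤ k`, and `T` covers because the sets in `C ∖ T` are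
not in `F_n`. `chosen n (as0 ++ bs) (i + 1)`: the positions below `i n` give `chosen n as0 i`, the positions `i n + v` give `T`
(`(i n + v) % n = v`). -/

set_option autoImplicit false

namespace Pool.Agent.H78DS

private theorem br_adjV_iff (I : GI) (v x : ℕ) : adjV I v x = true ↔
    x = v ∨ (x < I.1 ∧ v < I.1 ∧ ((v, x) ∈ I.2.1 ∨ (x, v) ∈ I.2.1)) := by
  unfold adjV
  simp only [Bool.or_eq_true, Bool.and_eq_true, decide_eq_true_eq, and_assoc]

private theorem br_valm_lt (v : ℕ) (l : List Bool) : valm v l < max v 1 := by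
  have key : ∀ (l : List Bool) (x : ℕ), x < max v 1 →
      l.foldl (fun x b => (2 * x + if b then 1 else 0) % max v 1) x < max v 1 := by
    intro l
    induction l with
    | nil => intro x hx; exact hx
    | cons b l ih =>
      intro x _
      rw [List.foldl_cons]
      exact ih _ (Nat.mod_lt _ (by omega))
  exact key l 0 (by omega)

private theorem br_smp_mem (V : List ℕ) (hV : V ≠ []) (rs : List Bool) (w s : ℕ) :
    smp V rs w s ∈ V := by
  have hpos : 0 < V.length := List.length_pos_iff.2 hV
  have h := br_valm_lt V.length ((rs.drop (s * w)).take w)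
  have h' : valm V.length ((rs.drop (s * w)).take w) < V.length := by omega
  unfold smp
  rw [List.getD_eq_getElem _ _ h']
  exact List.getElem_mem h'

private theorem br_query (I : GI) (c K i j : ℕ) (rs as0 bs : List Bool) (V : List ℕ)
    (hn : 1 ≤ I.1) (h0 : as0.length = i * I.1) (hb : bs.length = I.1) (hj : j < I.1) :
    HasSC (query I V rs (as0 ++ bs.take j) c K) I.2.2 ↔
      ∃ T : Finset ℕ, T.card ≤ I.2.2 ∧ ∀ s < bq I.1 c I.2.2, ∃ v ∈ T,
        (v < I.1 ∧ ¬ (v = j ∨ (v < j ∧ bs.getD v true = true))) ∧
          adjV I v (smp V rs (Nat.size I.1) s) = true := by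
  have hlen : (as0 ++ bs.take j).length = j + i * I.1 := by
    rw [List.length_append, List.length_take, h0, hb, min_eq_left hj.le, add_comm]
  have hmod : (as0 ++ bs.take j).length % I.1 = j := by
    rw [hlen, Nat.add_mul_mod_self_right, Nat.mod_eq_of_lt hj]
  have hdiv : (as0 ++ bs.take j).length / I.1 = i := by
    rw [hlen, Nat.add_mul_div_right _ _ (by omega), Nat.div_eq_of_lt hj, zero_add]
  have hget : ∀ v < j, (as0 ++ bs.take j).getD (i * I.1 + v) true = bs.getD v true := by
    intro v hv
    rw [List.getD_append_right _ _ _ _ (by omega), h0, Nat.add_sub_cancel_left]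
    rw [List.getD_eq_getElem?_getD, List.getD_eq_getElem?_getD, List.getElem?_take_of_lt hv]
  have hset : ∀ v x : ℕ, x ∈ (query I V rs (as0 ++ bs.take j) c K).1.getD v [] ↔
      x < bq I.1 c I.2.2 ∧ (v < I.1 ∧ ¬ (v = j ∨ (v < j ∧ bs.getD v true = true))) ∧
          adjV I v (smp V rs (Nat.size I.1) x) = true := by
    intro v x
    have hcond : (v = (as0 ++ bs.take j).length % I.1 ∨ (v < (as0 ++ bs.take j).length % I.1 ∧
        (as0 ++ bs.take j).getD ((as0 ++ bs.take j).length / I.1 * I.1 + v) true = true)) ↔
        (v = j ∨ (v < j ∧ bs.getD v true = true)) := by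
      rw [hmod, hdiv]
      constructor
      · rintro (h | ⟨h, h'⟩)
        · exact Or.inl h
        · right
          rw [hget v h] at h'
          exact ⟨h, h'⟩
      · rintro (h | ⟨h, h'⟩)
        · exact Or.inl h
        · right
          rw [hget v h]
          exact ⟨h, h'⟩
    have hq : x ∈ qset I V rs (as0 ++ bs.take j) (Nat.size I.1) (bq I.1 c I.2.2) v ↔
        x < bq I.1 c I.2.2 ∧ (v < I.1 ∧ ¬ (v = j ∨ (v < j ∧ bs.getD v true = true))) ∧
          adjV I v (smp V rs (Nat.size I.1) x) = true := by
      unfold qset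
      split_ifs with h
      · rw [hcond] at h
        rw [List.mem_filter, List.mem_range]
        exact ⟨fun h1 => ⟨h1.1, h, h1.2⟩, fun h1 => ⟨h1.1, h1.2.2⟩⟩
      · constructor
        · intro h1
          exact absurd h1 (List.not_mem_nil)
        · intro h1
          rw [hcond] at h
          exact absurd h1.2.1 h
    rw [← hq]
    unfold query
    dsimp only
    by_cases hv : v < bL I.1 c I.2.2 K
    · rw [List.getD_eq_getElem _ _ (by simpa using hv)]
      simp
    · rw [List.getD_eq_default _ _ (by simpa using hv)]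
      constructor
      · intro h1
        exact absurd h1 (List.not_mem_nil)
      · intro h1
        rw [hq] at h1
        exfalso
        apply hv
        refine h1.2.1.1.trans_le ?_
        unfold bL
        exact le_max_left _ _
  unfold HasSC SCov
  constructor
  · rintro ⟨T, hT, hcov⟩
    refine ⟨T, hT, fun s hs => ?_⟩
    obtain ⟨v, hv, h1⟩ := hcov s hs
    rw [hset] at h1
    exact ⟨v, hv, h1.2⟩
  · rintro ⟨T, hT, hcov⟩
    refine ⟨T, hT, fun s hs => ?_⟩
    obtain ⟨v, hv, h1⟩ := hcov s hs
    refine ⟨v, hv, ?_⟩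
    rw [hset]
    exact ⟨hs, h1⟩

private theorem br_chosen (n i : ℕ) (hn : 1 ≤ n) (as0 bs : List Bool) (h0 : as0.length = i * n) :
    chosen n (as0 ++ bs) (i + 1) =
      chosen n as0 i ++ (List.range n).filter (fun v => !bs.getD v true) := by
  unfold chosen
  have hr : (i + 1) * n = i * n + n := by ring
  rw [hr, List.range_add, List.filter_append, List.map_append]
  congr 1
  · congr 1
    apply List.filter_congr
    intro p hp
    rw [List.mem_range] at hp
    rw [List.getD_append _ _ _ _ (by omega)]
  · rw [List.filter_map, List.map_map]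
    have h1 : (List.range n).filter ((fun p => !(as0 ++ bs).getD p true) ∘ fun x => i * n + x)
        = (List.range n).filter (fun v => !bs.getD v true) := by
      apply List.filter_congr
      intro p _
      dsimp only [Function.comp]
      rw [List.getD_append_right _ _ _ _ (by omega), h0, Nat.add_sub_cancel_left]
    rw [h1]
    conv_rhs => rw [← List.map_id ((List.range n).filter (fun v => !bs.getD v true))]
    apply List.map_congr_left
    intro v hv
    rw [List.mem_filter, List.mem_range] at hv
    dsimp only [Function.comp, id]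
    rw [add_comm, Nat.add_mul_mod_self_right, Nat.mod_eq_of_lt hv.1]

theorem round_correct (I : GI) (c K i : ℕ) (rs as0 bs : List Bool) (V : List ℕ) (hn : 1 ≤ I.1)
    (hV : V ≠ []) (hVn : ∀ x ∈ V, x < I.1) (h0 : as0.length = i * I.1) (hb : bs.length = I.1)
    (hO : ∀ j < I.1, (bs.getD j true = true ↔ HasSC (query I V rs (as0 ++ bs.take j) c K) I.2.2))
    (hcov : ∃ T : List ℕ, T.length ≤ I.2.2 ∧ ∀ s < bq I.1 c I.2.2,
      ∃ v ∈ T, adjV I v (smp V rs (Nat.size I.1) s) = true) :
    ∃ T : List ℕ, T.length ≤ I.2.2 ∧ chosen I.1 (as0 ++ bs) (i + 1) = chosen I.1 as0 i ++ T ∧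
      ∀ s < bq I.1 c I.2.2, ∃ v ∈ T, adjV I v (smp V rs (Nat.size I.1) s) = true := by
  classical
  have hO' := fun j (hj : j < I.1) =>
    (hO j hj).trans (br_query I c K i j rs as0 bs V hn h0 hb hj)
  -- the families
  have hind : ∀ j ≤ I.1, ∃ T : Finset ℕ, T.card ≤ I.2.2 ∧ ∀ s < bq I.1 c I.2.2, ∃ v ∈ T,
      (v < I.1 ∧ ¬ (v < j ∧ bs.getD v true = true)) ∧
        adjV I v (smp V rs (Nat.size I.1) s) = true := by
    intro j
    induction j with
    | zero =>
      intro _
      obtain ⟨T, hT, hT2⟩ := hcov
      refine ⟨T.toFinset, (List.toFinset_card_le T).trans hT, fun s hs => ?_⟩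
      obtain ⟨v, hv, hadj⟩ := hT2 s hs
      refine ⟨v, List.mem_toFinset.2 hv, ⟨?_, fun h => by omega⟩, hadj⟩
      rw [br_adjV_iff] at hadj
      rcases hadj with h | h
      · rw [← h]
        exact hVn _ (br_smp_mem V hV rs _ s)
      · exact h.2.1
    | succ j ih =>
      intro hj
      by_cases hbj : bs.getD j true = true
      · obtain ⟨T, hT, hT2⟩ := (hO' j (by omega)).1 hbj
        refine ⟨T, hT, fun s hs => ?_⟩
        obtain ⟨v, hv, ⟨hv1, hv2⟩, hadj⟩ := hT2 s hs
        refine ⟨v, hv, ⟨hv1, ?_⟩, hadj⟩
        rintro ⟨h1, h2⟩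
        apply hv2
        rcases Nat.lt_or_ge v j with h3 | h3
        · exact Or.inr ⟨h3, h2⟩
        · exact Or.inl (by omega)
      · obtain ⟨T, hT, hT2⟩ := ih (by omega)
        refine ⟨T, hT, fun s hs => ?_⟩
        obtain ⟨v, hv, ⟨hv1, hv2⟩, hadj⟩ := hT2 s hs
        refine ⟨v, hv, ⟨hv1, ?_⟩, hadj⟩
        rintro ⟨h1, h2⟩
        apply hv2
        refine ⟨?_, h2⟩
        have : v ≠ j := by
          rintro rfl
          exact hbj h2
        omega
  obtain ⟨Cv, hC, hC2⟩ := hind I.1 le_rfl
  refine ⟨(List.range I.1).filter (fun v => !bs.getD v true), ?_,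
    br_chosen I.1 i hn as0 bs h0, fun s hs => ?_⟩
  · have hnd : ((List.range I.1).filter (fun v => !bs.getD v true)).Nodup :=
      List.nodup_range.filter _
    rw [← List.toFinset_card_of_nodup hnd]
    refine (Finset.card_le_card ?_).trans hC
    intro v hv
    rw [List.mem_toFinset, List.mem_filter, List.mem_range] at hv
    by_contra hvC
    have h1 : bs.getD v true = true := by
      rw [hO' v hv.1]
      refine ⟨Cv, hC, fun s hs => ?_⟩
      obtain ⟨u, hu, ⟨hu1, hu2⟩, hadj⟩ := hC2 s hs
      refine ⟨u, hu, ⟨hu1, ?_⟩, hadj⟩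
      rintro (h2 | h2)
      · exact hvC (h2 ▸ hu)
      · exact hu2 ⟨hu1, h2.2⟩
    rw [h1] at hv
    simp at hv
  · obtain ⟨u, hu, ⟨hu1, hu2⟩, hadj⟩ := hC2 s hs
    refine ⟨u, ?_, hadj⟩
    rw [List.mem_filter, List.mem_range]
    refine ⟨hu1, ?_⟩
    cases hbu : bs.getD u true with
    | false => rfl
    | true => exact absurd ⟨hu1, hbu⟩ hu2

end Pool.Agent.H78DS
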