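import Pool.Agent.H78DS.BoostDef

/-! # H78DS/BoostNum: the numbers of the procedure

`bB n c = #{b ≤ n : b ^ c ≤ n}` (`cp_eq`: `min (b ^ c) (n + 1) ≤ n ↔ b ^ c ≤ n`), for `c ≥ 1` this set is an initial segment
`{0, …, B - 1}` (if `b ^ c ≤ n` then `b ≤ n` and all smaller `b'` too). So `(B - 1) ^ c ≤ n < B ^ c`, `B ≥ 1`.
`bq_pow_le`: `B ^ c ≤ 2 ^ c * (n + 1)` (`B = 1` or `B ≤ 2 (B - 1)`); `z ≤ ((c + 1) k + 1) * size (n + 1)` (`size (n + 1) ≥ 1`);
`y ^ c ≤ c! * 2 ^ (y + c)` (`Nat.pow_succ_le_ascFactorial` or `y ^ c ≤ (y + 1).ascFactorial c = c! * (y + c).choose c`, and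
`choose ≤ 2 ^ (y + c)`); `2 ^ size (n + 1) ≤ 2 * (n + 1)` (`Nat.size`: `2 ^ (size m - 1) ≤ m`, `Nat.lt_size`). Together
`q ^ c = 2 ^ c B ^ c z ^ c ≤ 2 ^ c * 2 ^ c (n + 1) * ((c + 1) k + 1) ^ c * c! * 2 (n + 1) 2 ^ c`.
`union_le`: `(2B - 1) ^ (2B) * 2 ≤ (2B) ^ (2B)` (Bernoulli: `one_add_mul_le_pow` for `(1 + 1 / (2B - 1)) ^ (2B) ≥ 2`, or the natural number form
`(a + 1) ^ (a + 1) ≥ a ^ (a + 1) + (a + 1) a ^ a ≥ 2 a ^ (a + 1)`, `add_pow_le_pow_mul_pow_of_...`/binomial theorem), raise to the power `z`, and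
`2 * (n + 1) ^ ((c + 1) k) ≤ 2 ^ z` (`n + 1 < 2 ^ size (n + 1)`: `Nat.lt_size_self`). -/

set_option autoImplicit false

namespace Pool.Agent.H78DS

lemma bn_bB_card (n c : ℕ) : bB n c = ((Finset.range (n + 1)).filter (fun b => b ^ c ≤ n)).card := by
  unfold bB
  rw [List.countP_eq_length_filter]
  have h : (List.range (n + 1)).filter (fun b => decide (cp b c (n + 1) ≤ n)) =
      (List.range (n + 1)).filter (fun b => decide (b ^ c ≤ n)) := by
    apply List.filter_congr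
    intro b _
    rw [decide_eq_decide, cp_eq, min_le_iff]
    omega
  rw [h]
  rfl

lemma bn_exists (n c : ℕ) (hc : 1 ≤ c) : ∃ b, n < b ^ c := by
  refine ⟨n + 1, ?_⟩
  calc n < n + 1 := Nat.lt_succ_self n
    _ = (n + 1) ^ 1 := (pow_one _).symm
    _ ≤ (n + 1) ^ c := Nat.pow_le_pow_right (by omega) hc

lemma bn_bB_eq (n c : ℕ) (hc : 1 ≤ c) : bB n c = Nat.find (bn_exists n c hc) := by
  rw [bn_bB_card]
  set B := Nat.find (bn_exists n c hc) with hB
  have hBn : B ≤ n + 1 := by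
    apply Nat.find_min'
    calc n < n + 1 := Nat.lt_succ_self n
      _ = (n + 1) ^ 1 := (pow_one _).symm
      _ ≤ (n + 1) ^ c := Nat.pow_le_pow_right (by omega) hc
  have hspec : n < B ^ c := Nat.find_spec (bn_exists n c hc)
  have h : (Finset.range (n + 1)).filter (fun b => b ^ c ≤ n) = Finset.range B := by
    ext b
    rw [Finset.mem_filter, Finset.mem_range, Finset.mem_range]
    constructor
    · rintro ⟨-, h⟩
      by_contra h2
      have := Nat.pow_le_pow_left (not_lt.1 h2) c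
      omega
    · intro h
      refine ⟨by omega, ?_⟩
      have := Nat.find_min (bn_exists n c hc) h
      omega
  rw [h, Finset.card_range]

lemma bn_two (a : ℕ) (ha : 1 ≤ a) : 2 * a ^ (a + 1) ≤ (a + 1) ^ (a + 1) := by
  have ha' : (0 : ℝ) < a := by exact_mod_cast ha
  have h := one_add_mul_le_pow (a := (1 : ℝ) / a) (by
    have : (0 : ℝ) ≤ 1 / a := by positivity
    linarith) (a + 1)
  have h2 : (2 : ℝ) ≤ 1 + ((a + 1 : ℕ) : ℝ) * (1 / a) := by
    push_cast
    have : ((a : ℝ) + 1) * (1 / a) = 1 + 1 / a := by field_simp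
    rw [this]
    have : (0 : ℝ) ≤ 1 / a := by positivity
    linarith
  have h3 : (1 + (1 : ℝ) / a) ^ (a + 1) = ((a : ℝ) + 1) ^ (a + 1) / a ^ (a + 1) := by
    rw [← div_pow]
    congr 1
    field_simp
  rw [h3] at h
  have h4 := h2.trans h
  rw [le_div_iff₀ (by positivity)] at h4
  exact_mod_cast h4

lemma bn_size (n : ℕ) : 2 ^ Nat.size (n + 1) ≤ 2 * (n + 1) := by
  have h1 : 0 < Nat.size (n + 1) := Nat.size_pos.2 (Nat.succ_pos n)
  have h2 : 2 ^ (Nat.size (n + 1) - 1) ≤ n + 1 := Nat.lt_size.1 (by omega)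
  calc 2 ^ Nat.size (n + 1) = 2 * 2 ^ (Nat.size (n + 1) - 1) := by
        rw [← pow_succ']
        congr 1
        omega
    _ ≤ 2 * (n + 1) := Nat.mul_le_mul_left 2 h2

lemma bn_ypow (y c : ℕ) : y ^ c ≤ c.factorial * 2 ^ (y + c) := by
  calc y ^ c ≤ (y + 1) ^ c := Nat.pow_le_pow_left (Nat.le_succ y) c
    _ ≤ (y + 1).ascFactorial c := Nat.pow_succ_le_ascFactorial (y + 1) c
    _ = c.factorial * (y + c).choose c := Nat.ascFactorial_eq_factorial_mul_choose y c
    _ ≤ c.factorial * 2 ^ (y + c) := Nat.mul_le_mul_left _ (Nat.choose_le_two_pow _ _)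

theorem bB_pos (n c : ℕ) (hc : 1 ≤ c) : 1 ≤ bB n c := by
  rw [bn_bB_eq n c hc]
  by_contra h
  have h0 : Nat.find (bn_exists n c hc) = 0 := by omega
  have := Nat.find_spec (bn_exists n c hc)
  rw [h0, zero_pow (by omega)] at this
  omega

theorem lt_bB_pow (n c : ℕ) (hc : 1 ≤ c) : n < bB n c ^ c := by
  rw [bn_bB_eq n c hc]
  exact Nat.find_spec (bn_exists n c hc)

theorem bB_sub_pow_le (n c : ℕ) (hc : 1 ≤ c) : (bB n c - 1) ^ c ≤ n := by
  have h1 := bB_pos n c hc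
  rw [bn_bB_eq n c hc] at h1 ⊢
  have := Nat.find_min (bn_exists n c hc) (m := Nat.find (bn_exists n c hc) - 1) (by omega)
  omega

theorem bq_pow_le (n c k : ℕ) (hc : 1 ≤ c) : bq n c k ^ c ≤ bK c k * (n + 1) ^ 2 := by
  have hB1 := bB_pos n c hc
  have hB2 := bB_sub_pow_le n c hc
  set B := bB n c with hB
  set y := Nat.size (n + 1) with hy
  have hy1 : 1 ≤ y := Nat.size_pos.2 (Nat.succ_pos n)
  have hBc : B ^ c ≤ 2 ^ c * (n + 1) := by
    rcases Nat.lt_or_ge B 2 with h | h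
    · have : B = 1 := by omega
      rw [this, one_pow]
      have : 0 < 2 ^ c := by positivity
      nlinarith
    · calc B ^ c ≤ (2 * (B - 1)) ^ c := Nat.pow_le_pow_left (by omega) c
        _ = 2 ^ c * (B - 1) ^ c := mul_pow _ _ _
        _ ≤ 2 ^ c * (n + 1) := Nat.mul_le_mul_left _ (by omega)
  have hz : bz n c k ≤ ((c + 1) * k + 1) * y := by
    unfold bz
    rw [← hy, Nat.add_mul ((c + 1) * k) 1 y, one_mul]
    exact Nat.add_le_add_left hy1 _
  have hzc : bz n c k ^ c ≤ ((c + 1) * k + 1) ^ c * (c.factorial * (2 * (n + 1) * 2 ^ c)) := by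
    calc bz n c k ^ c ≤ (((c + 1) * k + 1) * y) ^ c := Nat.pow_le_pow_left hz c
      _ = ((c + 1) * k + 1) ^ c * y ^ c := mul_pow _ _ _
      _ ≤ ((c + 1) * k + 1) ^ c * (c.factorial * 2 ^ (y + c)) :=
          Nat.mul_le_mul_left _ (bn_ypow y c)
      _ = ((c + 1) * k + 1) ^ c * (c.factorial * (2 ^ y * 2 ^ c)) := by rw [pow_add]
      _ ≤ _ := by
          apply Nat.mul_le_mul_left
          apply Nat.mul_le_mul_left
          exact Nat.mul_le_mul_right _ (bn_size n)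
  calc bq n c k ^ c = 2 ^ c * B ^ c * bz n c k ^ c := by
        unfold bq
        rw [mul_pow, mul_pow]
    _ ≤ 2 ^ c * (2 ^ c * (n + 1)) *
        (((c + 1) * k + 1) ^ c * (c.factorial * (2 * (n + 1) * 2 ^ c))) :=
        Nat.mul_le_mul (Nat.mul_le_mul_left _ hBc) hzc
    _ = bK c k * (n + 1) ^ 2 := by
        unfold bK
        rw [show 3 * c + 1 = c + c + c + 1 by ring, pow_add, pow_add, pow_add]
        ring

theorem union_le (n c k : ℕ) (hc : 1 ≤ c) :
    2 * (n + 1) ^ ((c + 1) * k) * (2 * bB n c - 1) ^ bq n c k ≤ (2 * bB n c) ^ bq n c k := by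
  have hB1 := bB_pos n c hc
  set B := bB n c with hB
  set y := Nat.size (n + 1) with hy
  obtain ⟨a, ha⟩ : ∃ a, 2 * B = a + 1 := ⟨2 * B - 1, by omega⟩
  have ha1 : 1 ≤ a := by omega
  have hbq : bq n c k = (a + 1) * bz n c k := by
    unfold bq
    rw [← hB, ha]
  have e1 : 2 * B - 1 = a := by omega
  rw [e1, hbq, ha]
  have hy2 : n + 1 ≤ 2 ^ y := (Nat.lt_size_self (n + 1)).le
  have h2 : 2 * (n + 1) ^ ((c + 1) * k) ≤ 2 ^ bz n c k := by
    calc 2 * (n + 1) ^ ((c + 1) * k) ≤ 2 * (2 ^ y) ^ ((c + 1) * k) :=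
          Nat.mul_le_mul_left _ (Nat.pow_le_pow_left hy2 _)
      _ = 2 ^ bz n c k := by
          unfold bz
          rw [← hy, pow_succ, ← pow_mul, mul_comm y, mul_comm 2]
  calc 2 * (n + 1) ^ ((c + 1) * k) * a ^ ((a + 1) * bz n c k) ≤
      2 ^ bz n c k * a ^ ((a + 1) * bz n c k) := Nat.mul_le_mul_right _ h2
    _ = (2 * a ^ (a + 1)) ^ bz n c k := by rw [mul_pow, pow_mul]
    _ ≤ ((a + 1) ^ (a + 1)) ^ bz n c k := Nat.pow_le_pow_left (bn_two a ha1) _
    _ = (a + 1) ^ ((a + 1) * bz n c k) := by rw [pow_mul]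

theorem bK_computable {g : ℕ → ℕ} (hg : Computable g) : Computable (fun k => bK (g k) k) := by
  have hpow : Computable₂ (fun a b : ℕ => a ^ b) :=
    (Primrec₂.unpaired'.1 Nat.Primrec.pow).to_comp
  have hmul : Computable₂ (fun a b : ℕ => a * b) := Primrec.nat_mul.to_comp
  have hadd : Computable₂ (fun a b : ℕ => a + b) := Primrec.nat_add.to_comp
  have hfac : Computable (fun c : ℕ => c.factorial) := by
    have h1 : Primrec (fun c : ℕ => (Nat.rec 1 (fun n x => (n + 1) * x) c : ℕ)) := by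
      refine Primrec.nat_rec₁ (f := fun n x => (n + 1) * x) 1 ?_
      exact Primrec.nat_mul.comp (Primrec.succ.comp Primrec.fst) Primrec.snd
    refine (h1.of_eq fun c => ?_).to_comp
    induction c with
    | zero => rfl
    | succ c ih => rw [Nat.factorial_succ, ← ih]
  unfold bK
  have h1 : Computable fun k => 2 ^ (3 * g k + 1) :=
    hpow.comp (Computable.const 2) (hadd.comp (hmul.comp (Computable.const 3) hg)
      (Computable.const 1))
  have h2 : Computable fun k => ((g k + 1) * k + 1) ^ g k :=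
    hpow.comp (hadd.comp (hmul.comp (hadd.comp hg (Computable.const 1)) Computable.id)
      (Computable.const 1)) hg
  exact hmul.comp (hmul.comp h1 h2) (hfac.comp hg)

end Pool.Agent.H78DS
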