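import Mathlib

/-! # MP_91b64b_lc: universe reduction for set cover and locality of gap reductions

An instance of Set Cover is a matrix `A : ι → κ → Prop` (row `i` is a set, column `x` an element). -/

set_option autoImplicit false

namespace Pool.Agent.H78DS

open Finset

/-- the sets in `S` cover all elements -/
def Cov {ι κ : Type*} (A : ι → κ → Prop) (S : Finset ι) : Prop := ∀ x, ∃ i ∈ S, A i x

/-- there is a cover by at most `k` sets -/
def HasCov {ι κ : Type*} (A : ι → κ → Prop) (k : ℕ) : Prop := ∃ S : Finset ι, S.card ≤ k ∧ Cov A S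

/-- A small set which meets all the sets of a family of size at most `t` which contain at least the fraction `1 / B` of
the finite set `V`. -/
theorem exists_net {τ κ : Type*} [DecidableEq κ] (F : Finset τ) (W : τ → Finset κ) (V : Finset κ) (B : ℕ)
    (hB : 1 ≤ B) (hW : ∀ T ∈ F, W T ⊆ V) (hV : V.Nonempty) (q : ℕ)
    (hq : (B - 1) ^ q * F.card < B ^ q) :
    ∃ U : Finset κ, U ⊆ V ∧ U.card ≤ q ∧ ∀ T ∈ F, V.card ≤ B * (W T).card → ∃ x ∈ U, x ∈ W T := by
  classical
  -- `H U` = heavy sets which are not met by `U`
  let H : Finset κ → Finset τ := fun U =>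
    F.filter (fun T => V.card ≤ B * (W T).card ∧ ∀ x ∈ U, x ∉ W T)
  have step : ∀ U : Finset κ, U ⊆ V → ∃ u ∈ V, B * (H (insert u U)).card ≤ (B - 1) * (H U).card := by
    intro U hU
    have hsum : ∑ u ∈ V, ((H U).filter (fun T => u ∈ W T)).card = ∑ T ∈ H U, (W T).card := by
      simp only [Finset.card_filter]
      rw [Finset.sum_comm]
      apply Finset.sum_congr rfl
      intro T hT
      have hTF : T ∈ F := (Finset.mem_filter.1 hT).1
      rw [← Finset.card_filter]
      congr 1
      ext x
      simp only [Finset.mem_filter]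
      exact ⟨fun h => h.2, fun h => ⟨hW T hTF h, h⟩⟩
    have h1 : (H U).card * V.card ≤ B * ∑ u ∈ V, ((H U).filter (fun T => u ∈ W T)).card := by
      rw [hsum, Finset.mul_sum, ← smul_eq_mul, ← Finset.sum_const]
      apply Finset.sum_le_sum
      intro T hT
      exact (Finset.mem_filter.1 hT).2.1
    have h2 : ∃ u ∈ V, (H U).card ≤ B * ((H U).filter (fun T => u ∈ W T)).card := by
      by_contra hcon
      push Not at hcon
      have h3 : ∑ u ∈ V, B * ((H U).filter (fun T => u ∈ W T)).card < ∑ u ∈ V, (H U).card :=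
        Finset.sum_lt_sum_of_nonempty hV hcon
      rw [← Finset.mul_sum, Finset.sum_const, smul_eq_mul, mul_comm V.card] at h3
      omega
    obtain ⟨u, huV, hu⟩ := h2
    refine ⟨u, huV, ?_⟩
    have h4 : (H (insert u U)).card + ((H U).filter (fun T => u ∈ W T)).card ≤ (H U).card := by
      rw [← Finset.card_union_of_disjoint]
      · apply Finset.card_le_card
        intro T hT
        rcases Finset.mem_union.1 hT with h | h
        · have h' := Finset.mem_filter.1 h
          exact Finset.mem_filter.2 ⟨h'.1, h'.2.1, fun x hx => h'.2.2 x (Finset.mem_insert_of_mem hx)⟩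
        · exact (Finset.mem_filter.1 h).1
      · rw [Finset.disjoint_left]
        intro T h h'
        exact (Finset.mem_filter.1 h).2.2 u (Finset.mem_insert_self u U) (Finset.mem_filter.1 h').2
    obtain ⟨b, rfl⟩ : ∃ b, B = b + 1 := ⟨B - 1, by omega⟩
    simp only [Nat.add_sub_cancel]
    nlinarith
  have iter : ∀ j : ℕ, ∃ U : Finset κ, U ⊆ V ∧ U.card ≤ j ∧
      B ^ j * (H U).card ≤ (B - 1) ^ j * F.card := by
    intro j
    induction j with
    | zero =>
      refine ⟨∅, by simp, by simp, ?_⟩
      simp only [pow_zero, one_mul]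
      exact Finset.card_le_card (Finset.filter_subset _ _)
    | succ j ih =>
      obtain ⟨U, h1, h2, h3⟩ := ih
      obtain ⟨u, huV, hu⟩ := step U h1
      refine ⟨insert u U, Finset.insert_subset huV h1, (Finset.card_insert_le u U).trans (by omega), ?_⟩
      calc B ^ (j + 1) * (H (insert u U)).card = B ^ j * (B * (H (insert u U)).card) := by ring
        _ ≤ B ^ j * ((B - 1) * (H U).card) := Nat.mul_le_mul_left _ hu
        _ = (B - 1) * (B ^ j * (H U).card) := by ring
        _ ≤ (B - 1) * ((B - 1) ^ j * F.card) := Nat.mul_le_mul_left _ h3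
        _ = (B - 1) ^ (j + 1) * F.card := by ring
  obtain ⟨U, h1, h2, h3⟩ := iter q
  refine ⟨U, h1, h2, fun T hT hheavy => ?_⟩
  by_contra hcon
  push Not at hcon
  have h4 : T ∈ H U := Finset.mem_filter.2 ⟨hT, hheavy, hcon⟩
  have h5 : 1 ≤ (H U).card := Finset.card_pos.2 ⟨T, h4⟩
  have h6 : B ^ q * 1 ≤ B ^ q * (H U).card := Nat.mul_le_mul_left _ h5
  omega

/-- number of the sets with at most `k` elements -/
theorem card_small_le (ι : Type*) [Fintype ι] [DecidableEq ι] (k : ℕ) :
    ((Finset.univ : Finset (Finset ι)).filter (fun S => S.card ≤ k)).card ≤ (Fintype.card ι + 1) ^ k := by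
  classical
  have h : ((Finset.univ : Finset (Finset ι)).filter (fun S => S.card ≤ k)) ⊆
      (Finset.univ : Finset (Fin k → Option ι)).image
        (fun g => (Finset.univ.image g).eraseNone) := by
    intro S hS
    have hS' : S.card ≤ k := (Finset.mem_filter.1 hS).2
    rw [Finset.mem_image]
    obtain ⟨e⟩ : Nonempty (S ↪ Fin k) := by
      apply Function.Embedding.nonempty_of_card_le
      simpa using hS'
    refine ⟨fun j => if h : ∃ s : S, e s = j then some (h.choose : ι) else none, Finset.mem_univ _, ?_⟩
    ext x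
    rw [Finset.mem_eraseNone, Finset.mem_image]
    constructor
    · rintro ⟨j, -, hj⟩
      by_cases h : ∃ s : S, e s = j
      · rw [dif_pos h] at hj
        have := Option.some.inj hj
        rw [← this]
        exact h.choose.2
      · rw [dif_neg h] at hj
        cases hj
    · intro hx
      refine ⟨e ⟨x, hx⟩, Finset.mem_univ _, ?_⟩
      have h : ∃ s : S, e s = e ⟨x, hx⟩ := ⟨_, rfl⟩
      rw [dif_pos h]
      congr 1
      have := e.injective h.choose_spec
      rw [this]
  calc _ ≤ _ := Finset.card_le_card h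
    _ ≤ _ := Finset.card_image_le
    _ = (Fintype.card ι + 1) ^ k := by simp

/-- UNIVERSE REDUCTION. If all subsets of the universe with at most `q` elements are covered by `k` sets, then the whole
universe is covered by `c * k` sets. -/
theorem universe_reduction {ι κ : Type*} [Fintype ι] [Fintype κ] (A : ι → κ → Prop)
    (k c B q : ℕ) (hM : Fintype.card κ < B ^ c)
    (hq : (B - 1) ^ q * (Fintype.card ι + 1) ^ k < B ^ q)
    (hloc : ∀ U : Finset κ, U.card ≤ q → ∃ S : Finset ι, S.card ≤ k ∧ ∀ x ∈ U, ∃ i ∈ S, A i x) :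
    HasCov A (c * k) := by
  classical
  rcases Nat.eq_zero_or_pos c with rfl | hc
  · refine ⟨∅, by simp, fun x => ?_⟩
    exfalso
    rw [pow_zero] at hM
    have : Fintype.card κ = 0 := by omega
    rw [Fintype.card_eq_zero_iff] at this
    exact this.false x
  have hB : 1 ≤ B := by
    rcases Nat.eq_zero_or_pos B with rfl | h
    · rw [zero_pow (by omega)] at hM; omega
    · exact h
  let unc : Finset ι → Finset κ := fun X => Finset.univ.filter (fun x => ∀ i ∈ X, ¬ A i x)
  have iter : ∀ i : ℕ, ∃ X : Finset ι, X.card ≤ i * k ∧ (unc X).card * B ^ i ≤ Fintype.card κ := by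
    intro i
    induction i with
    | zero =>
      exact ⟨∅, by simp, by simpa using Finset.card_le_univ _⟩
    | succ i ih =>
      obtain ⟨X, h1, h2⟩ := ih
      rcases (unc X).eq_empty_or_nonempty with hV | hV
      · exact ⟨X, h1.trans (Nat.mul_le_mul_right _ (by omega)), by rw [hV]; simp⟩
      have hcard := card_small_le ι k
      obtain ⟨U, hU1, hU2, hU3⟩ := exists_net
        ((Finset.univ : Finset (Finset ι)).filter (fun S => S.card ≤ k))
        (fun S => (unc X).filter (fun x => ∀ i ∈ S, ¬ A i x)) (unc X) B hB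
        (fun T _ => Finset.filter_subset _ _) hV q
        ((Nat.mul_le_mul_left _ hcard).trans_lt hq)
      obtain ⟨S, hS1, hS2⟩ := hloc U hU2
      refine ⟨X ∪ S, (Finset.card_union_le X S).trans (by rw [add_mul, one_mul]; omega), ?_⟩
      have h3 : ¬ (unc X).card ≤ B * ((unc X).filter (fun x => ∀ i ∈ S, ¬ A i x)).card := by
        intro h
        obtain ⟨x, hxU, hx⟩ := hU3 S (Finset.mem_filter.2 ⟨Finset.mem_univ _, hS1⟩) h
        obtain ⟨i, hi, hA⟩ := hS2 x hxU
        exact (Finset.mem_filter.1 hx).2 i hi hA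
      have h4 : unc (X ∪ S) = (unc X).filter (fun x => ∀ i ∈ S, ¬ A i x) := by
        ext x
        simp only [unc, Finset.mem_filter, Finset.mem_univ, true_and, Finset.mem_union]
        constructor
        · intro h
          exact ⟨fun i hi => h i (Or.inl hi), fun i hi => h i (Or.inr hi)⟩
        · rintro ⟨h, h'⟩ i (hi | hi)
          · exact h i hi
          · exact h' i hi
      rw [h4, pow_succ]
      calc ((unc X).filter (fun x => ∀ i ∈ S, ¬ A i x)).card * (B ^ i * B)
          = (B * ((unc X).filter (fun x => ∀ i ∈ S, ¬ A i x)).card) * B ^ i := by ring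
        _ ≤ (unc X).card * B ^ i := Nat.mul_le_mul_right _ (by omega)
        _ ≤ _ := h2
  obtain ⟨X, h1, h2⟩ := iter c
  refine ⟨X, h1, fun x => ?_⟩
  have h3 : (unc X).card = 0 := by
    by_contra h
    have : 1 * B ^ c ≤ (unc X).card * B ^ c := Nat.mul_le_mul_right _ (by omega)
    omega
  rw [Finset.card_eq_zero] at h3
  by_contra hcon
  push Not at hcon
  have : x ∈ unc X := Finset.mem_filter.2 ⟨Finset.mem_univ _, hcon⟩
  rw [h3] at this
  simp at this

end Pool.Agent.H78DS
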