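import Pool.Agent.H78DS.TapeA
import Pool.Agent.H78DS.BoostNum
import Pool.Agent.H78DS.Net

/-! # H78DS/BoostTape: at least half of the tapes are good

PROOF. If a tape `r` is not good there are lists `X`, `T` with `X.length ≤ c k`, `T.length ≤ k`, `V = uncL I X ≠ []`, all samples dominated by
`T`, and `V.length ≤ B * (uncL I (X ++ T)).length`. The list `uncL I X` depends only on the set of the elements of `X` below `n`
(for `x < n`, `adjV I v x` is false for `v ≥ n`), a subset of `{0, …, n - 1}` with at most `c k` elements; the same for `T` and the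
condition on the samples (which are elements of `V`, so `< n`). By `card_small_le` (H78DS/Net, for `Fin n`) there are at most
`(n + 1) ^ (c k) * (n + 1) ^ k` pairs of such subsets, and for each pair `tape_avoid` with `P x = (T.all (fun v => !adjV I v x))`
(`V.countP P = (uncL I (X ++ T)).length`, `V.length ≤ n < 2 ^ size n`) bounds the number of tapes. So
`(2B) ^ q * #bad ≤ (n + 1) ^ ((c + 1) k) * (2B - 1) ^ q * 2 ^ (q w)`, and with `union_le` `2 * #bad ≤ 2 ^ (q w)`; the number of all tapes is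
`2 ^ (q w)`. -/

set_option autoImplicit false

namespace Pool.Agent.H78DS

/-- no element of `T` dominates `x` -/
def undom (I : GI) (T : List ℕ) (x : ℕ) : Bool := T.all (fun v => !adjV I v x)

theorem undom_false (I : GI) (T : List ℕ) (x : ℕ) :
    undom I T x = false ↔ ∃ v ∈ T, adjV I v x = true := by
  unfold undom
  rw [List.all_eq_false]
  simp

theorem undom_congr (I : GI) (X X' : List ℕ) (h : ∀ v < I.1, v ∈ X ↔ v ∈ X') (x : ℕ) (hx : x < I.1) :
    undom I X x = undom I X' x := by
  have key : ∀ v, adjV I v x = true → v < I.1 := by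
    intro v hv
    unfold adjV at hv
    simp only [Bool.or_eq_true, Bool.and_eq_true, decide_eq_true_eq] at hv
    rcases hv with hv | hv
    · omega
    · exact hv.1.2
  have h2 : undom I X x = false ↔ undom I X' x = false := by
    rw [undom_false, undom_false]
    constructor
    · rintro ⟨v, hv, hadj⟩
      exact ⟨v, (h v (key v hadj)).1 hv, hadj⟩
    · rintro ⟨v, hv, hadj⟩
      exact ⟨v, (h v (key v hadj)).2 hv, hadj⟩
  cases h3 : undom I X' x
  · exact h2.2 h3
  · cases h4 : undom I X x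
    · rw [h2.1 h4] at h3
      exact h3
    · rfl

theorem uncL_eq (I : GI) (X : List ℕ) : uncL I X = (List.range I.1).filter (undom I X) := rfl

theorem uncL_congr (I : GI) (X X' : List ℕ) (h : ∀ v < I.1, v ∈ X ↔ v ∈ X') :
    uncL I X = uncL I X' := by
  rw [uncL_eq, uncL_eq]
  apply List.filter_congr
  intro x hx
  exact undom_congr I X X' h x (List.mem_range.1 hx)

theorem mem_uncL_lt (I : GI) (X : List ℕ) (x : ℕ) (h : x ∈ uncL I X) : x < I.1 := by
  rw [uncL_eq, List.mem_filter] at h
  exact List.mem_range.1 h.1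

theorem uncL_append (I : GI) (X T : List ℕ) :
    (uncL I (X ++ T)).length = (uncL I X).countP (undom I T) := by
  rw [List.countP_eq_length_filter, uncL_eq, uncL_eq, List.filter_filter]
  congr 1
  apply List.filter_congr
  intro x _
  unfold undom
  rw [List.all_append, Bool.and_comm]

theorem valm_lt' (v : ℕ) (l : List Bool) : valm v l < max v 1 := by
  unfold valm
  rcases List.eq_nil_or_concat l with h | ⟨l', b, h⟩
  · rw [h]
    simp
  · rw [h, List.concat_eq_append, List.foldl_append]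
    simp only [List.foldl_cons, List.foldl_nil]
    apply Nat.mod_lt
    omega

theorem smp_mem' (V : List ℕ) (hV : V ≠ []) (rs : List Bool) (w i : ℕ) : smp V rs w i ∈ V := by
  unfold smp
  have h1 := valm_lt' V.length ((rs.drop (i * w)).take w)
  have h2 : 0 < V.length := List.length_pos_of_ne_nil hV
  rw [List.getD_eq_getElem _ _ (by omega)]
  exact List.getElem_mem _

/-- the bad tapes for the sets `A`, `A'` -/
noncomputable def badS (I : GI) (q w B : ℕ) (A : Finset (Fin I.1) × Finset (Fin I.1)) :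
    Finset (Fin (q * w) → Bool) := by
  classical
  exact Finset.univ.filter (fun r => uncL I (A.1.toList.map (fun v : Fin _ => (v : ℕ))) ≠ [] ∧
    (uncL I (A.1.toList.map (fun v : Fin _ => (v : ℕ)))).length ≤
      B * (uncL I (A.1.toList.map (fun v : Fin _ => (v : ℕ)))).countP
        (undom I (A.2.toList.map (fun v : Fin _ => (v : ℕ)))) ∧
    ∀ i < q, undom I (A.2.toList.map (fun v : Fin _ => (v : ℕ)))
      (smp (uncL I (A.1.toList.map (fun v : Fin _ => (v : ℕ)))) (List.ofFn r) w i) = false)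

theorem badS_card (I : GI) (q B : ℕ) (hB : 1 ≤ B) (A : Finset (Fin I.1) × Finset (Fin I.1)) :
    (2 * B) ^ q * (badS I q (Nat.size I.1) B A).card ≤
      (2 * B - 1) ^ q * 2 ^ (q * Nat.size I.1) := by
  classical
  by_cases h : uncL I (A.1.toList.map (fun v : Fin _ => (v : ℕ))) ≠ [] ∧
    (uncL I (A.1.toList.map (fun v : Fin _ => (v : ℕ)))).length ≤
      B * (uncL I (A.1.toList.map (fun v : Fin _ => (v : ℕ)))).countP
        (undom I (A.2.toList.map (fun v : Fin _ => (v : ℕ))))
  · have hlen : (uncL I (A.1.toList.map (fun v : Fin _ => (v : ℕ)))).length ≤ 2 ^ Nat.size I.1 := by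
      have h1 : (uncL I (A.1.toList.map (fun v : Fin _ => (v : ℕ)))).length ≤ I.1 := by
        rw [uncL_eq]
        refine (List.length_filter_le _ _).trans ?_
        rw [List.length_range]
      exact h1.trans (Nat.lt_size_self I.1).le
    have h2 := tape_avoid _ h.1 (Nat.size I.1) q B hlen hB
      (undom I (A.2.toList.map (fun v : Fin _ => (v : ℕ)))) h.2
    refine le_trans (Nat.mul_le_mul_left _ (Finset.card_le_card ?_)) h2
    intro r hr
    unfold badS at hr
    rw [Finset.mem_filter] at hr ⊢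
    exact ⟨Finset.mem_univ _, hr.2.2.2⟩
  · have h0 : badS I q (Nat.size I.1) B A = ∅ := by
      unfold badS
      rw [Finset.filter_eq_empty_iff]
      rintro r _ ⟨h1, h2, _⟩
      exact h ⟨h1, h2⟩
    rw [h0]
    simp

open Classical in
/-- the elements of a list below `n` -/
noncomputable def setOfL (n : ℕ) (X : List ℕ) : Finset (Fin n) :=
  Finset.univ.filter (fun v => (v : ℕ) ∈ X)

theorem setOfL_card (n : ℕ) (X : List ℕ) : (setOfL n X).card ≤ X.length := by
  classical
  have h1 : (setOfL n X).card = ((setOfL n X).image (fun v : Fin n => (v : ℕ))).card :=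
    (Finset.card_image_of_injective _ Fin.val_injective).symm
  rw [h1]
  refine le_trans (Finset.card_le_card ?_) (List.toFinset_card_le X)
  intro x hx
  rw [Finset.mem_image] at hx
  obtain ⟨v, hv, rfl⟩ := hx
  unfold setOfL at hv
  rw [Finset.mem_filter] at hv
  rw [List.mem_toFinset]
  exact hv.2

theorem mem_setOfL (n : ℕ) (X : List ℕ) (v : ℕ) (hv : v < n) :
    v ∈ X ↔ v ∈ (setOfL n X).toList.map (fun v : Fin _ => (v : ℕ)) := by
  classical
  rw [List.mem_map]
  constructor
  · intro h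
    refine ⟨⟨v, hv⟩, ?_, rfl⟩
    rw [Finset.mem_toList]
    exact Finset.mem_filter.2 ⟨Finset.mem_univ _, h⟩
  · rintro ⟨u, hu, rfl⟩
    rw [Finset.mem_toList] at hu
    exact (Finset.mem_filter.1 hu).2

theorem bad_mem (I : GI) (c : ℕ)
    (r : Fin (bq I.1 c I.2.2 * Nat.size I.1) → Bool) (hr : ¬ Good I c (List.ofFn r)) :
    ∃ A : Finset (Fin I.1) × Finset (Fin I.1), A.1.card ≤ c * I.2.2 ∧ A.2.card ≤ I.2.2 ∧
      r ∈ badS I (bq I.1 c I.2.2) (Nat.size I.1) (bB I.1 c) A := by
  classical
  unfold Good at hr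
  push Not at hr
  obtain ⟨X, hX, hne, T, hT, hs, hlen⟩ := hr
  refine ⟨(setOfL I.1 X, setOfL I.1 T), (setOfL_card _ _).trans hX, (setOfL_card _ _).trans hT, ?_⟩
  have e1 : uncL I ((setOfL I.1 X).toList.map (fun v : Fin _ => (v : ℕ))) = uncL I X :=
    (uncL_congr I _ _ (mem_setOfL I.1 X)).symm
  have e2 : ∀ x < I.1, undom I ((setOfL I.1 T).toList.map (fun v : Fin _ => (v : ℕ))) x = undom I T x :=
    fun x hx => (undom_congr I _ _ (mem_setOfL I.1 T) x hx).symm
  unfold badS
  rw [Finset.mem_filter]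
  refine ⟨Finset.mem_univ _, ?_⟩
  dsimp only
  rw [e1]
  refine ⟨hne, ?_, ?_⟩
  · rw [uncL_append] at hlen
    have e3 : (uncL I X).countP (undom I ((setOfL I.1 T).toList.map (fun v : Fin _ => (v : ℕ)))) =
        (uncL I X).countP (undom I T) := by
      apply List.countP_congr
      intro x hx
      rw [e2 x (mem_uncL_lt I X x hx)]
    rw [e3]
    exact hlen
  · intro i hi
    rw [e2 _ (mem_uncL_lt I X _ (smp_mem' _ hne _ _ _)), undom_false]
    exact hs i hi

theorem good_card (I : GI) (c : ℕ) (hc : 1 ≤ c) :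
    2 ^ (bq I.1 c I.2.2 * Nat.size I.1) ≤ 2 * Nat.card
      {r : Fin (bq I.1 c I.2.2 * Nat.size I.1) → Bool // Good I c (List.ofFn r)} := by
  classical
  obtain ⟨q, hq⟩ : ∃ q, q = bq I.1 c I.2.2 := ⟨_, rfl⟩
  obtain ⟨B, hB⟩ : ∃ B, B = bB I.1 c := ⟨_, rfl⟩
  have hB1 : 1 ≤ B := by
    rw [hB]
    exact bB_pos _ _ hc
  have hbad := bad_mem I c
  have hun := union_le I.1 c I.2.2 hc
  rw [← hq, ← hB] at hun
  rw [← hq, ← hB] at hbad
  rw [← hq]
  have hcard : Nat.card {r : Fin (q * Nat.size I.1) → Bool // Good I c (List.ofFn r)} =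
      (Finset.univ.filter (fun r : Fin (q * Nat.size I.1) → Bool => Good I c (List.ofFn r))).card := by
    rw [Nat.card_eq_fintype_card, Fintype.card_subtype]
  rw [hcard]
  have hsum := Finset.card_filter_add_card_filter_not (s := (Finset.univ : Finset (Fin (q * Nat.size I.1) → Bool)))
    (fun r => Good I c (List.ofFn r))
  have htot : (Finset.univ : Finset (Fin (q * Nat.size I.1) → Bool)).card = 2 ^ (q * Nat.size I.1) := by
    rw [Finset.card_univ, Fintype.card_fun, Fintype.card_bool, Fintype.card_fin]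
  rw [htot] at hsum
  obtain ⟨NB, hNB⟩ : ∃ NB, NB = (Finset.univ.filter (fun r : Fin (q * Nat.size I.1) → Bool =>
    ¬ Good I c (List.ofFn r))).card := ⟨_, rfl⟩
  rw [← hNB] at hsum
  -- the pairs
  let PP : Finset (Finset (Fin I.1) × Finset (Fin I.1)) :=
    ((Finset.univ : Finset (Finset (Fin I.1))).filter (fun S => S.card ≤ c * I.2.2)) ×ˢ
      ((Finset.univ : Finset (Finset (Fin I.1))).filter (fun S => S.card ≤ I.2.2))
  have hPP : PP.card ≤ (I.1 + 1) ^ ((c + 1) * I.2.2) := by
    show (((Finset.univ : Finset (Finset (Fin I.1))).filter (fun S => S.card ≤ c * I.2.2)) ×ˢ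
      ((Finset.univ : Finset (Finset (Fin I.1))).filter (fun S => S.card ≤ I.2.2))).card ≤ _
    rw [Finset.card_product]
    have h1 := card_small_le (Fin I.1) (c * I.2.2)
    have h2 := card_small_le (Fin I.1) I.2.2
    rw [Fintype.card_fin] at h1 h2
    refine (Nat.mul_le_mul h1 h2).trans (le_of_eq ?_)
    rw [← pow_add]
    congr 1
    ring
  have hsub : (Finset.univ.filter (fun r : Fin (q * Nat.size I.1) → Bool =>
      ¬ Good I c (List.ofFn r))) ⊆ PP.biUnion (badS I q (Nat.size I.1) B) := by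
    intro r hr
    obtain ⟨A, hA1, hA2, hA⟩ := hbad r (Finset.mem_filter.1 hr).2
    rw [Finset.mem_biUnion]
    refine ⟨A, ?_, hA⟩
    exact Finset.mem_product.2 ⟨Finset.mem_filter.2 ⟨Finset.mem_univ _, hA1⟩,
      Finset.mem_filter.2 ⟨Finset.mem_univ _, hA2⟩⟩
  have hNBle : (2 * B) ^ q * NB ≤
      (I.1 + 1) ^ ((c + 1) * I.2.2) * ((2 * B - 1) ^ q * 2 ^ (q * Nat.size I.1)) := by
    rw [hNB]
    calc (2 * B) ^ q * (Finset.univ.filter (fun r : Fin (q * Nat.size I.1) → Bool =>
          ¬ Good I c (List.ofFn r))).card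
        ≤ (2 * B) ^ q * ∑ A ∈ PP, (badS I q (Nat.size I.1) B A).card :=
          Nat.mul_le_mul_left _ ((Finset.card_le_card hsub).trans Finset.card_biUnion_le)
      _ = ∑ A ∈ PP, (2 * B) ^ q * (badS I q (Nat.size I.1) B A).card := by rw [Finset.mul_sum]
      _ ≤ ∑ _A ∈ PP, (2 * B - 1) ^ q * 2 ^ (q * Nat.size I.1) :=
          Finset.sum_le_sum fun A _ => badS_card I q B hB1 A
      _ = PP.card * ((2 * B - 1) ^ q * 2 ^ (q * Nat.size I.1)) := by
          rw [Finset.sum_const, smul_eq_mul]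
      _ ≤ _ := Nat.mul_le_mul_right _ hPP
  have hfin : (2 * B) ^ q * (2 * NB) ≤ (2 * B) ^ q * 2 ^ (q * Nat.size I.1) := by
    calc (2 * B) ^ q * (2 * NB) = 2 * ((2 * B) ^ q * NB) := by ring
      _ ≤ 2 * ((I.1 + 1) ^ ((c + 1) * I.2.2) * ((2 * B - 1) ^ q * 2 ^ (q * Nat.size I.1))) :=
          Nat.mul_le_mul_left _ hNBle
      _ = 2 * (I.1 + 1) ^ ((c + 1) * I.2.2) * (2 * B - 1) ^ q * 2 ^ (q * Nat.size I.1) := by ring
      _ ≤ _ := Nat.mul_le_mul_right _ hun
  have hpos : 0 < (2 * B) ^ q := by positivity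
  have h2NB : 2 * NB ≤ 2 ^ (q * Nat.size I.1) := Nat.le_of_mul_le_mul_left hfin hpos
  omega

end Pool.Agent.H78DS
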