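import Pool.Agent.H78DS.BoostPT
import Pool.Agent.H78DS.BoostTape
import Pool.Agent.H78DS.BoostRound

/-! # H78DS/BoostMain: GapDS_g reduces to SC_g

PROOF of `boost`. `h k = [g k, bK (g k) k]` (computable by `bK_computable`), `G = id`, `R = bR`, `N = bN`, `next = bnext`.
Let `I` be an instance, `n = I.1`, `k = I.2.2`, `c = g k ≥ 1`, `K = bK c k`. PROMISE: a query is `query I V rs as c K`, its universe has
`q = bq n c k` elements, parameter `k`, and `bL n c k K ≥ cp q c (K (n + 1) ^ 2) = q ^ c` sets (`bq_pow_le`, `cp_eq_pow`; the length of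
`map` over `range`); so it is a yes- or a no-instance of `SC g`.
ACCEPTANCE IS SOUND (`bnext_sound`): if the result is `true` then for `X = chosen …`, `uncL I X = []` and `X.length ≤ c k`, so the vertices of `X`
below `n` dominate and `gam I ≤ c k = g k * k`; such an `I` is not a no-instance of `GapDS`. (Induction on the number of steps: `runO … = true`
implies that `next as' = inr true` for some `as'`.)
COMPLETENESS (`bnext_complete`): let `gam I ≤ k`, `D` a dominating set with at most `k` elements, `O` an oracle which solves `SC g` and `Good I c rs`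
for the tape `rs = List.ofFn r`. By induction on `c - i`: if `as.length = i n`, `i ≤ c`, `X = chosen n as i`, `X.length ≤ i k` and
`(uncL I X).length * B ^ i ≤ n`, and at least `(c - i) n + 1` steps are left, then the run from `as` gives `true`. If `V = uncL I X = []`: the result is
`true` (`X.length ≤ i k ≤ c k`). If `V ≠ []` then `i < c` (`n < B ^ c`, `lt_bB_pow`), `n ≥ 1`, and the next `n` steps are the queries
`query I V rs (as ++ bs.take j) c K`, `j < n` (`chosen n (as ++ bs') i = chosen n as i`, `(i n + j) / n = i`), where `bs` is the list of the answers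
(define it by recursion); `hO` holds as the queries satisfy the promise. `round_correct` with `hcov` from `D` (all elements of `V` are `< n`,
hence dominated by `D`) gives `T`; `Good` gives `B * (uncL I (X ++ T)).length < V.length`, so the invariant holds for `i + 1`.
So all good tapes are accepted: `good_card` (`Nat.card` of a subtype = card of the filter). -/

set_option autoImplicit false

namespace Pool.Agent.H78DS

private theorem bm_adjV_iff (I : GI) (v x : ℕ) : adjV I v x = true ↔
    x = v ∨ (x < I.1 ∧ v < I.1 ∧ ((v, x) ∈ I.2.1 ∨ (x, v) ∈ I.2.1)) := by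
  unfold adjV
  simp only [Bool.or_eq_true, Bool.and_eq_true, decide_eq_true_eq, and_assoc]

private theorem bm_valm_lt (v : ℕ) (l : List Bool) : valm v l < max v 1 := by
  have key : ∀ (l : List Bool) (x : ℕ), x < max v 1 →
      l.foldl (fun x b => (2 * x + if b then 1 else 0) % max v 1) x < max v 1 := by
    intro l
    induction l with
    | nil => intro x hx; exact hx
    | cons b l ih =>
      intro x _
      rw [List.foldl_cons]
      exact ih _ (Nat.mod_lt _ (by omega))
  exact key l 0 (by omega)

private theorem bm_smp_mem (V : List ℕ) (hV : V ≠ []) (rs : List Bool) (w s : ℕ) :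
    smp V rs w s ∈ V := by
  have hpos : 0 < V.length := List.length_pos_iff.2 hV
  have h := bm_valm_lt V.length ((rs.drop (s * w)).take w)
  have h' : valm V.length ((rs.drop (s * w)).take w) < V.length := by omega
  unfold smp
  rw [List.getD_eq_getElem _ _ h']
  exact List.getElem_mem h'

/-- the queries satisfy the promise -/
private theorem bm_promise (g : ℕ → ℕ) (hg1 : ∀ k, 1 ≤ g k) (I : GI) (V : List ℕ)
    (rs as : List Bool) :
    (query I V rs as (g I.2.2) (bK (g I.2.2) I.2.2)).2.1 ^
      g (query I V rs as (g I.2.2) (bK (g I.2.2) I.2.2)).2.2 ≤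
        (query I V rs as (g I.2.2) (bK (g I.2.2) I.2.2)).1.length := by
  have h1 := bq_pow_le I.1 (g I.2.2) I.2.2 (hg1 _)
  unfold query
  simp only [List.length_map, List.length_range]
  unfold bL
  rw [cp_eq_pow h1]
  exact le_max_right _ _

/-- a dominating list gives a bound for the domination number -/
private theorem bm_gam_le (I : GI) (X : List ℕ) (h : uncL I X = []) : gam I ≤ X.length := by
  classical
  set D : Finset (Fin I.1) := Finset.univ.filter (fun v : Fin I.1 => (v : ℕ) ∈ X) with hD
  have hdom : IsDom (gr I) D := by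
    intro v
    have h1 : (v : ℕ) ∉ uncL I X := by
      rw [h]
      exact List.not_mem_nil
    unfold uncL at h1
    rw [List.mem_filter, not_and, List.all_eq_true] at h1
    have h2 := h1 (List.mem_range.mpr v.isLt)
    push Not at h2
    obtain ⟨w, hw, hadj⟩ := h2
    have hadj' : adjV I w v = true := by
      simpa using hadj
    rw [bm_adjV_iff] at hadj'
    rcases hadj' with h3 | ⟨_, h4, h5⟩
    · left
      rw [hD, Finset.mem_filter]
      refine ⟨Finset.mem_univ _, ?_⟩
      rw [h3]
      exact hw
    · by_cases hvw : (v : ℕ) = w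
      · left
        rw [hD, Finset.mem_filter]
        refine ⟨Finset.mem_univ _, ?_⟩
        rw [hvw]
        exact hw
      · right
        refine ⟨⟨w, h4⟩, ?_, ?_⟩
        · rw [hD, Finset.mem_filter]
          exact ⟨Finset.mem_univ _, hw⟩
        · unfold gr
          rw [SimpleGraph.fromRel_adj]
          refine ⟨?_, h5⟩
          intro he
          apply hvw
          rw [← he]
  have hcard : D.card ≤ X.length := by
    have h1 : D.card = (D.image (fun v : Fin I.1 => (v : ℕ))).card :=
      (Finset.card_image_of_injective D Fin.val_injective).symm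
    rw [h1]
    refine le_trans (Finset.card_le_card ?_) (List.toFinset_card_le X)
    intro x hx
    obtain ⟨v, hv, rfl⟩ := Finset.mem_image.mp hx
    rw [hD, Finset.mem_filter] at hv
    exact List.mem_toFinset.mpr hv.2
  have h2 : gam I ≤ D.card := Nat.sInf_le ⟨D, hdom, rfl⟩
  omega

private theorem bm_runO {Y : Type} (next : List Bool → Y ⊕ Bool) (O : Y → Bool) :
    ∀ (N : ℕ) (as : List Bool), runO next O N as = true → ∃ as', next as' = Sum.inr true := by
  intro N
  induction N with
  | zero => intro as h; simp [runO] at h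
  | succ N ih =>
    intro as h
    unfold runO at h
    cases hn : next as with
    | inl y =>
      rw [hn] at h
      exact ih _ h
    | inr b =>
      rw [hn] at h
      simp only at h
      exact ⟨as, by rw [hn, h]⟩

private theorem bm_sound (I : GI) (c K : ℕ) (rs as : List Bool)
    (h : bnext ((I, [c, K], rs), as) = Sum.inr true) : gam I ≤ c * I.2.2 := by
  unfold bnext at h
  simp only [List.getD_cons_zero] at h
  split_ifs at h with h1
  rw [Sum.inr.injEq, decide_eq_true_eq] at h
  exact (bm_gam_le I _ h.1).trans h.2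

/-- the answers of a round -/
private def bm_bs {Y : Type} (Q : List Bool → Y) (O : Y → Bool) (as : List Bool) : ℕ → List Bool
  | 0 => []
  | j + 1 => bm_bs Q O as j ++ [O (Q (as ++ bm_bs Q O as j))]

private theorem bm_bs_length {Y : Type} (Q : List Bool → Y) (O : Y → Bool) (as : List Bool)
    (j : ℕ) : (bm_bs Q O as j).length = j := by
  induction j with
  | zero => rfl
  | succ j ih => simp [bm_bs, ih]

private theorem bm_bs_take {Y : Type} (Q : List Bool → Y) (O : Y → Bool) (as : List Bool)
    (m : ℕ) : ∀ j ≤ m, (bm_bs Q O as m).take j = bm_bs Q O as j := by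
  induction m with
  | zero =>
    intro j hj
    obtain rfl : j = 0 := by omega
    rfl
  | succ m ih =>
    intro j hj
    rcases Nat.lt_or_ge m j with h | h
    · obtain rfl : j = m + 1 := by omega
      apply List.take_of_length_le
      rw [bm_bs_length]
    · rw [bm_bs, List.take_append_of_le_length (by rw [bm_bs_length]; exact h), ih j h]

private theorem bm_bs_getD {Y : Type} (Q : List Bool → Y) (O : Y → Bool) (as : List Bool)
    (m j : ℕ) (hj : j < m) : (bm_bs Q O as m).getD j true = O (Q (as ++ bm_bs Q O as j)) := by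
  have h1 : (bm_bs Q O as m).getD j true = ((bm_bs Q O as m).take (j + 1)).getD j true := by
    rw [List.getD_eq_getElem?_getD, List.getD_eq_getElem?_getD,
      List.getElem?_take_of_lt (Nat.lt_succ_self j)]
  rw [h1, bm_bs_take Q O as m (j + 1) hj, bm_bs, List.getD_append_right _ _ _ _ (by
    rw [bm_bs_length]), bm_bs_length, Nat.sub_self]
  rfl

private theorem bm_run_round {Y : Type} (next : List Bool → Y ⊕ Bool) (Q : List Bool → Y)
    (O : Y → Bool) (as : List Bool) (n : ℕ)
    (hq : ∀ j < n, next (as ++ bm_bs Q O as j) = Sum.inl (Q (as ++ bm_bs Q O as j))) :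
    ∀ j ≤ n, ∀ N, runO next O (j + N) as = runO next O N (as ++ bm_bs Q O as j) := by
  intro j
  induction j with
  | zero =>
    intro _ N
    simp [bm_bs]
  | succ j ih =>
    intro hj N
    have h1 : j + 1 + N = j + (N + 1) := by omega
    rw [h1, ih (by omega) (N + 1)]
    conv_lhs => unfold runO
    rw [hq j (by omega)]
    simp only [bm_bs, List.append_assoc]

private theorem bm_chosen_append (n i : ℕ) (as bs : List Bool) (h : as.length = i * n) :
    chosen n (as ++ bs) i = chosen n as i := by
  unfold chosen
  congr 1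
  apply List.filter_congr
  intro p hp
  rw [List.mem_range] at hp
  rw [List.getD_append _ _ _ _ (by omega)]

private theorem bm_next_query (I : GI) (c K i : ℕ) (rs as bs : List Bool) (hn : 1 ≤ I.1)
    (h : as.length = i * I.1) (hb : bs.length < I.1) (hi : i < c)
    (hV : uncL I (chosen I.1 as i) ≠ []) :
    bnext ((I, [c, K], rs), as ++ bs) =
      Sum.inl (query I (uncL I (chosen I.1 as i)) rs (as ++ bs) c K) := by
  have hdiv : (as ++ bs).length / I.1 = i := by
    rw [List.length_append, h, add_comm, Nat.add_mul_div_right _ _ (by omega),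
      Nat.div_eq_of_lt hb, zero_add]
  unfold bnext
  simp only [hdiv, bm_chosen_append I.1 i as bs h, List.getD_cons_zero]
  rw [if_neg]
  · rfl
  · rintro (h1 | h1)
    · exact hV h1
    · omega

private theorem bm_complete (g : ℕ → ℕ) (hg1 : ∀ k, 1 ≤ g k) (I : GI) (hn : 1 ≤ I.1)
    (D : Finset (Fin I.1)) (hD : IsDom (gr I) D) (hDc : D.card ≤ I.2.2) (rs : List Bool)
    (hgood : Good I (g I.2.2) rs) (O : SI → Bool) (hy : ∀ y, (SC g).yes y → O y = true)
    (hno : ∀ y, (SC g).no y → O y = false) :
    ∀ (d i : ℕ) (as : List Bool), i + d = g I.2.2 → as.length = i * I.1 →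
      (chosen I.1 as i).length ≤ i * I.2.2 →
      (uncL I (chosen I.1 as i)).length * bB I.1 (g I.2.2) ^ i ≤ I.1 →
      ∀ N, d * I.1 + 1 ≤ N →
        runO (fun as => bnext ((I, [g I.2.2, bK (g I.2.2) I.2.2], rs), as)) O N as = true := by
  classical
  set c := g I.2.2 with hc
  set K := bK c I.2.2 with hK
  have hc1 : 1 ≤ c := hg1 _
  have hstop : ∀ (i : ℕ) (as : List Bool), i ≤ c → as.length = i * I.1 →
      (chosen I.1 as i).length ≤ i * I.2.2 → uncL I (chosen I.1 as i) = [] →
      ∀ N, 1 ≤ N → runO (fun as => bnext ((I, [c, K], rs), as)) O N as = true := by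
    intro i as hi hlen hX hV N hN
    obtain ⟨N', rfl⟩ : ∃ N', N = N' + 1 := ⟨N - 1, by omega⟩
    have hdiv : as.length / I.1 = i := by
      rw [hlen, Nat.mul_div_cancel _ (by omega)]
    have h1 : bnext ((I, [c, K], rs), as) = Sum.inr true := by
      unfold bnext
      simp only [hdiv, List.getD_cons_zero]
      rw [if_pos (Or.inl hV)]
      congr 1
      rw [decide_eq_true_eq]
      exact ⟨hV, hX.trans (Nat.mul_le_mul_right _ hi)⟩
    unfold runO
    simp only [h1]
  intro d
  induction d with
  | zero =>
    intro i as hi hlen hX hV N hN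
    have hVnil : uncL I (chosen I.1 as i) = [] := by
      by_contra hne
      have hpos : 0 < (uncL I (chosen I.1 as i)).length := List.length_pos_iff.2 hne
      have h1 := lt_bB_pow I.1 c hc1
      have h2 : i = c := by omega
      rw [h2] at hV hpos
      nlinarith [Nat.mul_le_mul_right (bB I.1 c ^ c) (Nat.succ_le_of_lt hpos)]
    exact hstop i as (by omega) hlen hX hVnil N (by omega)
  | succ d ih =>
    intro i as hi hlen hX hV N hN
    by_cases hVnil : uncL I (chosen I.1 as i) = []
    · exact hstop i as (by omega) hlen hX hVnil N (by omega)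
    have hic : i < c := by omega
    set V := uncL I (chosen I.1 as i) with hVdef
    set Q : List Bool → SI := fun as' => query I V rs as' c K with hQ
    have hVn : ∀ x ∈ V, x < I.1 := by
      intro x hx
      rw [hVdef] at hx
      unfold uncL at hx
      rw [List.mem_filter, List.mem_range] at hx
      exact hx.1
    have hq : ∀ j < I.1, (fun as => bnext ((I, [c, K], rs), as)) (as ++ bm_bs Q O as j) =
        Sum.inl (Q (as ++ bm_bs Q O as j)) := by
      intro j hj
      exact bm_next_query I c K i rs as _ hn hlen (by rw [bm_bs_length]; exact hj) hic hVnil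
    obtain ⟨N', rfl⟩ : ∃ N', N = I.1 + N' := by
      refine ⟨N - I.1, ?_⟩
      have : (d + 1) * I.1 = d * I.1 + I.1 := by ring
      omega
    rw [bm_run_round (fun as => bnext ((I, [c, K], rs), as)) Q O as I.1 hq I.1 le_rfl N']
    set bs := bm_bs Q O as I.1 with hbs
    have hblen : bs.length = I.1 := bm_bs_length Q O as I.1
    have hO : ∀ j < I.1, (bs.getD j true = true ↔
        HasSC (query I V rs (as ++ bs.take j) c K) I.2.2) := by
      intro j hj
      rw [hbs, bm_bs_getD Q O as I.1 j hj, bm_bs_take Q O as I.1 j hj.le]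
      have hprom := bm_promise g hg1 I V rs (as ++ bm_bs Q O as j)
      constructor
      · intro h1
        by_contra h2
        have h3 := hno (query I V rs (as ++ bm_bs Q O as j) c K) ⟨hprom, h2⟩
        rw [hQ] at h1
        simp only at h1
        rw [h1] at h3
        exact Bool.noConfusion h3
      · intro h1
        exact hy _ ⟨hprom, h1⟩
    have hcov : ∃ T : List ℕ, T.length ≤ I.2.2 ∧ ∀ s < bq I.1 c I.2.2,
        ∃ v ∈ T, adjV I v (smp V rs (Nat.size I.1) s) = true := by
      refine ⟨D.toList.map (fun v : Fin I.1 => (v : ℕ)), ?_, ?_⟩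
      · rw [List.length_map, Finset.length_toList]
        exact hDc
      · intro s _
        have hx : smp V rs (Nat.size I.1) s < I.1 := hVn _ (bm_smp_mem V hVnil rs _ s)
        set x := smp V rs (Nat.size I.1) s with hxdef
        rcases hD ⟨x, hx⟩ with h1 | ⟨u, hu, hadj⟩
        · refine ⟨x, ?_, ?_⟩
          · rw [List.mem_map]
            exact ⟨⟨x, hx⟩, Finset.mem_toList.mpr h1, rfl⟩
          · rw [bm_adjV_iff]
            exact Or.inl rfl
        · refine ⟨u, ?_, ?_⟩
          · rw [List.mem_map]
            exact ⟨u, Finset.mem_toList.mpr hu, rfl⟩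
          · rw [bm_adjV_iff]
            unfold gr at hadj
            rw [SimpleGraph.fromRel_adj] at hadj
            exact Or.inr ⟨hx, u.isLt, hadj.2⟩
    obtain ⟨T, hT1, hT2, hT3⟩ := round_correct I c K i rs as bs V hn hVnil hVn hlen hblen hO hcov
    have hXc : (chosen I.1 as i).length ≤ c * I.2.2 :=
      hX.trans (Nat.mul_le_mul_right _ hic.le)
    have hg := hgood (chosen I.1 as i) hXc hVnil T hT1 hT3
    rw [← hVdef] at hg
    apply ih (i + 1) (as ++ bs) (by omega)
    · rw [List.length_append, hlen, hblen]
      ring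
    · rw [hT2, List.length_append]
      have : (i + 1) * I.2.2 = i * I.2.2 + I.2.2 := by ring
      omega
    · rw [hT2, pow_succ]
      calc (uncL I (chosen I.1 as i ++ T)).length * (bB I.1 c ^ i * bB I.1 c) =
          (bB I.1 c * (uncL I (chosen I.1 as i ++ T)).length) * bB I.1 c ^ i := by ring
        _ ≤ V.length * bB I.1 c ^ i := Nat.mul_le_mul_right _ hg.le
        _ ≤ I.1 := hV
    · have : (d + 1) * I.1 = d * I.1 + I.1 := by ring
      omega

private theorem bm_exists_dom (I : GI) :
    ∃ D : Finset (Fin I.1), IsDom (gr I) D ∧ D.card = gam I := by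
  have h : (gam I) ∈ {m | ∃ D : Finset (Fin I.1), IsDom (gr I) D ∧ D.card = m} := by
    apply Nat.sInf_mem
    exact ⟨_, Finset.univ, fun v => Or.inl (Finset.mem_univ v), rfl⟩
  exact h

private theorem bm_complete_all (g : ℕ → ℕ) (hg1 : ∀ k, 1 ≤ g k) (I : GI)
    (hgam : gam I ≤ I.2.2) (rs : List Bool)
    (hgood : Good I (g I.2.2) rs) (O : SI → Bool) (hy : ∀ y, (SC g).yes y → O y = true)
    (hno : ∀ y, (SC g).no y → O y = false) :
    runO (fun as => bnext ((I, [g I.2.2, bK (g I.2.2) I.2.2], rs), as)) O
      (g I.2.2 * I.1 + 1) [] = true := by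
  rcases Nat.eq_zero_or_pos I.1 with h0 | hpos
  · have h1 : uncL I (chosen I.1 [] (([] : List Bool).length / I.1)) = [] := by
      unfold uncL
      rw [h0]
      rfl
    have h2 : chosen I.1 [] (([] : List Bool).length / I.1) = [] := by
      rw [h0]
      rfl
    have h3 : bnext ((I, [g I.2.2, bK (g I.2.2) I.2.2], rs), []) = Sum.inr true := by
      unfold bnext
      simp only
      rw [if_pos (Or.inl h1)]
      congr 1
      rw [decide_eq_true_eq]
      refine ⟨h1, ?_⟩
      rw [h2]
      exact Nat.zero_le _
    unfold runO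
    simp only [h3]
  · obtain ⟨D, hD1, hD2⟩ := bm_exists_dom I
    have hch : chosen I.1 [] 0 = [] := by
      unfold chosen
      simp
    refine bm_complete g hg1 I hpos D hD1 (by omega) rs hgood O hy hno (g I.2.2) 0 [] (by omega)
      (by simp) ?_ ?_ _ le_rfl
    · rw [hch]
      simp
    · rw [hch, pow_zero, mul_one]
      unfold uncL
      refine (List.length_filter_le _ _).trans ?_
      rw [List.length_range]

theorem boost (g : ℕ → ℕ) (hg : Computable g) (hg1 : ∀ k, 1 ≤ g k) :
    RTRed (GapDS (fun k => (g k : ℝ))) (SC g) := by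
  classical
  refine ⟨fun k => [g k, bK (g k) k], id, bR, bN, bnext, ?_, Computable.id, bR_polyTime,
    bN_polyTime, bnext_polyTime, fun I => ⟨?_, fun O hy hno => ⟨?_, ?_⟩⟩⟩
  · exact Computable.list_cons.comp hg
      (Computable.list_cons.comp (bK_computable hg) (Computable.const []))
  · intro r as y hy
    have hy' : bnext ((I, [g I.2.2, bK (g I.2.2) I.2.2], r), as) = Sum.inl y := hy
    unfold bnext at hy'
    simp only [List.getD_cons_zero] at hy'
    split_ifs at hy' with h1
    rw [Sum.inl.injEq] at hy'
    subst hy'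
    refine ⟨le_refl I.2.2, ?_⟩
    have hprom := bm_promise g hg1 I
      (uncL I (chosen I.1 as (as.length / I.1))) r as
    by_cases h2 : HasSC (query I (uncL I (chosen I.1 as (as.length / I.1))) r as (g I.2.2)
        (bK (g I.2.2) I.2.2)) I.2.2
    · exact Or.inl ⟨hprom, h2⟩
    · exact Or.inr ⟨hprom, h2⟩
  · intro hyes
    have h1 := good_card I (g I.2.2) (hg1 _)
    have h2 : Nat.card {r : Fin (bq I.1 (g I.2.2) I.2.2 * Nat.size I.1) → Bool //
        Good I (g I.2.2) (List.ofFn r)} ≤ (Finset.univ.filter
          (fun r : Fin (bR (I, [g I.2.2, bK (g I.2.2) I.2.2])) → Bool =>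
            runO (fun as => bnext ((I, [g I.2.2, bK (g I.2.2) I.2.2], List.ofFn r), as)) O
              (bN (I, [g I.2.2, bK (g I.2.2) I.2.2])) [] = true)).card := by
      rw [Nat.card_eq_fintype_card, Fintype.card_subtype]
      apply Finset.card_le_card
      intro r hr
      have hr2 := (Finset.mem_filter.mp hr).2
      exact Finset.mem_filter.mpr ⟨Finset.mem_univ _,
        bm_complete_all g hg1 I hyes (List.ofFn r) hr2 O hy hno⟩
    exact h1.trans (Nat.mul_le_mul_left 2 h2)
  · intro hNo r
    by_contra hne
    rw [Bool.not_eq_false] at hne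
    obtain ⟨as', has'⟩ := bm_runO _ O _ _ hne
    have h1 : gam I ≤ g I.2.2 * I.2.2 := bm_sound I (g I.2.2) (bK (g I.2.2) I.2.2) _ as' has'
    have h2 : ((g I.2.2 : ℕ) : ℝ) * (I.2.2 : ℝ) < (gam I : ℝ) := hNo
    have h3 : ((gam I : ℕ) : ℝ) ≤ ((g I.2.2 * I.2.2 : ℕ) : ℝ) := by exact_mod_cast h1
    push_cast at h3
    linarith

end Pool.Agent.H78DS
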