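import Mathlib

/-! # H78DS/Hash: the hash family `x ↦ ((a x) mod q) mod σ`

PROOF. Take a prime `q` with `L + σ < q ≤ 2 (L + σ)` (`Nat.exists_prime_lt_and_le_two_mul`; `σ ≥ 1`). For an ordered pair
`x, y ∈ X`, `x ≠ y`, and `d ∈ {1, …, (q - 1) / σ}` there is at most one `a < q` with `a x mod q = a y mod q + d σ`, since then
`a (x - y) ≡ d σ` mod `q` and `x - y` is invertible mod `q` (`|x - y| < L < q`); work in `ZMod q` with `Fact q.Prime`, where
`(x : ZMod q) ≠ y` because `x, y < q`. If for some `1 ≤ a < q` the map is not injective on `X`, there are `x ≠ y` in `X` with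
`((a x) mod q) mod σ = ((a y) mod q) mod σ`; `a x mod q ≠ a y mod q` (as `a ≠ 0` in `ZMod q`), and after exchanging `x, y`
`a x mod q = a y mod q + d σ` with `1 ≤ d`, `d σ < q`. So the number of bad `a ∈ [1, q - 1]` is at most
`H (H - 1) ((q - 1) / σ)`, and this is `< q - 1` as `H (H - 1) < σ`, `q - 1 ≥ 1` (`((q - 1) / σ) * σ ≤ q - 1`). So there is a good `a`. -/

set_option autoImplicit false

namespace Pool.Agent.H78DS

/-- Equality of residues gives equality in `ZMod q`. -/
private lemma hash_cast {q a x y e : ℕ} (h : (a * x) % q = (a * y) % q + e) :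
    (a : ZMod q) * x = a * y + e := by
  have h1 : (((a * x) % q : ℕ) : ZMod q) = (((a * y) % q + e : ℕ) : ZMod q) := by rw [h]
  rw [ZMod.natCast_mod, Nat.cast_add, ZMod.natCast_mod, Nat.cast_mul, Nat.cast_mul] at h1
  exact h1

private lemma cast_ne {q x y : ℕ} (hx : x < q) (hy : y < q) (h : x ≠ y) :
    (x : ZMod q) ≠ y := by
  intro h1
  have h2 := (ZMod.natCast_eq_natCast_iff' x y q).1 h1
  rw [Nat.mod_eq_of_lt hx, Nat.mod_eq_of_lt hy] at h2
  exact h h2

/-- The bad multipliers of a triple. -/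
private lemma hash_one {q : ℕ} (hq : q.Prime) {x y e : ℕ} (hx : x < q) (hy : y < q)
    (hne : x ≠ y) :
    ((Finset.Icc 1 (q - 1)).filter (fun a => (a * x) % q = (a * y) % q + e)).card ≤ 1 := by
  have : Fact q.Prime := ⟨hq⟩
  have hq0 := hq.pos
  refine Finset.card_le_one.2 fun a ha b hb => ?_
  rw [Finset.mem_filter, Finset.mem_Icc] at ha hb
  have h1 := hash_cast ha.2
  have h2 := hash_cast hb.2
  have h3 : ((a : ZMod q) - b) * (x - y) = 0 := by linear_combination h1 - h2
  have h4 : (x : ZMod q) - y ≠ 0 := sub_ne_zero.2 (cast_ne hx hy hne)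
  have h5 : (a : ZMod q) = b := by
    rcases mul_eq_zero.1 h3 with h | h
    · exact sub_eq_zero.1 h
    · exact absurd h h4
  by_contra hab
  exact cast_ne (by omega) (by omega) hab h5

theorem exists_hash (L H σ : ℕ) (hσ : 2 * H ^ 2 + 1 ≤ σ) (X : Finset ℕ) (hX : ∀ x ∈ X, x < L)
    (hcard : X.card ≤ H) :
    ∃ a q : ℕ, a < 2 * (L + σ) + 1 ∧ q < 2 * (L + σ) + 1 ∧
      ∀ x ∈ X, ∀ y ∈ X, ((a * x) % q) % σ = ((a * y) % q) % σ → x = y := by
  have hσ0 : 0 < σ := by omega
  obtain ⟨q, hq, hq1, hq2⟩ := Nat.exists_prime_lt_and_le_two_mul (L + σ) (by omega)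
  have : Fact q.Prime := ⟨hq⟩
  have hqpos := hq.two_le
  set S : Finset ((ℕ × ℕ) × ℕ) := X.offDiag ×ˢ Finset.Icc 1 ((q - 1) / σ) with hS
  set f : (ℕ × ℕ) × ℕ → Finset ℕ := fun t =>
    (Finset.Icc 1 (q - 1)).filter (fun a => (a * t.1.1) % q = (a * t.1.2) % q + t.2 * σ) with hf
  have hcS : (S.biUnion f).card ≤ S.card * 1 := by
    refine Finset.card_biUnion_le_card_mul S f 1 fun t ht => ?_
    rw [hS, Finset.mem_product, Finset.mem_offDiag] at ht
    obtain ⟨⟨hx, hy, hne⟩, -⟩ := ht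
    exact hash_one hq (by have := hX _ hx; omega) (by have := hX _ hy; omega) hne
  have hSc : S.card ≤ H * H * ((q - 1) / σ) := by
    rw [hS, Finset.card_product, Finset.offDiag_card, Nat.card_Icc, Nat.add_sub_cancel]
    refine Nat.mul_le_mul_right _ ?_
    exact (Nat.sub_le _ _).trans (Nat.mul_le_mul hcard hcard)
  have hlt : H * H * ((q - 1) / σ) < q - 1 := by
    rcases Nat.eq_zero_or_pos ((q - 1) / σ) with h0 | h0
    · rw [h0, Nat.mul_zero]
      omega
    · have h1 : H * H < σ := by nlinarith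
      calc H * H * ((q - 1) / σ) < σ * ((q - 1) / σ) := Nat.mul_lt_mul_of_pos_right h1 h0
        _ ≤ q - 1 := Nat.mul_div_le _ _
  have hlt2 : (S.biUnion f).card < (Finset.Icc 1 (q - 1)).card := by
    rw [Nat.card_Icc, Nat.add_sub_cancel]
    omega
  obtain ⟨a, ha, hna⟩ := Finset.exists_mem_notMem_of_card_lt_card hlt2
  have ha' := Finset.mem_Icc.1 ha
  have hgood : ∀ x ∈ X, ∀ y ∈ X, x ≠ y → ∀ d, 1 ≤ d → (a * x) % q ≠ (a * y) % q + d * σ := by
    intro x hx y hy hne d hd h
    apply hna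
    rw [Finset.mem_biUnion]
    refine ⟨((x, y), d), ?_, ?_⟩
    · rw [hS, Finset.mem_product, Finset.mem_offDiag, Finset.mem_Icc]
      refine ⟨⟨hx, hy, hne⟩, hd, ?_⟩
      rw [Nat.le_div_iff_mul_le hσ0]
      have := Nat.mod_lt (a * x) (by omega : q > 0)
      show d * σ ≤ q - 1
      omega
    · rw [hf]
      exact Finset.mem_filter.2 ⟨ha, h⟩
  have hdiff : ∀ x ∈ X, ∀ y ∈ X, (a * y) % q < (a * x) % q →
      ((a * x) % q) % σ = ((a * y) % q) % σ → False := by
    intro x hx y hy hlt h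
    have hne : x ≠ y := by
      rintro rfl
      exact lt_irrefl _ hlt
    have h1 : σ ∣ (a * x) % q - (a * y) % q := (Nat.modEq_iff_dvd' hlt.le).1 h.symm
    obtain ⟨d, hd⟩ := h1
    rcases Nat.eq_zero_or_pos d with h0 | h0
    · rw [h0, Nat.mul_zero] at hd
      omega
    · refine hgood x hx y hy hne d h0 ?_
      rw [Nat.mul_comm d σ]
      omega
  refine ⟨a, q, by omega, by omega, fun x hx y hy h => ?_⟩
  by_contra hne
  rcases lt_trichotomy ((a * x) % q) ((a * y) % q) with h1 | h1 | h1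
  · exact hdiff y hy x hx h1 h.symm
  · have h2 : (a * x) % q = (a * y) % q + 0 := by omega
    have h3 := hash_cast h2
    rw [Nat.cast_zero, add_zero] at h3
    have h4 : (a : ZMod q) ≠ 0 := by
      have := cast_ne (q := q) (x := a) (y := 0) (by omega) (by omega) (by omega)
      rwa [Nat.cast_zero] at this
    exact cast_ne (by have := hX _ hx; omega) (by have := hX _ hy; omega) hne
      (mul_left_cancel₀ h4 h3)
  · exact hdiff x hx y hy h1 h

end Pool.Agent.H78DS
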