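import Pool.Agent.H78DS.GapDef
import Pool.Agent.H78DS.Hash

/-! # H78DS/GapNo: no-instances get a gap

PROOF of `gap_no`. Let `L, m, k` be the components of `I`, `B = σ ^ k`, `M = m ^ B`. The set of the sizes of dominating sets
is nonempty (`Finset.univ` is dominating), so `Nat.sInf_mem` gives a dominating set `D` with `D.card = gam`. Assume
`D.card ≤ H`. `m ≥ 1` because otherwise the empty set is a cover. Let `X` = set of the pairs `(s, j) = (u / k, u % k)` for the
set vertices `u < nS = L k` in `D`, and `X₀` = the set of their first components; `X₀.card ≤ H`, all its elements are `< L`.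
By `exists_hash` there are `a, q < PP I σ` such that `φ s = ((a s) mod q) mod σ` is injective on `X₀`.
For every `b < B` there is `f b < m` such that `f b ∉ S_s` for all `s` such that for some `j < k`: `(s, j) ∈ X` and
`φ s = dig σ j b`. Indeed for each `j` there is at most one `s` with `(s, j) ∈ X`, `φ s = dig σ j b`, so the set `T_b` of all these
`s` has at most `k` elements (it is contained in the image of `{0, …, k - 1}` under `j ↦` this `s` if it exists), and it is not a
cover, as `¬ HasSC I k`. By `exists_dig` there is `α < m ^ B = M` with `dig m b α = f b` for all `b < B`. The copies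
`y_c = ((a * P + q) * M + α) * (H + 1) + c`, `c ≤ H`, are `H + 1` different element vertices `nS + y_c`, so one of them is not in `D`. It is
adjacent to some `u ∈ D`; from the definition of the edges (`SimpleGraph.fromRel_adj`, filter; an edge `(v, u)` with
`v ≥ nS` as first component does not exist) `u < nS` and `covV … u y_c`, i.e. there is `b < B` with
`dig σ j b = φ s`, `dig m b α ∈ S_s` where `s = u / k`, `j = u % k < k` (`k ≥ 1` as `nS > 0`). Then `s ∈ T_b` and `f b ∈ S_s`, contradiction. -/

set_option autoImplicit false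

namespace Pool.Agent.H78DS

/-- the number of a copy of an element is in the range -/
private lemma code_lt {P M H a q α c : ℕ} (ha : a < P) (hq : q < P) (hα : α < M) (hc : c < H + 1) :
    ((a * P + q) * M + α) * (H + 1) + c < P * P * M * (H + 1) := by
  have h1 : a * P + q + 1 ≤ P * P := by
    have : (a + 1) * P ≤ P * P := Nat.mul_le_mul_right _ ha
    linarith
  have h2 : (a * P + q) * M + α + 1 ≤ P * P * M := by
    have : (a * P + q + 1) * M ≤ P * P * M := Nat.mul_le_mul_right _ h1
    linarith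
  have h3 : ((a * P + q) * M + α + 1) * (H + 1) ≤ P * P * M * (H + 1) :=
    Nat.mul_le_mul_right _ h2
  linarith

private lemma code_div {P M H a q α c : ℕ} (hα : α < M) (hc : c < H + 1) :
    (((a * P + q) * M + α) * (H + 1) + c) / (H + 1) / M = a * P + q ∧
    (((a * P + q) * M + α) * (H + 1) + c) / (H + 1) % M = α := by
  have h1 : (((a * P + q) * M + α) * (H + 1) + c) / (H + 1) = (a * P + q) * M + α := by
    rw [mul_comm, Nat.mul_add_div (Nat.succ_pos H), Nat.div_eq_of_lt hc, add_zero]
  rw [h1]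
  have hM : 0 < M := lt_of_le_of_lt (Nat.zero_le _) hα
  constructor
  · rw [mul_comm, Nat.mul_add_div hM, Nat.div_eq_of_lt hα, add_zero]
  · rw [mul_comm, Nat.mul_add_mod, Nat.mod_eq_of_lt hα]

private lemma code_div2 {P a q : ℕ} (hq : q < P) : (a * P + q) / P = a ∧ (a * P + q) % P = q := by
  have hP : 0 < P := lt_of_le_of_lt (Nat.zero_le _) hq
  constructor
  · rw [mul_comm, Nat.mul_add_div hP, Nat.div_eq_of_lt hq, add_zero]
  · rw [mul_comm, Nat.mul_add_mod, Nat.mod_eq_of_lt hq]

/-- the edges -/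
private lemma adj_elim {I : SI} {H σ B M : ℕ} {u v : Fin (gapInst I H σ B M).1}
    (h : (gr (gapInst I H σ B M)).Adj u v) (hv : nS I ≤ (v : ℕ)) :
    (u : ℕ) < nS I ∧ covV I H σ B M u ((v : ℕ) - nS I) = true := by
  rw [gr, SimpleGraph.fromRel_adj] at h
  obtain ⟨-, h | h⟩ := h
  · have h2 := (List.mem_filter.1 h).2
    rw [adjB, Bool.and_eq_true, Bool.or_eq_true, decide_eq_true_iff, decide_eq_true_iff] at h2
    refine ⟨h2.1, ?_⟩
    rcases h2.2 with h3 | h3
    · exact absurd h3 (by simpa using hv)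
    · exact h3
  · have h2 := (List.mem_filter.1 h).2
    rw [adjB, Bool.and_eq_true, decide_eq_true_iff] at h2
    exact absurd h2.1 (by simpa using hv)

theorem gap_no (I : SI) (H σ : ℕ) (hσ : 2 * H ^ 2 + 1 ≤ σ) (h : ¬ HasSC I I.2.2) :
    H < gam (gapInst I H σ (σ ^ I.2.2) (I.2.1 ^ (σ ^ I.2.2))) := by
  classical
  by_contra hgam
  rw [not_lt] at hgam
  set B := σ ^ I.2.2 with hB
  set M := I.2.1 ^ B with hM
  have hne : {m | ∃ D : Finset (Fin (gapInst I H σ B M).1),
      IsDom (gr (gapInst I H σ B M)) D ∧ D.card = m}.Nonempty :=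
    ⟨_, Finset.univ, fun v => Or.inl (Finset.mem_univ v), rfl⟩
  obtain ⟨D, hD, hDc⟩ := Nat.sInf_mem hne
  have hDH : D.card ≤ H := hDc.le.trans hgam
  -- the set vertices
  have hk : ∀ u : ℕ, u < nS I → 0 < I.2.2 := by
    intro u hu
    rw [nS] at hu
    exact Nat.pos_of_ne_zero fun h0 => by rw [h0, mul_zero] at hu; exact absurd hu (Nat.not_lt_zero _)
  set X : Finset ℕ := (D.filter fun u : Fin (gapInst I H σ B M).1 => (u : ℕ) < nS I).image
    (fun u : Fin (gapInst I H σ B M).1 => (u : ℕ) / I.2.2) with hX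
  have hXL : ∀ x ∈ X, x < I.1.length := by
    intro x hx
    rw [hX, Finset.mem_image] at hx
    obtain ⟨u, hu, rfl⟩ := hx
    rw [Finset.mem_filter] at hu
    have := hu.2
    rw [nS] at this
    exact Nat.div_lt_of_lt_mul (by rwa [mul_comm])
  have hXc : X.card ≤ H := (Finset.card_image_le.trans (Finset.card_filter_le _ _)).trans hDH
  obtain ⟨a, q, ha, hq, hinj⟩ := exists_hash I.1.length H σ hσ X hXL hXc
  have ha' : a < PP I σ := ha
  have hq' : q < PP I σ := hq
  -- the function `f`
  have hf : ∀ b : ℕ, ∃ x < I.2.1, ∀ u ∈ D, (u : ℕ) < nS I →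
      dig σ ((u : ℕ) % I.2.2) b = ((a * ((u : ℕ) / I.2.2)) % q) % σ →
      x ∉ I.1.getD ((u : ℕ) / I.2.2) [] := by
    intro b
    set T : Finset (Fin (gapInst I H σ B M).1) := D.filter fun u => (u : ℕ) < nS I ∧
      dig σ ((u : ℕ) % I.2.2) b = ((a * ((u : ℕ) / I.2.2)) % q) % σ with hT
    have hTc : T.card ≤ I.2.2 := by
      rw [← Finset.card_range I.2.2]
      refine Finset.card_le_card_of_injOn (fun u => (u : ℕ) % I.2.2) ?_ ?_
      · intro u hu
        rw [Finset.mem_coe, hT, Finset.mem_filter] at hu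
        rw [Finset.mem_coe, Finset.mem_range]
        exact Nat.mod_lt _ (hk _ hu.2.1)
      · intro u hu v hv huv
        rw [Finset.mem_coe, hT, Finset.mem_filter] at hu hv
        have huv' : (u : ℕ) % I.2.2 = (v : ℕ) % I.2.2 := huv
        have h1 : (u : ℕ) / I.2.2 = (v : ℕ) / I.2.2 := by
          refine hinj _ ?_ _ ?_ ?_
          · exact Finset.mem_image.2 ⟨u, Finset.mem_filter.2 ⟨hu.1, hu.2.1⟩, rfl⟩
          · exact Finset.mem_image.2 ⟨v, Finset.mem_filter.2 ⟨hv.1, hv.2.1⟩, rfl⟩
          · rw [← hu.2.2, ← hv.2.2, huv']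
        apply Fin.ext
        rw [← Nat.div_add_mod (u : ℕ) I.2.2, ← Nat.div_add_mod (v : ℕ) I.2.2, h1, huv']
    by_contra hcon
    push Not at hcon
    apply h
    refine ⟨T.image (fun u : Fin (gapInst I H σ B M).1 => (u : ℕ) / I.2.2), Finset.card_image_le.trans hTc, fun x hx => ?_⟩
    obtain ⟨u, hu, h1, h2, h3⟩ := hcon x hx
    exact ⟨(u : ℕ) / I.2.2, Finset.mem_image.2 ⟨u, Finset.mem_filter.2 ⟨hu, h1, h2⟩, rfl⟩, h3⟩
  choose f hfm hfn using hf
  obtain ⟨α, hα, hdig⟩ := exists_dig I.2.1 B f fun b _ => hfm b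
  have hα' : α < M := hα
  -- the copies
  have hlt : ∀ c : Fin (H + 1), nS I + (((a * PP I σ + q) * M + α) * (H + 1) + c) <
      (gapInst I H σ B M).1 := by
    intro c
    have := code_lt (H := H) ha' hq' hα' c.2
    show _ < nS I + nE I H σ M
    rw [nE]
    omega
  set g : Fin (H + 1) → Fin (gapInst I H σ B M).1 := fun c => ⟨_, hlt c⟩ with hg
  have hginj : Function.Injective g := by
    intro c c' hcc
    have := congrArg (fun x : Fin (gapInst I H σ B M).1 => (x : ℕ)) hcc
    simp only [hg] at this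
    apply Fin.ext
    omega
  obtain ⟨c, hc⟩ : ∃ c, g c ∉ D := by
    by_contra hcon
    push Not at hcon
    have h1 : (Finset.univ.image g).card ≤ D.card :=
      Finset.card_le_card fun x hx => by
        obtain ⟨c, -, rfl⟩ := Finset.mem_image.1 hx
        exact hcon c
    rw [Finset.card_image_of_injective _ hginj, Finset.card_univ, Fintype.card_fin] at h1
    omega
  rcases hD (g c) with h1 | ⟨u, hu, hadj⟩
  · exact hc h1
  have hge : nS I ≤ ((g c : Fin _) : ℕ) := Nat.le_add_right _ _
  obtain ⟨hu1, hcov⟩ := adj_elim hadj hge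
  have hsub : ((g c : Fin _) : ℕ) - nS I = ((a * PP I σ + q) * M + α) * (H + 1) + c :=
    Nat.add_sub_cancel_left _ _
  rw [hsub, covV, (code_div hα' c.2).1, (code_div hα' c.2).2, (code_div2 hq').1,
    (code_div2 hq').2, covB, List.any_eq_true] at hcov
  obtain ⟨b, hb, hb2⟩ := hcov
  rw [List.mem_range] at hb
  rw [Bool.and_eq_true, decide_eq_true_iff, decide_eq_true_iff] at hb2
  rw [hdig b hb] at hb2
  exact hfn b u hu hu1 hb2.1 hb2.2

end Pool.Agent.H78DS
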