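import Pool.Agent.H78DS.Dig

/-! # H78DS/Group: grouping the vertices of a dominating set

From the graph `(n, E, K)` and `t, r, p` with `p t = K + r`: add `r` isolated vertices (`n₁ = n + r` vertices); sets = unions of the
closed neighbourhoods of the `t`-tuples of vertices, indexed by the numbers `< n₁ ^ t` in base `n₁`; universe: the `n₁`
vertices; parameter `p`.

PROOF of `group_yes`. Let `D` be dominating with `D.card = gam I ≤ K` (`Nat.sInf_mem`). If `n₁ = 0`, `T = ∅` works (universe empty).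
Otherwise let `D₁ : Finset ℕ` be the values of `D` together with `n, …, n + r - 1`; `D₁.card ≤ K + r = p t`, all `< n₁`. So there is
`v : ℕ → ℕ` with `v i < n₁` for all `i` and `D₁ ⊆ v '' [0, p t)` (for instance `v i = D₁.toList.getD i 0`). For `l < p` let `j_l < n₁ ^ t`
with `dig n₁ i j_l = v (l t + i)` for `i < t` (`exists_dig`), `T = {j_l : l < p}`, `T.card ≤ p`. Every `x < n₁` is adjacent or equal (in the
sense `adjV`) to some element `d` of `D₁` (if `x < n`: `D` is dominating, `gr` is `fromRel`; if `n ≤ x < n₁` : `x` itself),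
`d = v (l t + i)` with `l < p`, `i < t` (`l = e / t`, `i = e % t`, `e < p t`), so `x` is in the set with the number `j_l`
(`List.getElem?_map`/`getD` of a `map` over `range`).
PROOF of `group_no`. Let `T` be a cover with `T.card ≤ p`. `D₁` = all `dig n₁ i j` for `j ∈ T`, `j < n₁ ^ t`, `i < t`:
`D₁.card ≤ p t`. Every `x < n₁` is in the `j`-th set for some `j ∈ T`; then `j < n₁ ^ t` (otherwise `getD` gives `[]`) and
`adjV I (dig n₁ i j) x` for some `i < t`. For `x = n + c` this means `dig n₁ i j = x` (as `adjV` requires `< n` otherwise), so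
`D₁` contains the `r` numbers `n, …, n + r - 1`, hence `D` = the elements of `D₁` below `n` has at most `p t - r = K` elements and it is
dominating: `x < n` is adjacent or equal to `dig n₁ i j`, which is `< n` in both cases. So `gam I ≤ K` (`Nat.sInf_le`). -/

set_option autoImplicit false

namespace Pool.Agent.H78DS

open Pool.Agent.PT

/-- `x` is in the closed neighbourhood of `v` in the graph with additional isolated vertices -/
def adjV (I : GI) (v x : ℕ) : Bool :=
  decide (x = v) || (decide (x < I.1) && decide (v < I.1) &&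
    (decide ((v, x) ∈ I.2.1) || decide ((x, v) ∈ I.2.1)))

/-- the set with number `j` -/
def groupSet (I : GI) (t r j : ℕ) : List ℕ :=
  (List.range (I.1 + r)).filter (fun x => (List.range t).any (fun i => adjV I (dig (I.1 + r) i j) x))

/-- the set cover instance; `L` should be `(n + r) ^ t` -/
def group (I : GI) (t r p L : ℕ) : SI :=
  ((List.range L).map (fun j => groupSet I t r j), I.1 + r, p)

private theorem adjV_iff (I : GI) (v x : ℕ) : adjV I v x = true ↔
    x = v ∨ (x < I.1 ∧ v < I.1 ∧ ((v, x) ∈ I.2.1 ∨ (x, v) ∈ I.2.1)) := by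
  unfold adjV
  simp only [Bool.or_eq_true, Bool.and_eq_true, decide_eq_true_eq, and_assoc]

private theorem mem_groupSet (I : GI) (t r j x : ℕ) : x ∈ groupSet I t r j ↔
    x < I.1 + r ∧ ∃ i < t, adjV I (dig (I.1 + r) i j) x = true := by
  unfold groupSet
  rw [List.mem_filter, List.mem_range, List.any_eq_true]
  simp only [List.mem_range]

private theorem mem_group (I : GI) (t r p L j x : ℕ) : x ∈ (group I t r p L).1.getD j [] ↔
    j < L ∧ x ∈ groupSet I t r j := by
  unfold group
  by_cases hj : j < L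
  · rw [List.getD_eq_getElem _ _ (by simpa using hj)]
    simp [hj]
  · rw [List.getD_eq_default _ _ (by simpa using hj)]
    simp [hj]

private theorem gr_adj (I : GI) (u v : Fin I.1) : (gr I).Adj u v ↔
    u ≠ v ∧ (((u : ℕ), (v : ℕ)) ∈ I.2.1 ∨ ((v : ℕ), (u : ℕ)) ∈ I.2.1) := by
  unfold gr
  rw [SimpleGraph.fromRel_adj]

theorem group_yes (I : GI) (K t r p : ℕ) (hp : p * t = K + r) (h : gam I ≤ K) :
    HasSC (group I t r p ((I.1 + r) ^ t)) p := by
  classical
  obtain ⟨D, hD, hDc⟩ : ∃ D : Finset (Fin I.1), IsDom (gr I) D ∧ D.card = gam I := by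
    have hne : {m | ∃ D : Finset (Fin I.1), IsDom (gr I) D ∧ D.card = m}.Nonempty :=
      ⟨_, Finset.univ, fun v => Or.inl (Finset.mem_univ v), rfl⟩
    exact Nat.sInf_mem hne
  rcases Nat.eq_zero_or_pos (I.1 + r) with h0 | h0
  · refine ⟨∅, by simp, ?_⟩
    intro x hx
    have : x < I.1 + r := hx
    omega
  obtain ⟨D₁, hD₁⟩ : ∃ D₁ : Finset ℕ, D₁ = D.image (fun v : Fin I.1 => (v : ℕ)) ∪
    (Finset.range r).image (fun c => I.1 + c) := ⟨_, rfl⟩
  have hcard : D₁.card ≤ p * t := by
    rw [hp, hD₁]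
    refine (Finset.card_union_le _ _).trans (add_le_add (Finset.card_image_le.trans ?_)
      (Finset.card_image_le.trans ?_))
    · rw [hDc]; exact h
    · rw [Finset.card_range]
  have hlt : ∀ d ∈ D₁, d < I.1 + r := by
    intro d hd
    rw [hD₁, Finset.mem_union, Finset.mem_image, Finset.mem_image] at hd
    rcases hd with ⟨v, _, rfl⟩ | ⟨c, hc, rfl⟩
    · have := v.2
      omega
    · rw [Finset.mem_range] at hc
      omega
  obtain ⟨v, hv1, hv2⟩ : ∃ v : ℕ → ℕ, (∀ i, v i < I.1 + r) ∧
      ∀ d ∈ D₁, ∃ e < D₁.card, v e = d := by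
    refine ⟨fun i => D₁.toList.getD i 0, fun i => ?_, fun d hd => ?_⟩
    · by_cases hi : i < D₁.toList.length
      · dsimp only
        rw [List.getD_eq_getElem _ _ hi]
        exact hlt _ (Finset.mem_toList.1 (List.getElem_mem hi))
      · dsimp only
        rw [List.getD_eq_default _ _ (not_lt.1 hi)]
        exact h0
    · obtain ⟨e, he, hed⟩ := List.mem_iff_getElem.1 (Finset.mem_toList.2 hd)
      refine ⟨e, by rw [← Finset.length_toList]; exact he, ?_⟩
      dsimp only
      rw [List.getD_eq_getElem _ _ he, hed]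
  choose j hj1 hj2 using fun l : ℕ =>
    exists_dig (I.1 + r) t (fun i => v (l * t + i)) (fun i _ => hv1 _)
  refine ⟨(Finset.range p).image j, Finset.card_image_le.trans (by rw [Finset.card_range]), ?_⟩
  intro x hx
  have hx' : x < I.1 + r := hx
  have hd : ∃ d ∈ D₁, adjV I d x = true := by
    by_cases hxn : x < I.1
    · rcases hD ⟨x, hxn⟩ with h1 | ⟨u, hu, h1⟩
      · refine ⟨x, ?_, (adjV_iff I x x).2 (Or.inl rfl)⟩
        rw [hD₁, Finset.mem_union]
        exact Or.inl (Finset.mem_image.2 ⟨_, h1, rfl⟩)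
      · rw [gr_adj] at h1
        refine ⟨u, ?_, (adjV_iff I u x).2 (Or.inr ⟨hxn, u.2, h1.2⟩)⟩
        rw [hD₁, Finset.mem_union]
        exact Or.inl (Finset.mem_image.2 ⟨_, hu, rfl⟩)
    · refine ⟨x, ?_, (adjV_iff I x x).2 (Or.inl rfl)⟩
      rw [hD₁, Finset.mem_union]
      refine Or.inr (Finset.mem_image.2 ⟨x - I.1, Finset.mem_range.2 (by omega), by omega⟩)
  obtain ⟨d, hd, hadj⟩ := hd
  obtain ⟨e, he, rfl⟩ := hv2 d hd
  have het : e < p * t := he.trans_le hcard
  have ht : 0 < t := by
    rcases Nat.eq_zero_or_pos t with h1 | h1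
    · rw [h1] at het; omega
    · exact h1
  refine ⟨j (e / t), Finset.mem_image.2 ⟨e / t, Finset.mem_range.2 ?_, rfl⟩, ?_⟩
  · exact (Nat.div_lt_iff_lt_mul ht).2 het
  · rw [mem_group, mem_groupSet]
    refine ⟨hj1 _, hx', e % t, Nat.mod_lt _ ht, ?_⟩
    rw [hj2 (e / t) (e % t) (Nat.mod_lt _ ht)]
    have : e / t * t + e % t = e := by
      rw [mul_comm]
      exact Nat.div_add_mod e t
    rw [this]
    exact hadj

theorem group_no (I : GI) (K t r p : ℕ) (hp : p * t = K + r) (h : ¬ gam I ≤ K) :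
    ¬ HasSC (group I t r p ((I.1 + r) ^ t)) p := by
  classical
  rintro ⟨T, hT, hcov⟩
  apply h
  obtain ⟨D₁, hD₁⟩ : ∃ D₁ : Finset ℕ, D₁ =
    T.biUnion (fun j => (Finset.range t).image (fun i => dig (I.1 + r) i j)) := ⟨_, rfl⟩
  have hcard : D₁.card ≤ p * t := by
    rw [hD₁]
    refine Finset.card_biUnion_le.trans ?_
    calc ∑ j ∈ T, ((Finset.range t).image (fun i => dig (I.1 + r) i j)).card
        ≤ ∑ _j ∈ T, t := Finset.sum_le_sum fun j _ => Finset.card_image_le.trans
          (by rw [Finset.card_range])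
      _ = T.card * t := by rw [Finset.sum_const, smul_eq_mul]
      _ ≤ p * t := Nat.mul_le_mul_right t hT
  have hx : ∀ x < I.1 + r, ∃ d ∈ D₁, adjV I d x = true := by
    intro x hx
    obtain ⟨j, hj, hxj⟩ := hcov x hx
    rw [mem_group, mem_groupSet] at hxj
    obtain ⟨_, _, i, hi, hadj⟩ := hxj
    refine ⟨dig (I.1 + r) i j, ?_, hadj⟩
    rw [hD₁, Finset.mem_biUnion]
    exact ⟨j, hj, Finset.mem_image.2 ⟨i, Finset.mem_range.2 hi, rfl⟩⟩
  obtain ⟨D, hD⟩ : ∃ D : Finset (Fin I.1), D = Finset.univ.filter (fun v : Fin I.1 => (v : ℕ) ∈ D₁) :=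
    ⟨_, rfl⟩
  have hDc : D.card ≤ K := by
    have h1 : D.image (fun v : Fin I.1 => (v : ℕ)) ∪ (Finset.range r).image (fun c => I.1 + c)
        ⊆ D₁ := by
      intro x hx'
      rw [Finset.mem_union, Finset.mem_image, Finset.mem_image] at hx'
      rcases hx' with ⟨v, hv, rfl⟩ | ⟨c, hc, rfl⟩
      · rw [hD, Finset.mem_filter] at hv
        exact hv.2
      · rw [Finset.mem_range] at hc
        obtain ⟨d, hd, hadj⟩ := hx (I.1 + c) (by omega)
        rw [adjV_iff] at hadj
        rcases hadj with h2 | h2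
        · rw [h2]; exact hd
        · omega
    have h2 : Disjoint (D.image (fun v : Fin I.1 => (v : ℕ)))
        ((Finset.range r).image (fun c => I.1 + c)) := by
      rw [Finset.disjoint_left]
      intro x hx1 hx2
      rw [Finset.mem_image] at hx1 hx2
      obtain ⟨v, _, rfl⟩ := hx1
      obtain ⟨c, _, hc⟩ := hx2
      have := v.2
      omega
    have h3 := Finset.card_le_card h1
    rw [Finset.card_union_of_disjoint h2,
      Finset.card_image_of_injective _ Fin.val_injective,
      Finset.card_image_of_injective _ (fun a b hab => by simpa using hab),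
      Finset.card_range] at h3
    omega
  refine le_trans (Nat.sInf_le ⟨D, ?_, rfl⟩) hDc
  intro v
  obtain ⟨d, hd, hadj⟩ := hx v (by have := v.2; omega)
  rw [adjV_iff] at hadj
  have hmem : ∀ u : Fin I.1, (u : ℕ) ∈ D₁ → u ∈ D := fun u hu => by
    rw [hD, Finset.mem_filter]
    exact ⟨Finset.mem_univ _, hu⟩
  rcases hadj with h2 | ⟨h2, h3, h4⟩
  · left
    apply hmem
    rw [h2]
    exact hd
  · by_cases huv : (⟨d, h3⟩ : Fin I.1) = v
    · left
      rw [← huv]
      exact hmem _ hd
    · right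
      refine ⟨⟨d, h3⟩, hmem _ hd, ?_⟩
      rw [gr_adj]
      exact ⟨huv, h4⟩

end Pool.Agent.H78DS
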