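import Pool.Agent.H78DS.GapDef
import Pool.Agent.H78DS.Group

/-! # H78DS/RedPT: the reduction is polynomial time

`red` takes the instance `I`, the advice `h = [p, t, r, H, σ, B, c₀]` and the number `w` (which will be `sz I ^ e`).
PROOF: `fun_prop` with the closure lemmas of `Pool.Agent.PT` (`PolyTime.product`, `filter`, `any`, `map`, `range`, `getD`,
`decide_mem`, `natDiv`, `natMod`, …), `cp_polyTime`, `dig_polyTime`. It is best to prove it in pieces: `PolyTime` of the tuple
functions `fun x : SI × ℕ × … => covB …`, `covV`, `adjB`, `gapInst`, `adjV`, `groupSet`, `group`. -/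

set_option autoImplicit false

namespace Pool.Agent.H78DS

open Pool.Agent.PT

/-- the reduction from Dominating Set to Set Cover -/
def redG (I : GI) (h : List ℕ) (w : ℕ) : SI :=
  group I (h.getD 1 0) (h.getD 2 0) (h.getD 0 0) (cp (I.1 + h.getD 2 0) (h.getD 1 0) (h.getD 6 0 * w))

/-- the gap reduction with advice -/
def redS (J : SI) (h : List ℕ) (w : ℕ) : GI :=
  gapInst J (h.getD 3 0) (h.getD 4 0) (h.getD 5 0) (cp J.2.1 (h.getD 5 0) (h.getD 6 0 * w))

/-- the whole reduction -/
def red (I : GI) (h : List ℕ) (w : ℕ) : GI := redS (redG I h w) h w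

variable {α : Type*} [Enc α]

@[fun_prop]
theorem covB_polyTime {f : α → SI} {σ B s j a q y : α → ℕ} (hf : PolyTime f)
    (hσ : PolyTime σ) (hB : PolyTime B) (hs : PolyTime s) (hj : PolyTime j) (ha : PolyTime a)
    (hq : PolyTime q) (hy : PolyTime y) :
    PolyTime (fun x => covB (f x) (σ x) (B x) (s x) (j x) (a x) (q x) (y x)) := by
  unfold covB
  exact PolyTime.any (l := fun x => List.range (B x))
    (g := fun x b => decide (dig (σ x) (j x) b = ((a x * s x) % q x) % σ x) &&
      decide (dig (f x).2.1 b (y x) ∈ (f x).1.getD (s x) [])) (by fun_prop) (by fun_prop)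

@[fun_prop]
theorem nS_polyTime {f : α → SI} (hf : PolyTime f) : PolyTime (fun x => nS (f x)) := by
  unfold nS
  fun_prop

@[fun_prop]
theorem PP_polyTime {f : α → SI} {σ : α → ℕ} (hf : PolyTime f) (hσ : PolyTime σ) :
    PolyTime (fun x => PP (f x) (σ x)) := by
  unfold PP
  fun_prop

@[fun_prop]
theorem nE_polyTime {f : α → SI} {H σ M : α → ℕ} (hf : PolyTime f) (hH : PolyTime H)
    (hσ : PolyTime σ) (hM : PolyTime M) :
    PolyTime (fun x => nE (f x) (H x) (σ x) (M x)) := by
  unfold nE
  fun_prop

@[fun_prop]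
theorem covV_polyTime {f : α → SI} {H σ B M u y : α → ℕ} (hf : PolyTime f) (hH : PolyTime H)
    (hσ : PolyTime σ) (hB : PolyTime B) (hM : PolyTime M) (hu : PolyTime u) (hy : PolyTime y) :
    PolyTime (fun x => covV (f x) (H x) (σ x) (B x) (M x) (u x) (y x)) := by
  unfold covV
  fun_prop

@[fun_prop]
theorem adjB_polyTime {f : α → SI} {H σ B M u v : α → ℕ} (hf : PolyTime f) (hH : PolyTime H)
    (hσ : PolyTime σ) (hB : PolyTime B) (hM : PolyTime M) (hu : PolyTime u) (hv : PolyTime v) :
    PolyTime (fun x => adjB (f x) (H x) (σ x) (B x) (M x) (u x) (v x)) := by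
  unfold adjB
  fun_prop

@[fun_prop]
theorem gapInst_polyTime {f : α → SI} {H σ B M : α → ℕ} (hf : PolyTime f) (hH : PolyTime H)
    (hσ : PolyTime σ) (hB : PolyTime B) (hM : PolyTime M) :
    PolyTime (fun x => gapInst (f x) (H x) (σ x) (B x) (M x)) := by
  unfold gapInst
  have h1 : PolyTime (fun x => ((List.range (nS (f x) + nE (f x) (H x) (σ x) (M x))).product
      (List.range (nS (f x) + nE (f x) (H x) (σ x) (M x)))).filter
      (fun p => adjB (f x) (H x) (σ x) (B x) (M x) p.1 p.2)) :=
    PolyTime.filter (l := fun x => (List.range (nS (f x) + nE (f x) (H x) (σ x) (M x))).product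
      (List.range (nS (f x) + nE (f x) (H x) (σ x) (M x))))
      (g := fun x p => adjB (f x) (H x) (σ x) (B x) (M x) p.1 p.2) (by fun_prop) (by fun_prop)
  fun_prop

@[fun_prop]
theorem adjV_polyTime {f : α → GI} {v y : α → ℕ} (hf : PolyTime f) (hv : PolyTime v)
    (hy : PolyTime y) : PolyTime (fun x => adjV (f x) (v x) (y x)) := by
  unfold adjV
  have h1 : PolyTime (fun x => decide (y x < (f x).1)) := PolyTime.decide_lt hy (by fun_prop)
  have h2 : PolyTime (fun x => decide (v x < (f x).1)) := PolyTime.decide_lt hv (by fun_prop)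
  have h3 : PolyTime (fun x => decide ((v x, y x) ∈ (f x).2.1)) :=
    (PolyTime.decide_mem (f := fun x => (v x, y x)) (l := fun x => (f x).2.1)
      (by fun_prop) (by fun_prop)).congr fun x => decide_eq_decide.2 Iff.rfl
  have h4 : PolyTime (fun x => decide ((y x, v x) ∈ (f x).2.1)) :=
    (PolyTime.decide_mem (f := fun x => (y x, v x)) (l := fun x => (f x).2.1)
      (by fun_prop) (by fun_prop)).congr fun x => decide_eq_decide.2 Iff.rfl
  have h5 : PolyTime (fun x => decide (y x = v x)) := PolyTime.decide_eq hy hv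
  exact h5.or ((h1.and h2).and (h3.or h4))

@[fun_prop]
theorem groupSet_polyTime {f : α → GI} {t r j : α → ℕ} (hf : PolyTime f) (ht : PolyTime t)
    (hr : PolyTime r) (hj : PolyTime j) :
    PolyTime (fun x => groupSet (f x) (t x) (r x) (j x)) := by
  unfold groupSet
  refine PolyTime.filter (l := fun x => List.range ((f x).1 + r x))
    (g := fun x y => (List.range (t x)).any
      (fun i => adjV (f x) (dig ((f x).1 + r x) i (j x)) y)) (by fun_prop) ?_
  exact PolyTime.any (l := fun p : α × ℕ => List.range (t p.1))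
    (g := fun p i => adjV (f p.1) (dig ((f p.1).1 + r p.1) i (j p.1)) p.2) (by fun_prop)
    (by fun_prop)

@[fun_prop]
theorem group_polyTime {f : α → GI} {t r p L : α → ℕ} (hf : PolyTime f) (ht : PolyTime t)
    (hr : PolyTime r) (hp : PolyTime p) (hL : PolyTime L) :
    PolyTime (fun x => group (f x) (t x) (r x) (p x) (L x)) := by
  unfold group
  have h1 : PolyTime (fun x => (List.range (L x)).map (fun j => groupSet (f x) (t x) (r x) j)) :=
    PolyTime.map (l := fun x => List.range (L x)) (g := fun x j => groupSet (f x) (t x) (r x) j)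
      (by fun_prop) (by fun_prop)
  fun_prop

theorem redS_polyTime : PolyTime (fun x : SI × List ℕ × ℕ => redS x.1 x.2.1 x.2.2) := by
  unfold redS
  fun_prop

theorem red_polyTime : PolyTime (fun x : GI × List ℕ × ℕ => red x.1 x.2.1 x.2.2) := by
  unfold red redG redS
  fun_prop

end Pool.Agent.H78DS
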