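import Pool.Agent.H78DS.GapYes
import Pool.Agent.H78DS.GapNo
import Pool.Agent.H78DS.RedPT
import Pool.Agent.H78DS.Advice

/-! # H78DS/Main: the reductions

PROOF of `subRed`. `h = adv F'`, `e = eK F'`, `p = pK F'`, `C = gB F' 1 + 3`, `R = red`. For `I` with parameter `K`,
`w = sz I ^ e`: `n₁ = n + r ≤ sz I + K + 1 ≤ (K + 2) * sz I` (`n ≤ sz n ≤ sz I`, `sz I ≥ 1`, `rK_le`), so `n₁ ^ i ≤ c₀ * w` for
`i ≤ e` (also if `n₁ = 0`, `i ≥ 1`; `t ≥ 1`, `B ≥ 1` and `i = 0` does not occur, but then it holds too) and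
`cp_eq_pow` removes the caps: `redG = group I t r p (n₁ ^ t)`, whose second component is `n₁` and whose third is `p`, and
`red = gapInst J H σ (σ ^ p) (n₁ ^ (σ ^ p))`. Yes: `group_yes`, `gap_yes` (`σ ≥ 1`). No: `group_no`, `gap_no` with `H = F' p * p`,
`σ = 2 H ^ 2 + 1`, and `F p * p ≤ F' p * p < gam`.
PROOF of `scRed` (Lin's reduction): `h k = [0, 0, 0, H, σ, B, 1]` with `H = F' k * k`, `σ = sg F' k`, `B = gB F' k`, `G = id`,
`R (J, h) = redS J h (J.1.length)`; as `m ^ B ≤ L` the cap is not active. -/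

set_option autoImplicit false

namespace Pool.Agent.H78DS

open Filter Pool.Agent.PT

lemma dsm_cap (F' : ℕ → ℕ) (I : GI) (i : ℕ) (hi : i ≤ eK F' I.2.2) :
    (I.1 + rK F' I.2.2) ^ i ≤ (I.2.2 + 2) ^ eK F' I.2.2 * sz I ^ eK F' I.2.2 := by
  have h1 : 1 ≤ sz I := sz_pos I
  have h2 : I.1 ≤ sz I := by
    rw [sz_prod, sz_nat]
    omega
  have h3 := rK_le F' I.2.2
  have h4 : I.2.2 ≤ I.2.2 * sz I := Nat.le_mul_of_pos_right _ h1
  have h5 : I.1 + rK F' I.2.2 ≤ (I.2.2 + 2) * sz I := by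
    have : (I.2.2 + 2) * sz I = I.2.2 * sz I + 2 * sz I := by ring
    omega
  have h6 : 0 < (I.2.2 + 2) * sz I := by positivity
  rw [← mul_pow]
  exact (Nat.pow_le_pow_left h5 i).trans (Nat.pow_le_pow_right h6 hi)

lemma dsm_red (F' : ℕ → ℕ) (I : GI) :
    red I (adv F' I.2.2) (sz I ^ eK F' I.2.2) =
      gapInst (group I (tK F' I.2.2) (rK F' I.2.2) (pK F' I.2.2)
        ((I.1 + rK F' I.2.2) ^ tK F' I.2.2)) (F' (pK F' I.2.2) * pK F' I.2.2)
        (sg F' (pK F' I.2.2)) (sg F' (pK F' I.2.2) ^ pK F' I.2.2)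
        ((I.1 + rK F' I.2.2) ^ (sg F' (pK F' I.2.2) ^ pK F' I.2.2)) := by
  have h1 : cp (I.1 + rK F' I.2.2) (tK F' I.2.2)
      ((I.2.2 + 2) ^ eK F' I.2.2 * sz I ^ eK F' I.2.2) = (I.1 + rK F' I.2.2) ^ tK F' I.2.2 :=
    cp_eq_pow (dsm_cap F' I _ (by unfold eK; omega))
  have h2 : cp (I.1 + rK F' I.2.2) (gB F' (pK F' I.2.2))
      ((I.2.2 + 2) ^ eK F' I.2.2 * sz I ^ eK F' I.2.2) =
      (I.1 + rK F' I.2.2) ^ gB F' (pK F' I.2.2) :=
    cp_eq_pow (dsm_cap F' I _ (by unfold eK; omega))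
  have h3 : redG I (adv F' I.2.2) (sz I ^ eK F' I.2.2) =
      group I (tK F' I.2.2) (rK F' I.2.2) (pK F' I.2.2)
        ((I.1 + rK F' I.2.2) ^ tK F' I.2.2) := by
    rw [← h1]
    rfl
  have h4 : sg F' (pK F' I.2.2) ^ pK F' I.2.2 = gB F' (pK F' I.2.2) := rfl
  rw [red, h3, h4, ← h2]
  rfl

lemma dsm_adv_computable {F' : ℕ → ℕ} (hF' : Computable F') :
    Computable (fun k => [0, 0, 0, F' k * k, sg F' k, gB F' k, 1]) := by
  have c1 : Computable fun k => F' k * k :=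
    Primrec.nat_mul.to_comp.comp hF' Computable.id
  have c2 : Computable fun k => sg F' k := by
    have e : (fun k => sg F' k) = fun k => 2 * ((F' k * k) * (F' k * k)) + 1 := by
      funext k
      unfold sg
      ring
    rw [e]
    exact Primrec.nat_add.to_comp.comp (Primrec.nat_mul.to_comp.comp (Computable.const 2)
      (Primrec.nat_mul.to_comp.comp c1 c1)) (Computable.const 1)
  have c3 : Computable fun k => gB F' k := gB_computable hF'
  have k0 : Computable fun _ : ℕ => (0 : ℕ) := Computable.const 0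
  have k1 : Computable fun _ : ℕ => (1 : ℕ) := Computable.const 1
  have n0 : Computable fun _ : ℕ => ([] : List ℕ) := Computable.const []
  exact Computable.list_cons.comp k0 (Computable.list_cons.comp k0 (Computable.list_cons.comp k0
    (Computable.list_cons.comp c1 (Computable.list_cons.comp c2 (Computable.list_cons.comp c3
      (Computable.list_cons.comp k1 n0))))))

theorem subRed (F : ℕ → ℝ) (F' : ℕ → ℕ) (hF' : Computable F') (hF : ∀ k, F k ≤ F' k) :
    SubRed kDS (GapDS F) := by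
  refine ⟨adv F', eK F', pK F', gB F' 1 + 3, fun x => red x.1 x.2.1 x.2.2, adv_computable hF',
    eK_computable hF', pK_computable hF', red_polyTime, pK_tendsto F', pK_le F', eK_bound F',
    fun I => ?_⟩
  have hpar : kDS.par I = I.2.2 := rfl
  simp only [hpar]
  rw [dsm_red F' I]
  refine ⟨rfl, fun hy => ?_, fun hn => ?_⟩
  · exact gap_yes (group I (tK F' I.2.2) (rK F' I.2.2) (pK F' I.2.2)
        ((I.1 + rK F' I.2.2) ^ tK F' I.2.2)) (F' (pK F' I.2.2) * pK F' I.2.2)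
        (sg F' (pK F' I.2.2)) (by unfold sg; omega)
        (group_yes I I.2.2 _ _ _ (rK_spec F' I.2.2) hy)
  · have h1 := gap_no (group I (tK F' I.2.2) (rK F' I.2.2) (pK F' I.2.2)
        ((I.1 + rK F' I.2.2) ^ tK F' I.2.2)) (F' (pK F' I.2.2) * pK F' I.2.2)
        (sg F' (pK F' I.2.2)) le_rfl
        (group_no I I.2.2 _ _ _ (rK_spec F' I.2.2) hn)
    have h2 : F (pK F' I.2.2) * (pK F' I.2.2 : ℕ) ≤ ((F' (pK F' I.2.2) * pK F' I.2.2 : ℕ) : ℝ) := by
      push_cast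
      exact mul_le_mul_of_nonneg_right (hF _) (Nat.cast_nonneg _)
    exact lt_of_le_of_lt h2 (by exact_mod_cast h1)

theorem scRed (F : ℕ → ℝ) (F' : ℕ → ℕ) (hF' : Computable F') (hF : ∀ k, F k ≤ F' k) :
    FptRed (SC (gB F')) (GapDS F) := by
  refine ⟨fun k => [0, 0, 0, F' k * k, sg F' k, gB F' k, 1], id,
    fun x => redS x.1 x.2 x.1.1.length, dsm_adv_computable hF', Computable.id, ?_, fun J => ?_⟩
  · exact redS_polyTime.comp (f := fun x : SI × List ℕ => (x.1, x.2, x.1.1.length)) (by fun_prop)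
  · have hpar : (SC (gB F')).par J = J.2.2 := rfl
    simp only [hpar]
    have key : J.2.1 ^ gB F' J.2.2 ≤ J.1.length →
        redS J [0, 0, 0, F' J.2.2 * J.2.2, sg F' J.2.2, gB F' J.2.2, 1] J.1.length =
        gapInst J (F' J.2.2 * J.2.2) (sg F' J.2.2) (sg F' J.2.2 ^ J.2.2)
          (J.2.1 ^ (sg F' J.2.2 ^ J.2.2)) := by
      intro h
      have h2 : cp J.2.1 (gB F' J.2.2) (1 * J.1.length) = J.2.1 ^ gB F' J.2.2 :=
        cp_eq_pow (by rw [one_mul]; exact h)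
      have h4 : sg F' J.2.2 ^ J.2.2 = gB F' J.2.2 := rfl
      rw [h4, ← h2]
      rfl
    refine ⟨le_rfl, fun hy => ?_, fun hn => ?_⟩
    · rw [key hy.1]
      exact gap_yes J _ _ (by unfold sg; omega) hy.2
    · rw [key hn.1]
      have h1 := gap_no J (F' J.2.2 * J.2.2) (sg F' J.2.2) le_rfl hn.2
      have h2 : F J.2.2 * (J.2.2 : ℕ) ≤ ((F' J.2.2 * J.2.2 : ℕ) : ℝ) := by
        push_cast
        exact mul_le_mul_of_nonneg_right (hF _) (Nat.cast_nonneg _)
      exact lt_of_le_of_lt h2 (by exact_mod_cast h1)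

end Pool.Agent.H78DS
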