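import Pool.Agent.H78DS.BTrans
import Pool.Agent.H78DS.BoostMain
import Pool.Agent.H78DS.Main

/-! # H78DS/BFinal: bounded-error randomised fpt, and the properties of the two families -/

set_option autoImplicit false

namespace Pool.Agent.H78DS

open Filter Pool.Agent.PT

variable {X Y : Type} [Enc X] [Enc Y]

/-- the problem without instances -/
def Triv : Prob Unit := ⟨fun _ => False, fun _ => False, fun _ => 0⟩

theorem inBPFPT_iff (P : Prob X) : InBPFPT P ↔ BRed P Triv := by
  constructor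
  · rintro ⟨h, R, A, hh, hR, hA, H⟩
    refine ⟨h, fun _ => 0, R, fun _ => 1, fun z => Sum.inr (A z.1), hh, Computable.const 0, hR,
      by fun_prop, PolyTime.inr (hA.comp (f := fun z : ((X × List ℕ × List Bool) × ℕ) × List Bool =>
        z.1) (by fun_prop)), fun x m _ => ⟨fun r as y hy => ?_, fun O _ _ => H x m⟩⟩
    simp at hy
  · rintro ⟨h, G, R, N, next, hh, hG, hR, hN, hnext, H⟩
    have hN' : PolyTime (fun z : (X × List ℕ × List Bool) × ℕ => N ((z.1.1, z.1.2.1), z.2)) :=
      hN.comp (f := fun z : (X × List ℕ × List Bool) × ℕ => ((z.1.1, z.1.2.1), z.2)) (by fun_prop)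
    have hn' : PolyTime (fun z : (X × List ℕ × List Bool) × ℕ => next (z, [])) :=
      hnext.comp (f := fun z : (X × List ℕ × List Bool) × ℕ => (z, ([] : List Bool))) (by fun_prop)
    have hA : PolyTime (fun z : (X × List ℕ × List Bool) × ℕ =>
        if N ((z.1.1, z.1.2.1), z.2) = 0 then false else
          Sum.casesOn (motive := fun _ => Bool) (next (z, [])) (fun _ => false) (fun b => b)) :=
      PolyTime.ite (P := fun z : (X × List ℕ × List Bool) × ℕ => N ((z.1.1, z.1.2.1), z.2) = 0)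
        (PolyTime.decide_eq hN' (by fun_prop)) (by fun_prop)
        (PolyTime.sumCases (f := fun _ _ => false) (g := fun _ b => b) hn' (by fun_prop)
          (by fun_prop))
    refine ⟨h, R, _, hh, hR, hA, fun x m => ?_⟩
    have key : P.yes x ∨ P.no x → ∀ r : List Bool,
        runO (fun as => next (((x, h (P.par x), r), m), as)) (fun _ => false)
          (N ((x, h (P.par x)), m)) [] =
        (if N ((x, h (P.par x)), m) = 0 then false else
          Sum.casesOn (motive := fun _ => Bool) (next (((x, h (P.par x), r), m), []))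
            (fun _ => false) (fun b => b)) := by
      intro hx r
      split_ifs with hc
      · rw [hc]; rfl
      · obtain ⟨n, hn⟩ : ∃ n, N ((x, h (P.par x)), m) = n + 1 := ⟨_, (Nat.succ_pred_eq_of_ne_zero hc).symm⟩
        rw [hn, runO]
        cases hq : next (((x, h (P.par x), r), m), []) with
        | inr b => rfl
        | inl y =>
          exfalso
          have := ((H x m hx).1 r [] y hq).2
          rcases this with h | h <;> exact h
    constructor
    · intro hyes
      have h1 := ((H x m (Or.inl hyes)).2 (fun _ => false) (fun _ h => h.elim) (fun _ _ => rfl)).1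
        hyes
      simp only [key (Or.inl hyes)] at h1
      exact h1
    · intro hno
      have h1 := ((H x m (Or.inr hno)).2 (fun _ => false) (fun _ h => h.elim) (fun _ _ => rfl)).2
        hno
      simp only [key (Or.inr hno)] at h1
      exact h1

theorem gap_par (F : ℕ → ℝ) : PolyTime (GapDS F).par := by
  show PolyTime (fun I : GI => I.2.2)
  fun_prop

theorem sc_par (g : ℕ → ℕ) : PolyTime (SC g).par := by
  show PolyTime (fun I : SI => I.2.2)
  fun_prop

theorem gap_disj (F : ℕ → ℕ) (hF : ∀ k, 1 ≤ F k) (I : GI) (h : (GapDS (fun k => (F k : ℝ))).yes I) :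
    ¬ (GapDS (fun k => (F k : ℝ))).no I := by
  intro h'
  have h1 : gam I ≤ I.2.2 := h
  have h2 : (F I.2.2 : ℝ) * I.2.2 < gam I := h'
  have h3 : F I.2.2 * I.2.2 < gam I := by exact_mod_cast h2
  have h4 : 1 * I.2.2 ≤ F I.2.2 * I.2.2 := Nat.mul_le_mul_right _ (hF _)
  omega

theorem sc_disj (g : ℕ → ℕ) (I : SI) (h : (SC g).yes I) : ¬ (SC g).no I := fun h' => h'.2 h.2

theorem gB_pos (F : ℕ → ℕ) (k : ℕ) : 1 ≤ gB F k := by
  unfold gB sg
  exact Nat.one_le_pow _ _ (by omega)

theorem boostB (g : ℕ → ℕ) (hg : Computable g) (hg1 : ∀ k, 1 ≤ g k) :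
    BRed (GapDS (fun k => (g k : ℝ))) (SC g) := (boost g hg hg1).toM.toB

theorem linRed (F : ℕ → ℕ) (hF : Computable F) :
    FptRed (SC (gB F)) (GapDS (fun k => (F k : ℝ))) := scRed _ F hF (fun _ => le_rfl)

/-- The two families are equivalent. -/
theorem families :
    (∀ g : ℕ → ℕ, Computable g → (∀ k, 1 ≤ g k) → BRed (GapDS (fun k => (g k : ℝ))) (SC g)) ∧
    (∀ F : ℕ → ℕ, Computable F → ∃ g : ℕ → ℕ, Computable g ∧ (∀ k, 1 ≤ g k) ∧
      FptRed (SC g) (GapDS (fun k => (F k : ℝ)))) ∧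
    ((∀ F : ℕ → ℕ, Computable F → (∀ k, 1 ≤ F k) → BRed kDS (GapDS (fun k => (F k : ℝ)))) ↔
      ∀ g : ℕ → ℕ, Computable g → (∀ k, 1 ≤ g k) → BRed kDS (SC g)) ∧
    ((∃ F : ℕ → ℕ, Computable F ∧ (∀ k, 1 ≤ F k) ∧ InBPFPT (GapDS (fun k => (F k : ℝ)))) ↔
      ∃ g : ℕ → ℕ, Computable g ∧ (∀ k, 1 ≤ g k) ∧ InBPFPT (SC g)) := by
  refine ⟨boostB, fun F hF => ⟨gB F, gB_computable hF, gB_pos F, linRed F hF⟩, ⟨?_, ?_⟩, ⟨?_, ?_⟩⟩
  · intro h g hg hg1
    exact (h g hg hg1).trans (gap_par _) (gap_disj g hg1) (boostB g hg hg1)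
  · intro h F hF hF1
    exact (h (gB F) (gB_computable hF) (gB_pos F)).trans (sc_par _) (sc_disj _) (linRed F hF).toB
  · rintro ⟨F, hF, hF1, h⟩
    refine ⟨gB F, gB_computable hF, gB_pos F, (inBPFPT_iff _).2 ?_⟩
    exact (linRed F hF).toB.trans (gap_par _) (gap_disj F hF1) ((inBPFPT_iff _).1 h)
  · rintro ⟨g, hg, hg1, h⟩
    refine ⟨g, hg, hg1, (inBPFPT_iff _).2 ?_⟩
    exact (boostB g hg hg1).trans (sc_par _) (sc_disj _) ((inBPFPT_iff _).1 h)

end Pool.Agent.H78DS
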