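import Pool.Agent.H78DS.Blocks
import Pool.Agent.PT.More

/-! # H78DS/Count: counting lemmas for tapes; evaluation of polynomials in polynomial time -/

set_option autoImplicit false

namespace Pool.Agent.H78DS

open Finset Pool.Agent.PT

theorem polyEval_polyTime {α : Type*} [Enc α] (P : Polynomial ℕ) {f : α → ℕ} (hf : PolyTime f) :
    PolyTime (fun x => P.eval (f x)) := by
  induction P using Polynomial.induction_on' with
  | add p q hp hq =>
    refine (hp.natAdd hq).congr fun x => ?_
    rw [Polynomial.eval_add]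
  | monomial n a =>
    have h : PolyTime (fun x => a * f x ^ n) := by fun_prop
    refine h.congr fun x => ?_
    rw [Polynomial.eval_monomial]

/-- tapes as pairs of two tapes -/
theorem card_pair (w n : ℕ) (C : List Bool → List Bool → Bool) :
    (univ.filter (fun r : Fin (w + n) → Bool =>
      C ((List.ofFn r).take w) ((List.ofFn r).drop w) = true)).card =
    (univ.filter (fun p : (Fin w → Bool) × (Fin n → Bool) =>
      C (List.ofFn p.1) (List.ofFn p.2) = true)).card := by
  symm
  apply Finset.card_bij (fun p _ => Fin.append p.1 p.2)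
  · rintro ⟨b, c⟩ h
    simp only [Finset.mem_filter, Finset.mem_univ, true_and] at h ⊢
    rw [List.ofFn_fin_append]
    rw [List.take_left' (by simp), List.drop_left' (by simp)]
    exact h
  · rintro ⟨b, c⟩ _ ⟨b', c'⟩ _ h
    simp only at h
    refine Prod.ext ?_ ?_
    · funext i
      have := congrFun h (Fin.castAdd n i)
      simpa using this
    · funext i
      have := congrFun h (Fin.natAdd w i)
      simpa using this
  · intro r hr
    refine ⟨(fun i => r (Fin.castAdd n i), fun i => r (Fin.natAdd w i)), ?_, ?_⟩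
    · simp only [Finset.mem_filter, Finset.mem_univ, true_and] at hr ⊢
      have h : r = Fin.append (fun i => r (Fin.castAdd n i)) (fun i => r (Fin.natAdd w i)) := by
        rw [Fin.append_castAdd_natAdd]
      rw [h, List.ofFn_fin_append, List.take_left' (by simp), List.drop_left' (by simp)] at hr
      exact hr
    · exact Fin.append_castAdd_natAdd

/-- tapes with a condition on a prefix -/
theorem card_prefix (w m : ℕ) (h : w ≤ m) (P : List Bool → Bool) :
    (univ.filter (fun r : Fin m → Bool => P ((List.ofFn r).take w) = true)).card =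
    (univ.filter (fun b : Fin w → Bool => P (List.ofFn b) = true)).card * 2 ^ (m - w) := by
  obtain ⟨n, rfl⟩ := Nat.exists_eq_add_of_le h
  have h1 := card_append w n P (fun _ => true)
  simp only [and_true] at h1
  rw [h1]
  congr 1
  simp

/-- the lists of length `< n` -/
def blists (n : ℕ) : Finset (List Bool) :=
  (Finset.range n).biUnion (fun j => (univ : Finset (Fin j → Bool)).image List.ofFn)

theorem mem_blists {n : ℕ} {l : List Bool} (h : l.length < n) : l ∈ blists n := by
  unfold blists
  rw [Finset.mem_biUnion]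
  refine ⟨l.length, Finset.mem_range.2 h, ?_⟩
  rw [Finset.mem_image]
  exact ⟨fun i => l.get i, Finset.mem_univ _, by simp⟩

theorem card_blists (n : ℕ) : (blists n).card ≤ 2 ^ n := by
  unfold blists
  refine Finset.card_biUnion_le.trans ?_
  have h : ∀ n : ℕ, ∑ j ∈ Finset.range n, 2 ^ j ≤ 2 ^ n := by
    intro n
    induction n with
    | zero => simp
    | succ n ih => rw [Finset.sum_range_succ, pow_succ]; omega
  refine (Finset.sum_le_sum (fun j _ => Finset.card_image_le)).trans ?_
  simpa using h n

/-- counting of the pairs in a union -/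
theorem count_union (k R m n1 : ℕ) (E : List Bool → List Bool → Bool) (A : List Bool → Bool)
    (Bd : List Bool → List Bool → List Bool → Bool)
    (hE : ∀ r1 r2, r1.length = k → r2.length = R → E r1 r2 = true →
      A r1 = true ∨ ∃ as ∈ blists n1, Bd as r1 r2 = true)
    (hA : 2 ^ (m + 1) * (univ.filter (fun b : Fin k → Bool => A (List.ofFn b) = true)).card ≤ 2 ^ k)
    (hB : ∀ as ∈ blists n1, ∀ r1 : List Bool, r1.length = k →
      2 ^ (m + 1 + n1) * (univ.filter (fun c : Fin R → Bool => Bd as r1 (List.ofFn c) = true)).card ≤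
        2 ^ R) :
    2 ^ m * (univ.filter (fun r : Fin (k + R) → Bool =>
      E ((List.ofFn r).take k) ((List.ofFn r).drop k) = true)).card ≤ 2 ^ (k + R) := by
  rw [card_pair]
  set SA := univ.filter (fun b : Fin k → Bool => A (List.ofFn b) = true) with hSA
  let SB : List Bool → Finset ((Fin k → Bool) × (Fin R → Bool)) := fun as =>
    univ.filter (fun p => Bd as (List.ofFn p.1) (List.ofFn p.2) = true)
  have hsub : (univ.filter (fun p : (Fin k → Bool) × (Fin R → Bool) =>
      E (List.ofFn p.1) (List.ofFn p.2) = true)) ⊆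
      (SA ×ˢ (univ : Finset (Fin R → Bool))) ∪ (blists n1).biUnion SB := by
    intro p hp
    have hp' := (Finset.mem_filter.1 hp).2
    rcases hE _ _ (by simp) (by simp) hp' with h | ⟨as, has, h⟩
    · exact Finset.mem_union_left _ (Finset.mem_product.2
        ⟨Finset.mem_filter.2 ⟨Finset.mem_univ _, h⟩, Finset.mem_univ _⟩)
    · exact Finset.mem_union_right _ (Finset.mem_biUnion.2
        ⟨as, has, Finset.mem_filter.2 ⟨Finset.mem_univ _, h⟩⟩)
  have h1 : (univ.filter (fun p : (Fin k → Bool) × (Fin R → Bool) =>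
      E (List.ofFn p.1) (List.ofFn p.2) = true)).card ≤
      SA.card * 2 ^ R + ∑ as ∈ blists n1, (SB as).card := by
    refine (Finset.card_le_card hsub).trans ((Finset.card_union_le _ _).trans ?_)
    apply add_le_add
    · rw [Finset.card_product]; simp
    · exact Finset.card_biUnion_le
  have h2 : ∀ as ∈ blists n1, 2 ^ (m + 1 + n1) * (SB as).card ≤ 2 ^ (k + R) := by
    intro as has
    have h3 : (SB as).card = ∑ b : Fin k → Bool,
        (univ.filter (fun c : Fin R → Bool => Bd as (List.ofFn b) (List.ofFn c) = true)).card := by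
      simp only [SB, Finset.card_filter]
      rw [Fintype.sum_prod_type]
    rw [h3, Finset.mul_sum]
    calc ∑ b : Fin k → Bool, 2 ^ (m + 1 + n1) *
          (univ.filter (fun c : Fin R → Bool => Bd as (List.ofFn b) (List.ofFn c) = true)).card ≤
          ∑ _b : Fin k → Bool, 2 ^ R := Finset.sum_le_sum (fun b _ => hB as has _ (by simp))
      _ = 2 ^ (k + R) := by simp [pow_add]
  have h3 : 2 ^ (m + 1 + n1) * ∑ as ∈ blists n1, (SB as).card ≤ 2 ^ n1 * 2 ^ (k + R) := by
    rw [Finset.mul_sum]
    calc ∑ as ∈ blists n1, 2 ^ (m + 1 + n1) * (SB as).card ≤ ∑ _as ∈ blists n1, 2 ^ (k + R) :=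
          Finset.sum_le_sum h2
      _ = (blists n1).card * 2 ^ (k + R) := by rw [Finset.sum_const, smul_eq_mul]
      _ ≤ 2 ^ n1 * 2 ^ (k + R) := Nat.mul_le_mul_right _ (card_blists n1)
  have h4 : 2 ^ (m + 1) * ∑ as ∈ blists n1, (SB as).card ≤ 2 ^ (k + R) := by
    have h5 : 2 ^ n1 * (2 ^ (m + 1) * ∑ as ∈ blists n1, (SB as).card) ≤ 2 ^ n1 * 2 ^ (k + R) := by
      calc _ = 2 ^ (m + 1 + n1) * ∑ as ∈ blists n1, (SB as).card := by rw [pow_add]; ring
        _ ≤ _ := h3
    exact Nat.le_of_mul_le_mul_left h5 (by positivity)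
  have h5 : 2 ^ (m + 1) * (SA.card * 2 ^ R) ≤ 2 ^ (k + R) := by
    calc 2 ^ (m + 1) * (SA.card * 2 ^ R) = (2 ^ (m + 1) * SA.card) * 2 ^ R := by ring
      _ ≤ 2 ^ k * 2 ^ R := Nat.mul_le_mul_right _ hA
      _ = _ := by rw [pow_add]
  have h6 := Nat.mul_le_mul_left (2 ^ (m + 1)) h1
  rw [Nat.mul_add] at h6
  have h7 : 2 ^ (m + 1) * (univ.filter (fun p : (Fin k → Bool) × (Fin R → Bool) =>
      E (List.ofFn p.1) (List.ofFn p.2) = true)).card ≤ 2 * 2 ^ (k + R) := by omega
  have h8 : 2 ^ (m + 1) * (univ.filter (fun p : (Fin k → Bool) × (Fin R → Bool) =>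
      E (List.ofFn p.1) (List.ofFn p.2) = true)).card = 2 * (2 ^ m *
      (univ.filter (fun p : (Fin k → Bool) × (Fin R → Bool) =>
      E (List.ofFn p.1) (List.ofFn p.2) = true)).card) := by rw [pow_succ]; ring
  omega

end Pool.Agent.H78DS
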