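import Pool.Agent.H78DS.RTDefs

/-! # H78DS/Trans: composition of fpt-reductions

`tab h m` = concatenation of the rows `(h j).length :: h j` for `j ≤ m`; `row l j` extracts the row `j`.
* `row_tab`: induction (`List.range_succ`, or first for `(List.range' …)`): after `j` steps `l ↦ l.drop (l.headD 0 + 1)` the list starts with the row
`j`.
* `row_polyTime`: `PolyTime.iterate'` (the iterates are sublists of `l`, their size is at most `sz l`).
* `tab_computable`: `Computable.nat_rec` on `m` with `tab h (m + 1) = tab h m ++ (h (m + 1)).length :: h (m + 1)`.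
* `FptRed.trans`: `h'' k = (h k).length :: (h k ++ tab h' (G k))`, `G'' k = ∑_{j ≤ G k} G' j`,
`R'' (x, l) = R' (y, row (l.tail.drop l₀) (Q.par y))` with `y = R (x, l.tail.take l₀)`, `l₀ = l.headD 0`.
* `RTRed.of_fptRed`: the same `h''`, `G''`, and `R'', N'', next''` are those of the second reduction at `(y, row …)`. -/

set_option autoImplicit false

namespace Pool.Agent.H78DS

open Pool.Agent.PT

/-- table of a list valued function -/
def tab (h : ℕ → List ℕ) (m : ℕ) : List ℕ := (List.range (m + 1)).flatMap (fun j => (h j).length :: h j)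

/-- the row `j` of a table -/
def row (l : List ℕ) (j : ℕ) : List ℕ :=
  (((fun l : List ℕ => l.drop (l.headD 0 + 1))^[j] l).tail).take
    (((fun l : List ℕ => l.drop (l.headD 0 + 1))^[j] l).headD 0)

private theorem stp_row (a rest : List ℕ) :
    List.drop (((a.length :: a) ++ rest).headD 0 + 1) ((a.length :: a) ++ rest) = rest := by
  show ((a.length :: a) ++ rest).drop (a.length + 1) = rest
  have h : (a.length :: a).length = a.length + 1 := rfl
  rw [← h, List.drop_left]

private theorem stp_iter (h : ℕ → List ℕ) : ∀ (j n s : ℕ),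
    (fun l : List ℕ => l.drop (l.headD 0 + 1))^[j]
      ((List.range' s (j + n)).flatMap (fun j => (h j).length :: h j)) =
      (List.range' (s + j) n).flatMap (fun j => (h j).length :: h j) := by
  intro j
  induction j with
  | zero => intro n s; rw [Nat.zero_add, Nat.add_zero]; rfl
  | succ j ih =>
    intro n s
    have e : j + 1 + n = (j + n) + 1 := by omega
    rw [Function.iterate_succ_apply, e, List.range'_succ, List.flatMap_cons, stp_row, ih]
    have e2 : s + 1 + j = s + (j + 1) := by omega
    rw [e2]

theorem row_tab (h : ℕ → List ℕ) (m j : ℕ) (hj : j ≤ m) : row (tab h m) j = h j := by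
  have e : tab h m = (List.range' 0 (j + ((m - j) + 1))).flatMap (fun j => (h j).length :: h j) := by
    have e1 : j + ((m - j) + 1) = m + 1 := by omega
    rw [tab, List.range_eq_range', e1]
  rw [row, e, stp_iter h, Nat.zero_add, List.range'_succ, List.flatMap_cons]
  show ((h j ++ _).take (h j).length) = h j
  exact List.take_left

private theorem iter_sublist (l : List ℕ) (i : ℕ) :
    ((fun l : List ℕ => l.drop (l.headD 0 + 1))^[i] l).Sublist l := by
  induction i with
  | zero => exact List.Sublist.refl _
  | succ i ih =>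
    rw [Function.iterate_succ_apply']
    exact (List.drop_sublist _ _).trans ih

theorem row_polyTime : PolyTime (fun p : List ℕ × ℕ => row p.1 p.2) := by
  have h := PolyTime.iterate' (α := List ℕ × ℕ)
    (f := fun _ (l : List ℕ) => l.drop (l.headD 0 + 1)) (n := fun p => p.2)
    (g := fun p => p.1) (by fun_prop) (by fun_prop) (by fun_prop) (s := fun p => sz p)
    (by fun_prop) (fun p i _ => by
      refine (sz_le_of_sublist (iter_sublist p.1 i)).trans ?_
      rw [sz_prod]
      omega)
  exact PolyTime.take (h.headD (PolyTime.const 0)) h.tail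

theorem tab_computable {h : ℕ → List ℕ} {G : ℕ → ℕ} (hh : Computable h) (hG : Computable G) :
    Computable (fun k => tab h (G k)) := by
  have e : ∀ m, tab h m = Nat.rec (motive := fun _ => List ℕ) ((h 0).length :: h 0)
      (fun y IH => IH ++ ((h (y + 1)).length :: h (y + 1))) m := by
    intro m
    induction m with
    | zero => simp [tab]
    | succ m ih =>
      have e1 : tab h (m + 1) = tab h m ++ ((h (m + 1)).length :: h (m + 1)) := by
        rw [tab, List.range_succ, List.flatMap_append, ← tab]
        simp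
      rw [e1, ih]
  have h1 : Computable₂ (fun (_ : ℕ) (p : ℕ × List ℕ) =>
      p.2 ++ ((h (p.1 + 1)).length :: h (p.1 + 1))) := by
    have hs : Computable (fun q : ℕ × (ℕ × List ℕ) => h (q.2.1 + 1)) :=
      hh.comp (Computable.succ.comp (Computable.fst.comp Computable.snd))
    exact Computable.list_append.comp (Computable.snd.comp Computable.snd)
      (Computable.list_cons.comp (Computable.list_length.comp hs) hs)
  have h2 := Computable.nat_rec hG (Computable.const ((h 0).length :: h 0)) h1
  refine h2.of_eq fun k => ?_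
  rw [e]

private theorem sum_computable {g G : ℕ → ℕ} (hg : Computable g) (hG : Computable G) :
    ∃ G2 : ℕ → ℕ, Computable G2 ∧ ∀ k j, j ≤ G k → g j ≤ G2 k := by
  have h1 : Computable₂ (fun (_ : ℕ) (p : ℕ × ℕ) => p.2 + g (p.1 + 1)) := by
    have hs : Computable (fun q : ℕ × (ℕ × ℕ) => g (q.2.1 + 1)) :=
      hg.comp (Computable.succ.comp (Computable.fst.comp Computable.snd))
    exact (Primrec.nat_add.to_comp).comp (Computable.snd.comp Computable.snd) hs
  refine ⟨_, Computable.nat_rec hG (Computable.const (g 0)) h1, ?_⟩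
  intro k j hj
  have key : ∀ m, j ≤ m → g j ≤ Nat.rec (motive := fun _ => ℕ) (g 0)
      (fun y IH => IH + g (y + 1)) m := by
    intro m
    induction m with
    | zero =>
      intro h0
      have : j = 0 := by omega
      rw [this]
      exact le_refl _
    | succ m ih =>
      intro h0
      rcases Nat.lt_or_ge m j with hlt | hge
      · have : j = m + 1 := by omega
        rw [this]
        exact Nat.le_add_left _ _
      · exact (ih hge).trans (Nat.le_add_right _ _)
  exact key (G k) hj

variable {X Y Z : Type} [Enc X] [Enc Y] [Enc Z]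

/-- the combined advice -/
private def adv (h h' : ℕ → List ℕ) (G : ℕ → ℕ) (k : ℕ) : List ℕ :=
  (h k).length :: (h k ++ tab h' (G k))

private theorem adv_computable {h h' : ℕ → List ℕ} {G : ℕ → ℕ} (hh : Computable h)
    (hh' : Computable h') (hG : Computable G) : Computable (adv h h' G) :=
  Computable.list_cons.comp (Computable.list_length.comp hh)
    (Computable.list_append.comp hh (tab_computable hh' hG))

/-- the first reduction and the advice for the second one -/
private def rd (par : Y → ℕ) (R : X × List ℕ → Y) (p : X × List ℕ) : Y × List ℕ :=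
  (R (p.1, p.2.tail.take (p.2.headD 0)),
    row (p.2.tail.drop (p.2.headD 0)) (par (R (p.1, p.2.tail.take (p.2.headD 0)))))

private theorem rd_polyTime {par : Y → ℕ} (hpar : PolyTime par) {R : X × List ℕ → Y}
    (hR : PolyTime R) : PolyTime (rd par R) := by
  have h1 : PolyTime (fun p : X × List ℕ => R (p.1, p.2.tail.take (p.2.headD 0))) :=
    hR.comp (by fun_prop)
  refine h1.pair ?_
  exact row_polyTime.comp (PolyTime.pair (by fun_prop) (hpar.comp h1))

private theorem rd_adv (par : Y → ℕ) (R : X × List ℕ → Y) (h h' : ℕ → List ℕ) (G : ℕ → ℕ)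
    (x : X) (k : ℕ) (hk : par (R (x, h k)) ≤ G k) :
    rd par R (x, adv h h' G k) = (R (x, h k), h' (par (R (x, h k)))) := by
  have e1 : (adv h h' G k).tail.take ((adv h h' G k).headD 0) = h k := by
    show (h k ++ tab h' (G k)).take (h k).length = h k
    exact List.take_left
  have e2 : (adv h h' G k).tail.drop ((adv h h' G k).headD 0) = tab h' (G k) := by
    show (h k ++ tab h' (G k)).drop (h k).length = tab h' (G k)
    exact List.drop_left
  unfold rd
  simp only [e1, e2]
  rw [row_tab h' (G k) _ hk]

theorem FptRed.trans {P : Prob X} {Q : Prob Y} {S : Prob Z} (hQ : PolyTime Q.par) (h : FptRed P Q)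
    (h' : FptRed Q S) : FptRed P S := by
  obtain ⟨a, G, R, ha, hG, hR, hspec⟩ := h
  obtain ⟨a', G', R', ha', hG', hR', hspec'⟩ := h'
  obtain ⟨G2, hG2, hle⟩ := sum_computable hG' hG
  refine ⟨adv a a' G, G2, fun p => R' (rd Q.par R p), adv_computable ha ha' hG, hG2,
    hR'.comp (rd_polyTime hQ hR), fun x => ?_⟩
  obtain ⟨h1, h2, h3⟩ := hspec x
  obtain ⟨h4, h5, h6⟩ := hspec' (R (x, a (P.par x)))
  have key := rd_adv Q.par R a a' G x (P.par x) h1
  simp only [key]
  exact ⟨h4.trans (hle _ _ h1), fun hx => h5 (h2 hx), fun hx => h6 (h3 hx)⟩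

private theorem rt_aux {S : Prob Z} {R' N' : Y × List ℕ → ℕ}
    {next' : (Y × List ℕ × List Bool) × List Bool → Z ⊕ Bool} (w w' : Y × List ℕ) (hw : w = w')
    {yes no yes' no' : Prop} {K K' : ℕ} (hK : K ≤ K') (hyes : yes' → yes) (hno : no' → no)
    (h : (∀ (r as : List Bool) (y : Z), next' ((w'.1, w'.2, r), as) = Sum.inl y →
        S.par y ≤ K ∧ (S.yes y ∨ S.no y)) ∧
      ∀ O : Z → Bool, (∀ y, S.yes y → O y = true) → (∀ y, S.no y → O y = false) →
        (yes → 2 ^ R' w' ≤ 2 * (Finset.univ.filter
          (fun r : Fin (R' w') → Bool =>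
            runO (fun as => next' ((w'.1, w'.2, List.ofFn r), as)) O (N' w') [] =
              true)).card) ∧
        (no → ∀ r : Fin (R' w') → Bool,
          runO (fun as => next' ((w'.1, w'.2, List.ofFn r), as)) O (N' w') [] =
            false)) :
    (∀ (r as : List Bool) (y : Z), next' ((w.1, w.2, r), as) = Sum.inl y →
        S.par y ≤ K' ∧ (S.yes y ∨ S.no y)) ∧
      ∀ O : Z → Bool, (∀ y, S.yes y → O y = true) → (∀ y, S.no y → O y = false) →
        (yes' → 2 ^ R' w ≤ 2 * (Finset.univ.filter
          (fun r : Fin (R' w) → Bool =>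
            runO (fun as => next' ((w.1, w.2, List.ofFn r), as)) O (N' w) [] =
              true)).card) ∧
        (no' → ∀ r : Fin (R' w) → Bool,
          runO (fun as => next' ((w.1, w.2, List.ofFn r), as)) O (N' w) [] =
            false) := by
  subst hw
  refine ⟨fun r as y hy => ?_, fun O hO1 hO2 => ?_⟩
  · obtain ⟨h6, h7⟩ := h.1 r as y hy
    exact ⟨h6.trans hK, h7⟩
  · obtain ⟨h6, h7⟩ := h.2 O hO1 hO2
    exact ⟨fun hx => h6 (hyes hx), fun hx => h7 (hno hx)⟩

theorem RTRed.of_fptRed {P : Prob X} {Q : Prob Y} {S : Prob Z} (hQ : PolyTime Q.par)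
    (h : FptRed P Q) (h' : RTRed Q S) : RTRed P S := by
  obtain ⟨a, G, R, ha, hG, hR, hspec⟩ := h
  obtain ⟨a', G', R', N', next', ha', hG', hR', hN', hnext', hspec'⟩ := h'
  obtain ⟨G2, hG2, hle⟩ := sum_computable hG' hG
  have hrd := rd_polyTime hQ hR
  refine ⟨adv a a' G, G2, fun p => R' (rd Q.par R p), fun p => N' (rd Q.par R p),
    fun q => next' (((rd Q.par R (q.1.1, q.1.2.1)).1, (rd Q.par R (q.1.1, q.1.2.1)).2, q.1.2.2), q.2),
    adv_computable ha ha' hG, hG2, hR'.comp hrd, hN'.comp hrd, ?_, fun x => ?_⟩
  · have h1 : PolyTime (fun q : (X × List ℕ × List Bool) × List Bool =>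
        rd Q.par R (q.1.1, q.1.2.1)) := hrd.comp (by fun_prop)
    exact hnext'.comp (PolyTime.pair (PolyTime.pair (PolyTime.fst h1)
      (PolyTime.pair (PolyTime.snd h1) (by fun_prop))) (by fun_prop))
  · obtain ⟨h1, h2, h3⟩ := hspec x
    have key := rd_adv Q.par R a a' G x (P.par x) h1
    exact rt_aux (rd Q.par R (x, adv a a' G (P.par x))) _ key (hle _ _ h1) h2 h3
      (hspec' (R (x, a (P.par x))))

end Pool.Agent.H78DS
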