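import Pool.Agent.H78DS.BDefs
import Pool.Agent.H78DS.Count
import Pool.Agent.H78DS.Trans

/-! # H78DS/BTrans: transitivity of bounded-error randomised fpt Turing reductions -/

set_option autoImplicit false

namespace Pool.Agent.H78DS

open Filter Pool.Agent.PT

/-! ### The combined advice -/

/-- the combined advice -/
def advT (h h' : ℕ → List ℕ) (G : ℕ → ℕ) (k : ℕ) : List ℕ :=
  (h k).length :: (h k ++ tab h' (G k))

theorem advT_computable {h h' : ℕ → List ℕ} {G : ℕ → ℕ} (hh : Computable h)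
    (hh' : Computable h') (hG : Computable G) : Computable (advT h h' G) :=
  Computable.list_cons.comp (Computable.list_length.comp hh)
    (Computable.list_append.comp hh (tab_computable hh' hG))

/-- first part -/
def lA (l : List ℕ) : List ℕ := l.tail.take (l.headD 0)

/-- second part -/
def lB (l : List ℕ) : List ℕ := l.tail.drop (l.headD 0)

theorem lA_advT (h h' : ℕ → List ℕ) (G : ℕ → ℕ) (k : ℕ) : lA (advT h h' G k) = h k := by
  show (h k ++ tab h' (G k)).take (h k).length = h k
  exact List.take_left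

theorem row_lB_advT (h h' : ℕ → List ℕ) (G : ℕ → ℕ) (k j : ℕ) (hj : j ≤ G k) :
    row (lB (advT h h' G k)) j = h' j := by
  have h1 : lB (advT h h' G k) = tab h' (G k) := by
    show (h k ++ tab h' (G k)).drop (h k).length = tab h' (G k)
    exact List.drop_left
  rw [h1, row_tab h' (G k) j hj]

theorem sumT_computable {g G : ℕ → ℕ} (hg : Computable g) (hG : Computable G) :
    ∃ G2 : ℕ → ℕ, Computable G2 ∧ ∀ k j, j ≤ G k → g j ≤ G2 k := by
  have h1 : Computable₂ (fun (_ : ℕ) (p : ℕ × ℕ) => p.2 + g (p.1 + 1)) := by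
    have hs : Computable (fun q : ℕ × (ℕ × ℕ) => g (q.2.1 + 1)) :=
      hg.comp (Computable.succ.comp (Computable.fst.comp Computable.snd))
    exact (Primrec.nat_add.to_comp).comp (Computable.snd.comp Computable.snd) hs
  refine ⟨_, Computable.nat_rec hG (Computable.const (g 0)) h1, ?_⟩
  intro k j hj
  have key : ∀ m, j ≤ m → g j ≤ Nat.rec (motive := fun _ => ℕ) (g 0)
      (fun y IH => IH + g (y + 1)) m := by
    intro m
    induction m with
    | zero =>
      intro h0
      have : j = 0 := by omega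
      rw [this]
      exact le_refl _
    | succ m ih =>
      intro h0
      rcases Nat.lt_or_ge m j with hlt | hge
      · have : j = m + 1 := by omega
        rw [this]
        exact Nat.le_add_left _ _
      · exact (ih hge).trans (Nat.le_add_right _ _)
  exact key (G k) hj

@[fun_prop]
theorem lA_polyTime {α : Type} [Enc α] {f : α → List ℕ} (hf : PolyTime f) :
    PolyTime (fun x => lA (f x)) := by
  unfold lA; fun_prop

@[fun_prop]
theorem lB_polyTime {α : Type} [Enc α] {f : α → List ℕ} (hf : PolyTime f) :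
    PolyTime (fun x => lB (f x)) := by
  unfold lB; fun_prop

@[fun_prop]
theorem row_polyTime' {α : Type} [Enc α] {f : α → List ℕ} {g : α → ℕ} (hf : PolyTime f)
    (hg : PolyTime g) : PolyTime (fun x => row (f x) (g x)) :=
  row_polyTime.comp (f := fun x => (f x, g x)) (hf.pair hg)

/-- answers which agree with an oracle on the reachable queries -/
theorem runI_eq_runO {Y : Type} (outer : List Bool → Y ⊕ Bool) (ans : Y → ℕ → Bool) (O : Y → Bool)
    (n : ℕ) (as : List Bool)
    (h : ∀ l : List Bool, l.length < as.length + n → ∀ y, outer l = Sum.inl y →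
      ans y l.length = O y) :
    runI outer ans n as = runO outer O n as := by
  induction n generalizing as with
  | zero => rfl
  | succ n ih =>
    rw [runI, runO]
    cases ho : outer as with
    | inr b => rfl
    | inl y =>
      simp only
      rw [h as (by omega) y ho]
      apply ih
      intro l hl y' hy'
      rw [List.length_append, List.length_singleton] at hl
      exact h l (by omega) y' hy'

variable {X Y Z : Type} [Enc X] [Enc Y] [Enc Z]

section defs

variable (pQ : Y → ℕ) (R1 N1 : (X × List ℕ) × ℕ → ℕ)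
  (next1 : ((X × List ℕ × List Bool) × ℕ) × List Bool → Y ⊕ Bool)
  (R2 N2 : (Y × List ℕ) × ℕ → ℕ)
  (next2 : ((Y × List ℕ × List Bool) × ℕ) × List Bool → Z ⊕ Bool) (PR PN : Polynomial ℕ)

/-- steps of the outer procedure -/
def n1T (c : (X × List ℕ) × ℕ) : ℕ := N1 ((c.1.1, lA c.1.2), c.2 + 1)

/-- bits of the outer procedure -/
def k1T (c : (X × List ℕ) × ℕ) : ℕ := R1 ((c.1.1, lA c.1.2), c.2 + 1)

/-- exponent of the error of the inner procedure -/
def m2T (c : (X × List ℕ) × ℕ) : ℕ := c.2 + 1 + n1T N1 c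

/-- the arguments of the inner procedure -/
def argT (c : (X × List ℕ) × ℕ) (y : Y) : (Y × List ℕ) × ℕ :=
  ((y, row (lB c.1.2) (pQ y)), m2T N1 c)

/-- the outer procedure -/
def oT (c : (X × List ℕ) × ℕ) (r1 as : List Bool) : Y ⊕ Bool :=
  next1 (((c.1.1, lA c.1.2, r1), c.2 + 1), as)

/-- the inner procedure -/
def iT (c : (X × List ℕ) × ℕ) (r2 : List Bool) (y : Y) (as : List Bool) : Z ⊕ Bool :=
  next2 (((y, row (lB c.1.2) (pQ y), r2), m2T N1 c), as)

/-- number of bits of the inner procedure at a query -/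
def rhoR (w : ((X × List ℕ) × ℕ) × (List Bool × List Bool)) : ℕ :=
  Sum.casesOn (motive := fun _ => ℕ) (oT next1 w.1 w.2.1 w.2.2) (fun y => R2 (argT pQ N1 w.1 y))
    (fun _ => 0)

/-- bound for the sizes -/
def ST (c : (X × List ℕ) × ℕ) : ℕ := sz c + (4 * k1T R1 c + 1) + (4 * n1T N1 c + 1) + 3

/-- the new number of bits -/
def RT' (c : (X × List ℕ) × ℕ) : ℕ := k1T R1 c + PR.eval (ST R1 N1 c)

/-- the new number of steps -/
def NT' (c : (X × List ℕ) × ℕ) : ℕ := n1T N1 c * PN.eval (ST R1 N1 c) + 1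

/-- the combined procedure for a fixed tape -/
def cT (c : (X × List ℕ) × ℕ) (r1 r2 : List Bool) (as : List Bool) : Z ⊕ Bool :=
  comb (oT next1 c r1) (fun y _ as => iT pQ N1 next2 c (r2.take (R2 (argT pQ N1 c y))) y as)
    (n1T N1 c) (fun y => min (N2 (argT pQ N1 c y)) (PN.eval (ST R1 N1 c))) as

/-- the new procedure -/
def nextT (q : ((X × List ℕ × List Bool) × ℕ) × List Bool) : Z ⊕ Bool :=
  cT pQ R1 N1 next1 R2 N2 next2 PN ((q.1.1.1, q.1.1.2.1), q.1.2)
    (q.1.1.2.2.take (k1T R1 ((q.1.1.1, q.1.1.2.1), q.1.2)))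
    (q.1.1.2.2.drop (k1T R1 ((q.1.1.1, q.1.1.2.1), q.1.2))) q.2

variable {pQ R1 N1 next1 R2 N2 next2 PR PN}

theorem n1T_polyTime (h : PolyTime N1) : PolyTime (n1T N1) := by
  unfold n1T
  exact h.comp (f := fun c : (X × List ℕ) × ℕ => ((c.1.1, lA c.1.2), c.2 + 1)) (by fun_prop)

theorem k1T_polyTime (h : PolyTime R1) : PolyTime (k1T R1) := by
  unfold k1T
  exact h.comp (f := fun c : (X × List ℕ) × ℕ => ((c.1.1, lA c.1.2), c.2 + 1)) (by fun_prop)

theorem m2T_polyTime (h : PolyTime N1) : PolyTime (m2T N1) := by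
  have h1 := n1T_polyTime h
  have h2 : PolyTime (fun c : (X × List ℕ) × ℕ => n1T N1 c) := h1
  unfold m2T
  fun_prop

theorem argT_polyTime (hp : PolyTime pQ) (h : PolyTime N1) :
    PolyTime (fun z : ((X × List ℕ) × ℕ) × Y => argT pQ N1 z.1 z.2) := by
  have h1 : PolyTime (fun z : ((X × List ℕ) × ℕ) × Y => m2T N1 z.1) :=
    (m2T_polyTime h).comp (by fun_prop)
  have h2 : PolyTime (fun z : ((X × List ℕ) × ℕ) × Y => pQ z.2) := hp.comp (by fun_prop)
  unfold argT
  fun_prop

theorem ST_polyTime (hR : PolyTime R1) (hN : PolyTime N1) : PolyTime (ST R1 N1) := by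
  have h1 : PolyTime (fun c : (X × List ℕ) × ℕ => n1T N1 c) := n1T_polyTime hN
  have h2 : PolyTime (fun c : (X × List ℕ) × ℕ => k1T R1 c) := k1T_polyTime hR
  unfold ST
  fun_prop

theorem RT'_polyTime (hR : PolyTime R1) (hN : PolyTime N1) : PolyTime (RT' R1 N1 PR) := by
  have h2 : PolyTime (fun c : (X × List ℕ) × ℕ => k1T R1 c) := k1T_polyTime hR
  have h3 : PolyTime (fun c : (X × List ℕ) × ℕ => PR.eval (ST R1 N1 c)) :=
    polyEval_polyTime PR (ST_polyTime hR hN)
  unfold RT'
  fun_prop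

theorem NT'_polyTime (hR : PolyTime R1) (hN : PolyTime N1) : PolyTime (NT' R1 N1 PN) := by
  have h2 : PolyTime (fun c : (X × List ℕ) × ℕ => n1T N1 c) := n1T_polyTime hN
  have h3 : PolyTime (fun c : (X × List ℕ) × ℕ => PN.eval (ST R1 N1 c)) :=
    polyEval_polyTime PN (ST_polyTime hR hN)
  unfold NT'
  fun_prop

theorem rhoR_polyTime (hp : PolyTime pQ) (hN : PolyTime N1) (hn : PolyTime next1)
    (hR : PolyTime R2) : PolyTime (rhoR pQ N1 next1 R2) := by
  have h1 : PolyTime (fun w : ((X × List ℕ) × ℕ) × (List Bool × List Bool) =>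
      oT next1 w.1 w.2.1 w.2.2) := by
    unfold oT
    exact hn.comp (f := fun w : ((X × List ℕ) × ℕ) × (List Bool × List Bool) =>
      (((w.1.1.1, lA w.1.1.2, w.2.1), w.1.2 + 1), w.2.2)) (by fun_prop)
  have h2 : PolyTime (fun p : (((X × List ℕ) × ℕ) × (List Bool × List Bool)) × Y =>
      R2 (argT pQ N1 p.1.1 p.2)) :=
    hR.comp ((argT_polyTime hp hN).comp
      (f := fun p : (((X × List ℕ) × ℕ) × (List Bool × List Bool)) × Y => (p.1.1, p.2))
      (by fun_prop))
  exact PolyTime.sumCases (f := fun w y => R2 (argT pQ N1 w.1 y)) (g := fun _ _ => 0) h1 h2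
    (by fun_prop)

theorem nextT_polyTime (hp : PolyTime pQ) (hR1 : PolyTime R1) (hN1 : PolyTime N1)
    (hn1 : PolyTime next1) (hR2 : PolyTime R2) (hN2 : PolyTime N2) (hn2 : PolyTime next2) :
    PolyTime (nextT pQ R1 N1 next1 R2 N2 next2 PN) := by
  have e1 : PolyTime (fun z : (X × List ℕ × List Bool) × ℕ =>
      (((z.1.1, z.1.2.1), z.2) : (X × List ℕ) × ℕ)) := by fun_prop
  have hk : PolyTime (fun z : (X × List ℕ × List Bool) × ℕ => k1T R1 ((z.1.1, z.1.2.1), z.2)) :=
    (k1T_polyTime hR1).comp e1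
  have hn : PolyTime (fun z : (X × List ℕ × List Bool) × ℕ => n1T N1 ((z.1.1, z.1.2.1), z.2)) :=
    (n1T_polyTime hN1).comp e1
  have hout : PolyTime (fun z : ((X × List ℕ × List Bool) × ℕ) × List Bool =>
      oT next1 ((z.1.1.1, z.1.1.2.1), z.1.2)
        (z.1.1.2.2.take (k1T R1 ((z.1.1.1, z.1.1.2.1), z.1.2))) z.2) := by
    have h1 : PolyTime (fun z : ((X × List ℕ × List Bool) × ℕ) × List Bool =>
        k1T R1 ((z.1.1.1, z.1.1.2.1), z.1.2)) := hk.comp (f := fun z : ((X × List ℕ × List Bool) × ℕ) × List Bool => z.1) (by fun_prop)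
    unfold oT
    exact hn1.comp (f := fun z : ((X × List ℕ × List Bool) × ℕ) × List Bool =>
      (((z.1.1.1, lA z.1.1.2.1, z.1.1.2.2.take (k1T R1 ((z.1.1.1, z.1.1.2.1), z.1.2))),
        z.1.2 + 1), z.2)) (by fun_prop)
  have harg : PolyTime (fun z : (((X × List ℕ × List Bool) × ℕ) × Y × ℕ) × List Bool =>
      argT pQ N1 ((z.1.1.1.1, z.1.1.1.2.1), z.1.1.2) z.1.2.1) :=
    (argT_polyTime hp hN1).comp (f := fun z : (((X × List ℕ × List Bool) × ℕ) × Y × ℕ) × List Bool =>
      (((z.1.1.1.1, z.1.1.1.2.1), z.1.1.2), z.1.2.1)) (by fun_prop)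
  have hinn : PolyTime (fun z : (((X × List ℕ × List Bool) × ℕ) × Y × ℕ) × List Bool =>
      iT pQ N1 next2 ((z.1.1.1.1, z.1.1.1.2.1), z.1.1.2)
        ((z.1.1.1.2.2.drop (k1T R1 ((z.1.1.1.1, z.1.1.1.2.1), z.1.1.2))).take
          (R2 (argT pQ N1 ((z.1.1.1.1, z.1.1.1.2.1), z.1.1.2) z.1.2.1))) z.1.2.1 z.2) := by
    have h1 : PolyTime (fun z : (((X × List ℕ × List Bool) × ℕ) × Y × ℕ) × List Bool =>
        k1T R1 ((z.1.1.1.1, z.1.1.1.2.1), z.1.1.2)) := hk.comp
        (f := fun z : (((X × List ℕ × List Bool) × ℕ) × Y × ℕ) × List Bool => z.1.1) (by fun_prop)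
    have h2 : PolyTime (fun z : (((X × List ℕ × List Bool) × ℕ) × Y × ℕ) × List Bool =>
        R2 (argT pQ N1 ((z.1.1.1.1, z.1.1.1.2.1), z.1.1.2) z.1.2.1)) := hR2.comp harg
    have h3 : PolyTime (fun z : (((X × List ℕ × List Bool) × ℕ) × Y × ℕ) × List Bool =>
        m2T N1 ((z.1.1.1.1, z.1.1.1.2.1), z.1.1.2)) :=
      (m2T_polyTime hN1).comp (f := fun z : (((X × List ℕ × List Bool) × ℕ) × Y × ℕ) × List Bool =>
        ((z.1.1.1.1, z.1.1.1.2.1), z.1.1.2)) (by fun_prop)
    have h4 : PolyTime (fun z : (((X × List ℕ × List Bool) × ℕ) × Y × ℕ) × List Bool =>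
        pQ z.1.2.1) := hp.comp (by fun_prop)
    unfold iT
    exact hn2.comp (f := fun z : (((X × List ℕ × List Bool) × ℕ) × Y × ℕ) × List Bool =>
      (((z.1.2.1, row (lB z.1.1.1.2.1) (pQ z.1.2.1),
        (z.1.1.1.2.2.drop (k1T R1 ((z.1.1.1.1, z.1.1.1.2.1), z.1.1.2))).take
          (R2 (argT pQ N1 ((z.1.1.1.1, z.1.1.1.2.1), z.1.1.2) z.1.2.1))),
        m2T N1 ((z.1.1.1.1, z.1.1.1.2.1), z.1.1.2)), z.2)) (by fun_prop)
  have hN2' : PolyTime (fun z : ((X × List ℕ × List Bool) × ℕ) × Y =>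
      min (N2 (argT pQ N1 ((z.1.1.1, z.1.1.2.1), z.1.2) z.2))
        (PN.eval (ST R1 N1 ((z.1.1.1, z.1.1.2.1), z.1.2)))) := by
    have h1 : PolyTime (fun z : ((X × List ℕ × List Bool) × ℕ) × Y =>
        N2 (argT pQ N1 ((z.1.1.1, z.1.1.2.1), z.1.2) z.2)) :=
      hN2.comp ((argT_polyTime hp hN1).comp (f := fun z : ((X × List ℕ × List Bool) × ℕ) × Y =>
        (((z.1.1.1, z.1.1.2.1), z.1.2), z.2)) (by fun_prop))
    have h2 : PolyTime (fun z : ((X × List ℕ × List Bool) × ℕ) × Y =>
        PN.eval (ST R1 N1 ((z.1.1.1, z.1.1.2.1), z.1.2))) :=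
      (polyEval_polyTime PN (ST_polyTime hR1 hN1)).comp
        (f := fun z : ((X × List ℕ × List Bool) × ℕ) × Y => ((z.1.1.1, z.1.1.2.1), z.1.2))
        (by fun_prop)
    exact h1.natMin h2
  exact comb_polyTime (α := (X × List ℕ × List Bool) × ℕ)
    (outer := fun z => oT next1 ((z.1.1.1, z.1.1.2.1), z.1.2)
        (z.1.1.2.2.take (k1T R1 ((z.1.1.1, z.1.1.2.1), z.1.2))) z.2)
    (inner := fun z => iT pQ N1 next2 ((z.1.1.1.1, z.1.1.1.2.1), z.1.1.2)
        ((z.1.1.1.2.2.drop (k1T R1 ((z.1.1.1.1, z.1.1.1.2.1), z.1.1.2))).take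
          (R2 (argT pQ N1 ((z.1.1.1.1, z.1.1.1.2.1), z.1.1.2) z.1.2.1))) z.1.2.1 z.2)
    (N1 := fun z => n1T N1 ((z.1.1, z.1.2.1), z.2))
    (N2 := fun z => min (N2 (argT pQ N1 ((z.1.1.1, z.1.1.2.1), z.1.2) z.2))
        (PN.eval (ST R1 N1 ((z.1.1.1, z.1.1.2.1), z.1.2)))) hout hinn hn hN2'

end defs

/-- restriction of the tape to a list of the right length -/
theorem exists_fin_of_list {n : ℕ} (l : List Bool) (h : l.length = n) :
    ∃ r : Fin n → Bool, List.ofFn r = l := by
  subst h
  exact ⟨fun i => l.get i, by simp⟩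

theorem BRed.trans {P : Prob X} {Q : Prob Y} {S : Prob Z} (hQ : PolyTime Q.par)
    (hdis : ∀ y, Q.yes y → ¬ Q.no y) (h : BRed P Q) (h' : BRed Q S) : BRed P S := by
  classical
  obtain ⟨h1, G1, R1, N1, next1, hh1, hG1, hR1, hN1, hn1, H1⟩ := h
  obtain ⟨h2, G2, R2, N2, next2, hh2, hG2, hR2, hN2, hn2, H2⟩ := h'
  obtain ⟨PR, hPR⟩ := (rhoR_polyTime hQ hN1 hn1 hR2).pbdd
  obtain ⟨PN, hPN⟩ := (rhoR_polyTime hQ hN1 hn1 hN2).pbdd
  obtain ⟨G, hG, hGle⟩ := sumT_computable hG2 hG1
  refine ⟨advT h1 h2 G1, G, RT' R1 N1 PR, NT' R1 N1 PN,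
    nextT Q.par R1 N1 next1 R2 N2 next2 PN, advT_computable hh1 hh2 hG1, hG,
    RT'_polyTime hR1 hN1, NT'_polyTime hR1 hN1, nextT_polyTime hQ hR1 hN1 hn1 hR2 hN2 hn2,
    fun x m hx => ?_⟩
  set c : (X × List ℕ) × ℕ := ((x, advT h1 h2 G1 (P.par x)), m) with hc
  obtain ⟨H1a, H1b⟩ := H1 x (m + 1) hx
  -- the outer procedure
  have ho : ∀ r1 as, oT next1 c r1 as = next1 (((x, h1 (P.par x), r1), m + 1), as) := by
    intro r1 as
    show next1 (((x, lA (advT h1 h2 G1 (P.par x)), r1), m + 1), as) = _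
    rw [lA_advT]
  have hn1c : n1T N1 c = N1 ((x, h1 (P.par x)), m + 1) := by
    show N1 ((x, lA (advT h1 h2 G1 (P.par x))), m + 1) = _
    rw [lA_advT]
  have hk1c : k1T R1 c = R1 ((x, h1 (P.par x)), m + 1) := by
    show R1 ((x, lA (advT h1 h2 G1 (P.par x))), m + 1) = _
    rw [lA_advT]
  have hprom : ∀ r1 as y, oT next1 c r1 as = Sum.inl y →
      Q.par y ≤ G1 (P.par x) ∧ (Q.yes y ∨ Q.no y) := by
    intro r1 as y hy
    rw [ho] at hy
    exact H1a r1 as y hy
  have harg : ∀ r1 as y, oT next1 c r1 as = Sum.inl y →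
      argT Q.par N1 c y = ((y, h2 (Q.par y)), m2T N1 c) := by
    intro r1 as y hy
    show ((y, row (lB (advT h1 h2 G1 (P.par x))) (Q.par y)), m2T N1 c) = _
    rw [row_lB_advT h1 h2 G1 _ _ (hprom r1 as y hy).1]
  have hi : ∀ r1 as y, oT next1 c r1 as = Sum.inl y → ∀ r2 as', iT Q.par N1 next2 c r2 y as' =
      next2 (((y, h2 (Q.par y), r2), m2T N1 c), as') := by
    intro r1 as y hy r2 as'
    show next2 (((y, row (lB (advT h1 h2 G1 (P.par x))) (Q.par y), r2), m2T N1 c), as') = _
    rw [row_lB_advT h1 h2 G1 _ _ (hprom r1 as y hy).1]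
  -- bounds
  have hsz : ∀ r1 as : List Bool, r1.length = k1T R1 c → as.length < n1T N1 c →
      sz (c, (r1, as)) ≤ ST R1 N1 c := by
    intro r1 as h3 h4
    have h5 := sz_listBool r1
    have h6 := sz_listBool as
    have e1 : sz (c, (r1, as)) = sz c + sz (r1, as) + 1 := sz_prod _
    have e2 : sz (r1, as) = sz r1 + sz as + 1 := sz_prod _
    unfold ST
    omega
  have hRb : ∀ r1 as y, r1.length = k1T R1 c → as.length < n1T N1 c →
      oT next1 c r1 as = Sum.inl y → R2 (argT Q.par N1 c y) ≤ PR.eval (ST R1 N1 c) := by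
    intro r1 as y h3 h4 h5
    have h6 : sz (rhoR Q.par N1 next1 R2 (c, (r1, as))) ≤ PR.eval (sz (c, (r1, as))) :=
      hPR (c, (r1, as))
    have h7 : rhoR Q.par N1 next1 R2 (c, (r1, as)) = R2 (argT Q.par N1 c y) := by
      unfold rhoR
      simp only
      rw [h5]
    rw [h7, sz_nat] at h6
    have h8 := eval_mono PR (hsz r1 as h3 h4)
    omega
  have hNb : ∀ r1 as y, r1.length = k1T R1 c → as.length < n1T N1 c →
      oT next1 c r1 as = Sum.inl y → N2 (argT Q.par N1 c y) ≤ PN.eval (ST R1 N1 c) := by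
    intro r1 as y h3 h4 h5
    have h6 : sz (rhoR Q.par N1 next1 N2 (c, (r1, as))) ≤ PN.eval (sz (c, (r1, as))) :=
      hPN (c, (r1, as))
    have h7 : rhoR Q.par N1 next1 N2 (c, (r1, as)) = N2 (argT Q.par N1 c y) := by
      unfold rhoR
      simp only
      rw [h5]
    rw [h7, sz_nat] at h6
    have h8 := eval_mono PN (hsz r1 as h3 h4)
    omega
  refine ⟨?_, ?_⟩
  · -- promise
    intro r as z hz
    have hz' : cT Q.par R1 N1 next1 R2 N2 next2 PN c (r.take (k1T R1 c)) (r.drop (k1T R1 c)) as =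
      Sum.inl z := hz
    obtain ⟨y, l, l', h3, h4, h5⟩ := comb_inl hz'
    have h6 := hprom _ _ _ h4
    rw [hi _ _ _ h4] at h5
    obtain ⟨h7, h8⟩ := (H2 y (m2T N1 c) h6.2).1 _ _ _ h5
    exact ⟨h7.trans (hGle _ _ h6.1), h8⟩
  · intro O hO1 hO2
    -- solution of the query `y`
    let sol : Y → List Bool → Bool := fun y r2 =>
      runO (fun as => next2 (((y, h2 (Q.par y), r2.take (R2 ((y, h2 (Q.par y)), m2T N1 c))),
        m2T N1 c), as)) O (N2 ((y, h2 (Q.par y)), m2T N1 c)) []
    let O1 : Y → Bool := fun y => decide (Q.yes y)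
    have hO1a : ∀ y, Q.yes y → O1 y = true := fun y hy => decide_eq_true hy
    have hO1b : ∀ y, Q.no y → O1 y = false := fun y hy =>
      decide_eq_false (fun h => hdis y h hy)
    obtain ⟨H3, H4⟩ := H1b O1 hO1a hO1b
    set R' := PR.eval (ST R1 N1 c) with hR'
    -- the outer run
    let run1 : List Bool → Bool := fun r1 => runO (oT next1 c r1) O1 (n1T N1 c) []
    -- the whole run
    let run : List Bool → List Bool → Bool := fun r1 r2 =>
      runO (cT Q.par R1 N1 next1 R2 N2 next2 PN c r1 r2) O (NT' R1 N1 PN c) []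
    -- bad events
    let Bd : List Bool → List Bool → List Bool → Bool := fun as r1 r2 =>
      decide (as.length < n1T N1 c ∧ ∃ y, oT next1 c r1 as = Sum.inl y ∧ sol y r2 ≠ O1 y)
    have hrun : ∀ r1 r2, r1.length = k1T R1 c → r2.length = R' →
        (∀ as ∈ blists (n1T N1 c), Bd as r1 r2 = false) → run r1 r2 = run1 r1 := by
      intro r1 r2 h3 h4 h5
      show runO (comb (oT next1 c r1) (fun y _ as => iT Q.par N1 next2 c
        (r2.take (R2 (argT Q.par N1 c y))) y as) (n1T N1 c)
        (fun y => min (N2 (argT Q.par N1 c y)) (PN.eval (ST R1 N1 c)))) O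
        (n1T N1 c * PN.eval (ST R1 N1 c) + 1) [] = _
      rw [run_comb (oT next1 c r1) (fun y _ as => iT Q.par N1 next2 c
        (r2.take (R2 (argT Q.par N1 c y))) y as) (n1T N1 c)
        (fun y => min (N2 (argT Q.par N1 c y)) (PN.eval (ST R1 N1 c))) O
        (PN.eval (ST R1 N1 c)) (fun y => min_le_right _ _) _ le_rfl]
      apply runI_eq_runO
      intro l hl y hy
      rw [List.length_nil, Nat.zero_add] at hl
      have h6 := h5 l (mem_blists hl)
      have h7 : sol y r2 = O1 y := by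
        by_contra hcon
        have : Bd l r1 r2 = true := decide_eq_true ⟨hl, y, hy, hcon⟩
        rw [h6] at this
        cases this
      rw [← h7]
      show runO (fun as => iT Q.par N1 next2 c (r2.take (R2 (argT Q.par N1 c y))) y as) O
        (min (N2 (argT Q.par N1 c y)) (PN.eval (ST R1 N1 c))) [] = _
      rw [min_eq_left (hNb r1 l y h3 hl hy)]
      have h8 : (fun as => iT Q.par N1 next2 c (r2.take (R2 (argT Q.par N1 c y))) y as) =
          (fun as => next2 (((y, h2 (Q.par y), r2.take (R2 ((y, h2 (Q.par y)), m2T N1 c))),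
            m2T N1 c), as)) := by
        funext as
        rw [hi r1 l y hy, harg r1 l y hy]
      rw [h8, harg r1 l y hy]
    -- probability of the bad events
    have hB : ∀ as ∈ blists (n1T N1 c), ∀ r1 : List Bool, r1.length = k1T R1 c →
        2 ^ (m + 1 + n1T N1 c) * (Finset.univ.filter
          (fun d : Fin R' → Bool => Bd as r1 (List.ofFn d) = true)).card ≤ 2 ^ R' := by
      intro as has r1 h3
      by_cases hex : as.length < n1T N1 c ∧ ∃ y, oT next1 c r1 as = Sum.inl y
      · obtain ⟨h4, y, hy⟩ := hex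
        have h5 := hprom _ _ _ hy
        set Ry := R2 ((y, h2 (Q.par y)), m2T N1 c) with hRy
        have h6 : Ry ≤ R' := by
          have := hRb r1 as y h3 h4 hy
          rwa [harg r1 as y hy] at this
        obtain ⟨H5, H6⟩ := (H2 y (m2T N1 c) h5.2).2 O hO1 hO2
        have h7 : (Finset.univ.filter (fun d : Fin R' → Bool => Bd as r1 (List.ofFn d) = true)) =
            (Finset.univ.filter (fun d : Fin R' → Bool =>
              (fun l => decide (runO (fun as => next2 (((y, h2 (Q.par y), l), m2T N1 c), as)) O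
                (N2 ((y, h2 (Q.par y)), m2T N1 c)) [] ≠ O1 y)) ((List.ofFn d).take Ry) = true)) := by
          apply Finset.filter_congr
          intro d _
          simp only [Bd, sol, decide_eq_true_eq]
          constructor
          · rintro ⟨-, y', hy', h8⟩
            rw [hy] at hy'
            have := Sum.inl.inj hy'
            subst this
            exact h8
          · intro h8
            exact ⟨h4, y, hy, h8⟩
        rw [h7, card_prefix Ry R' h6 (fun l => decide (runO (fun as => next2 (((y, h2 (Q.par y), l),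
          m2T N1 c), as)) O (N2 ((y, h2 (Q.par y)), m2T N1 c)) [] ≠ O1 y))]
        have h9 : 2 ^ m2T N1 c * (Finset.univ.filter (fun b : Fin Ry → Bool =>
            decide (runO (fun as => next2 (((y, h2 (Q.par y), List.ofFn b), m2T N1 c), as)) O
                (N2 ((y, h2 (Q.par y)), m2T N1 c)) [] ≠ O1 y) = true)).card ≤ 2 ^ Ry := by
          rcases h5.2 with hyes | hno
          · have h10 := H5 hyes
            rw [hO1a y hyes]
            simp only [ne_eq, Bool.not_eq_true, decide_eq_true_eq]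
            exact h10
          · have h10 := H6 hno
            rw [hO1b y hno]
            simp only [ne_eq, Bool.not_eq_false, decide_eq_true_eq]
            exact h10
        have hm2 : m2T N1 c = m + 1 + n1T N1 c := rfl
        rw [hm2] at h9
        rw [← mul_assoc]
        calc _ ≤ 2 ^ Ry * 2 ^ (R' - Ry) := Nat.mul_le_mul_right _ h9
          _ = 2 ^ R' := by rw [← pow_add]; congr 1; omega
      · have h7 : (Finset.univ.filter (fun d : Fin R' → Bool => Bd as r1 (List.ofFn d) = true)) =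
            ∅ := by
          rw [Finset.filter_eq_empty_iff]
          intro d _
          simp only [Bd, decide_eq_true_eq]
          rintro ⟨h4, y, hy, -⟩
          exact hex ⟨h4, y, hy⟩
        rw [h7]; simp
    have hcount : ∀ v : Bool, 2 ^ (m + 1) * (Finset.univ.filter
        (fun b : Fin (k1T R1 c) → Bool => run1 (List.ofFn b) = v)).card ≤ 2 ^ k1T R1 c →
        2 ^ m * (Finset.univ.filter (fun r : Fin (k1T R1 c + R') → Bool =>
          run ((List.ofFn r).take (k1T R1 c)) ((List.ofFn r).drop (k1T R1 c)) = v)).card ≤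
          2 ^ (k1T R1 c + R') := by
      intro v hv
      have h3 := count_union (k1T R1 c) R' m (n1T N1 c) (fun r1 r2 => decide (run r1 r2 = v))
        (fun r1 => decide (run1 r1 = v)) Bd (by
          intro r1 r2 h4 h5 h6
          by_contra hcon
          push Not at hcon
          obtain ⟨h7, h8⟩ := hcon
          have h9 := hrun r1 r2 h4 h5 (fun as has => Bool.eq_false_iff.2 (h8 as has))
          simp only [ne_eq, decide_eq_true_eq] at h6 h7
          exact h7 (by rw [← h9]; exact h6)) (by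
          simp only [decide_eq_true_eq]
          exact hv) hB
      simp only [decide_eq_true_eq] at h3
      exact h3
    have hrun1 : ∀ r1, run1 r1 = runO (fun as => next1 (((x, h1 (P.par x), r1), m + 1), as)) O1
        (N1 ((x, h1 (P.par x)), m + 1)) [] := by
      intro r1
      have h3 : oT next1 c r1 = fun as => next1 (((x, h1 (P.par x), r1), m + 1), as) := by
        funext as; rw [ho]
      show runO (oT next1 c r1) O1 (n1T N1 c) [] = _
      rw [h3, hn1c]
    refine ⟨fun hyes => ?_, fun hno => ?_⟩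
    · have h3 := H3 hyes
      have h4 := hcount false (by
        simp only [hrun1]
        rw [hk1c]
        exact h3)
      exact h4
    · have h3 := H4 hno
      have h4 := hcount true (by
        simp only [hrun1]
        rw [hk1c]
        exact h3)
      exact h4

end Pool.Agent.H78DS
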