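import Pool.Agent.H78DS.Net

/-! # MP_91b64b_lc: locality of gap reductions for set cover -/

set_option autoImplicit false

namespace Pool.Agent.H78DS

open Finset

/-- The instance with `n` sets and `m` elements which is critical for the parameter `k`: no `k` sets cover, but
after adding any single element to all sets there is a cover by `k` sets. The first `k - 1` elements are private, on the
others we have the complement of a perfect matching. -/
def crit (n m k : ℕ) : Fin n → Fin m → Prop := fun u v =>
  if (u : ℕ) < k - 1 then (v : ℕ) = u else (u : ℕ) < m ∧ k - 1 ≤ (v : ℕ) ∧ (v : ℕ) ≠ u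

theorem crit_no {n m k : ℕ} (hk : 1 ≤ k) (hm : k + 1 ≤ m) (hn : m ≤ n) : ¬ HasCov (crit n m k) k := by
  classical
  rintro ⟨S, hS, hcov⟩
  -- the private rows
  have h1 : ∀ e : ℕ, (he : e < k - 1) → (⟨e, by omega⟩ : Fin n) ∈ S := by
    intro e he
    obtain ⟨u, hu, hA⟩ := hcov ⟨e, by omega⟩
    unfold crit at hA
    by_cases hlt : (u : ℕ) < k - 1
    · rw [if_pos hlt] at hA
      have : u = ⟨e, by omega⟩ := Fin.ext hA.symm
      rwa [this] at hu
    · rw [if_neg hlt] at hA
      have := hA.2.1
      simp only at this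
      omega
  have h2 : ∀ v : ℕ, (hv : v < m) → k - 1 ≤ v → ∃ u ∈ S, k - 1 ≤ (u : ℕ) ∧ (u : ℕ) < m ∧ (u : ℕ) ≠ v := by
    intro v hv hkv
    obtain ⟨u, hu, hA⟩ := hcov ⟨v, hv⟩
    unfold crit at hA
    by_cases hlt : (u : ℕ) < k - 1
    · rw [if_pos hlt] at hA
      simp only at hA
      omega
    · rw [if_neg hlt] at hA
      exact ⟨u, hu, by omega, hA.1, fun h => hA.2.2 h.symm⟩
  obtain ⟨u1, hu1, hk1, hm1, -⟩ := h2 (k - 1) (by omega) le_rfl
  obtain ⟨u2, hu2, hk2, hm2, hne⟩ := h2 u1 hm1 hk1
  -- the image of `Fin (k - 1)` and `u1`, `u2`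
  let f : Fin (k + 1) → Fin n := fun j =>
    if h : (j : ℕ) < k - 1 then ⟨j, by omega⟩ else if (j : ℕ) = k - 1 then u1 else u2
  have hf : Function.Injective f := by
    intro a b hab
    have hab' : ((f a : Fin n) : ℕ) = f b := congrArg Fin.val hab
    apply Fin.ext
    have ha := a.2
    have hb := b.2
    by_cases h1 : (a : ℕ) < k - 1
    · have e1 : ((f a : Fin n) : ℕ) = a := by simp only [f, dif_pos h1]
      by_cases h2 : (b : ℕ) < k - 1
      · have e2 : ((f b : Fin n) : ℕ) = b := by simp only [f, dif_pos h2]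
        omega
      · by_cases h3 : (b : ℕ) = k - 1
        · have e2 : f b = u1 := by simp only [f, dif_neg h2, if_pos h3]
          rw [e2] at hab'; omega
        · have e2 : f b = u2 := by simp only [f, dif_neg h2, if_neg h3]
          rw [e2] at hab'; omega
    · by_cases h2 : (b : ℕ) < k - 1
      · have e2 : ((f b : Fin n) : ℕ) = b := by simp only [f, dif_pos h2]
        by_cases h3 : (a : ℕ) = k - 1
        · have e1 : f a = u1 := by simp only [f, dif_neg h1, if_pos h3]
          rw [e1] at hab'; omega
        · have e1 : f a = u2 := by simp only [f, dif_neg h1, if_neg h3]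
          rw [e1] at hab'; omega
      · by_cases h3 : (a : ℕ) = k - 1
        · have e1 : f a = u1 := by simp only [f, dif_neg h1, if_pos h3]
          by_cases h4 : (b : ℕ) = k - 1
          · omega
          · have e2 : f b = u2 := by simp only [f, dif_neg h2, if_neg h4]
            rw [e1, e2] at hab'; omega
        · have e1 : f a = u2 := by simp only [f, dif_neg h1, if_neg h3]
          by_cases h4 : (b : ℕ) = k - 1
          · have e2 : f b = u1 := by simp only [f, dif_neg h2, if_pos h4]
            rw [e1, e2] at hab'; omega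
          · omega
  have hsub : Finset.univ.image f ⊆ S := by
    intro x hx
    obtain ⟨j, -, rfl⟩ := Finset.mem_image.1 hx
    by_cases h3 : (j : ℕ) < k - 1
    · have e1 : f j = ⟨j, by omega⟩ := by simp only [f, dif_pos h3]
      rw [e1]
      exact h1 j h3
    · by_cases h4 : (j : ℕ) = k - 1
      · have e1 : f j = u1 := by simp only [f, dif_neg h3, if_pos h4]
        rw [e1]; exact hu1
      · have e1 : f j = u2 := by simp only [f, dif_neg h3, if_neg h4]
        rw [e1]; exact hu2
  have hcard := Finset.card_le_card hsub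
  rw [Finset.card_image_of_injective _ hf, Finset.card_univ, Fintype.card_fin] at hcard
  omega

theorem crit_yes {n m k : ℕ} (hk : 1 ≤ k) (hm : k + 1 ≤ m) (hn : m ≤ n) (x : Fin m) :
    HasCov (fun u v => crit n m k u v ∨ v = x) k := by
  classical
  by_cases hx : (x : ℕ) < k - 1
  · -- the private rows except `x`, and the rows `k - 1`, `k`
    refine ⟨((Finset.range (k + 1)).filter (fun e : ℕ => e ≠ (x : ℕ))).attach.image
      (fun e => (⟨e.1, by
        have := (Finset.mem_filter.1 e.2).1
        rw [Finset.mem_range] at this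
        omega⟩ : Fin n)), ?_, ?_⟩
    · refine Finset.card_image_le.trans ?_
      rw [Finset.card_attach, Finset.filter_ne', Finset.card_erase_of_mem (by rw [Finset.mem_range]; omega),
        Finset.card_range]
      omega
    · intro v
      have hmem : ∀ e : ℕ, (he : e < k + 1) → e ≠ x → (⟨e, by omega⟩ : Fin n) ∈
          ((Finset.range (k + 1)).filter (fun e : ℕ => e ≠ (x : ℕ))).attach.image
          (fun e => (⟨e.1, by
            have := (Finset.mem_filter.1 e.2).1
            rw [Finset.mem_range] at this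
            omega⟩ : Fin n)) := by
        intro e he hex
        rw [Finset.mem_image]
        exact ⟨⟨e, Finset.mem_filter.2 ⟨Finset.mem_range.2 he, hex⟩⟩, Finset.mem_attach _ _, rfl⟩
      by_cases hvx : v = x
      · exact ⟨_, hmem k (by omega) (by omega), Or.inr hvx⟩
      · have hvx' : (v : ℕ) ≠ x := fun h => hvx (Fin.ext h)
        by_cases hv : (v : ℕ) < k - 1
        · refine ⟨_, hmem v (by omega) hvx', Or.inl ?_⟩
          unfold crit
          rw [if_pos hv]
        · by_cases hvk : (v : ℕ) = k - 1
          · refine ⟨_, hmem k (by omega) (by omega), Or.inl ?_⟩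
            unfold crit
            rw [if_neg (by simp only; omega)]
            exact ⟨by simp only; omega, by omega, by simp only; omega⟩
          · refine ⟨_, hmem (k - 1) (by omega) (by omega), Or.inl ?_⟩
            unfold crit
            rw [if_neg (by simp only; omega)]
            exact ⟨by simp only; omega, by omega, by simp only; omega⟩
  · -- the private rows and the row `x`
    refine ⟨insert (⟨x, by omega⟩ : Fin n) ((Finset.range (k - 1)).attach.image
      (fun e => (⟨e.1, by
        have := e.2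
        rw [Finset.mem_range] at this
        omega⟩ : Fin n))), ?_, ?_⟩
    · refine (Finset.card_insert_le _ _).trans ?_
      have h := Finset.card_image_le (s := (Finset.range (k - 1)).attach)
        (f := (fun e => (⟨e.1, by
          have := e.2
          rw [Finset.mem_range] at this
          omega⟩ : Fin n)))
      rw [Finset.card_attach, Finset.card_range] at h
      omega
    · intro v
      by_cases hvx : v = x
      · exact ⟨_, Finset.mem_insert_self _ _, Or.inr hvx⟩
      · have hvx' : (v : ℕ) ≠ x := fun h => hvx (Fin.ext h)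
        by_cases hv : (v : ℕ) < k - 1
        · refine ⟨⟨v, by omega⟩, Finset.mem_insert_of_mem ?_, Or.inl ?_⟩
          · rw [Finset.mem_image]
            exact ⟨⟨v, Finset.mem_range.2 hv⟩, Finset.mem_attach _ _, rfl⟩
          · unfold crit
            rw [if_pos hv]
        · refine ⟨_, Finset.mem_insert_self _ _, Or.inl ?_⟩
          unfold crit
          rw [if_neg (by simp only; omega)]
          exact ⟨x.2, by omega, hvx'⟩

/-- `Φ` is `ℓ`-local: for every instance `A` and every element `y` of the new instance there is a set `D` of at most `ℓ`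
elements of the old instance such that every instance which agrees with `A` on the elements of `D` has the same
element `y` in its image. -/
def ElemLocal {n m N M : ℕ} (ℓ : ℕ) (Φ : (Fin n → Fin m → Prop) → (Fin N → Fin M → Prop)) : Prop :=
  ∀ (A : Fin n → Fin m → Prop) (y : Fin M), ∃ D : Finset (Fin m), D.card ≤ ℓ ∧
    ∀ A' : Fin n → Fin m → Prop, (∀ x ∈ D, ∀ i, A' i x ↔ A i x) → ∀ j, Φ A' j y ↔ Φ A j y

/-- `Φ` is a gap reduction from Set Cover with parameter `k` to Set Cover with parameter `k'` and ratio `ρ`. -/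
def GapRed {n m N M : ℕ} (k k' : ℕ) (ρ : ℝ) (Φ : (Fin n → Fin m → Prop) → (Fin N → Fin M → Prop)) :
    Prop :=
  (∀ A, HasCov A k → HasCov (Φ A) k') ∧
    ∀ A, ¬ HasCov A k → ∀ S : Finset (Fin N), Cov (Φ A) S → ρ * k' < S.card

theorem GapRed.no {n m N M : ℕ} {k k' : ℕ} {ρ : ℝ} {Φ : (Fin n → Fin m → Prop) → (Fin N → Fin M → Prop)}
    (h : GapRed k k' ρ Φ) {c : ℕ} (hc : (c : ℝ) ≤ ρ) (A : Fin n → Fin m → Prop) (hA : ¬ HasCov A k) :
    ¬ HasCov (Φ A) (c * k') := by
  rintro ⟨S, h1, h2⟩
  have h3 := h.2 A hA S h2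
  have h4 : (S.card : ℝ) ≤ ((c * k' : ℕ) : ℝ) := by exact_mod_cast h1
  rw [Nat.cast_mul] at h4
  have h5 : (c : ℝ) * k' ≤ ρ * k' := mul_le_mul_of_nonneg_right hc (Nat.cast_nonneg _)
  linarith

/-- LOCALITY BOUND. -/
theorem local_bound {n m N M k k' c B q ℓ : ℕ} (hk : 1 ≤ k) (hm : k + 1 ≤ m) (hn : m ≤ n)
    (hM : M < B ^ c) (hq : (B - 1) ^ q * (N + 1) ^ k' < B ^ q)
    (Φ : (Fin n → Fin m → Prop) → (Fin N → Fin M → Prop)) (hloc : ElemLocal ℓ Φ)
    (hyes : ∀ A, HasCov A k → HasCov (Φ A) k') (hno : ∀ A, ¬ HasCov A k → ¬ HasCov (Φ A) (c * k')) :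
    m ≤ ℓ * q := by
  classical
  have h1 := hno _ (crit_no hk hm hn)
  have h2 : ¬ ∀ U : Finset (Fin M), U.card ≤ q → ∃ S : Finset (Fin N), S.card ≤ k' ∧
      ∀ x ∈ U, ∃ i ∈ S, Φ (crit n m k) i x := by
    intro h
    exact h1 (universe_reduction (Φ (crit n m k)) k' c B q (by simpa using hM) (by simpa using hq) h)
  push Not at h2
  obtain ⟨U, hU, hU'⟩ := h2
  choose D hD hD' using fun y => hloc (crit n m k) y
  by_contra hlt
  push Not at hlt
  have h3 : (U.biUnion D).card < Fintype.card (Fin m) := by
    rw [Fintype.card_fin]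
    calc (U.biUnion D).card ≤ U.card * ℓ := Finset.card_biUnion_le_card_mul U D ℓ (fun y _ => hD y)
      _ ≤ q * ℓ := Nat.mul_le_mul_right _ hU
      _ < m := by rwa [mul_comm]
  obtain ⟨x, hx⟩ : ∃ x : Fin m, x ∉ U.biUnion D := by
    by_contra hcon
    push Not at hcon
    have : (U.biUnion D) = Finset.univ := Finset.eq_univ_of_forall hcon
    rw [this, Finset.card_univ] at h3
    exact lt_irrefl _ h3
  obtain ⟨S, hS1, hS2⟩ := hyes _ (crit_yes hk hm hn x)
  obtain ⟨y, hy, hyS⟩ := hU' S hS1
  obtain ⟨i, hi, hA⟩ := hS2 y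
  refine hyS i hi ((hD' y _ ?_ i).1 hA)
  intro z hz i
  have hzx : z ≠ x := fun h => hx (by rw [← h]; exact Finset.mem_biUnion.2 ⟨y, hy, hz⟩)
  simp [hzx]

end Pool.Agent.H78DS
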