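import Pool.Agent.H78DS.RTDefs
import Pool.Agent.H78DS.Group

/-! # H78DS/BoostDef: approximation of dominating sets by exact set cover with small universe

`I = (n, E, k)`, `c = g(k) ≥ 1`. There are `c` rounds of `n` queries. In round `i` the vertices not dominated by the vertices
`X` chosen so far are `V`; `q` random samples of `V` form the universe of the set cover instances. The `j`-th query asks
whether the samples have a `k`-cover without the set of the vertex `j` and without those of the vertices `v < j` with answer `true`. The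
vertices with answer `false` are chosen. -/

set_option autoImplicit false

namespace Pool.Agent.H78DS

open Pool.Agent.PT

/-- `B = #{b : b ^ c ≤ n}` -/
def bB (n c : ℕ) : ℕ := (List.range (n + 1)).countP (fun b => decide (cp b c (n + 1) ≤ n))

/-- exponent -/
def bz (n c k : ℕ) : ℕ := (c + 1) * k * Nat.size (n + 1) + 1

/-- number of samples -/
def bq (n c k : ℕ) : ℕ := 2 * bB n c * bz n c k

/-- the constant of the bound for `q ^ c` -/
def bK (c k : ℕ) : ℕ := 2 ^ (3 * c + 1) * ((c + 1) * k + 1) ^ c * c.factorial

/-- number of sets in the queries; `K` should be `bK c k` -/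
def bL (n c k K : ℕ) : ℕ := max n (cp (bq n c k) c (K * (n + 1) ^ 2))

/-- value of a block of bits modulo `max v 1` -/
def valm (v : ℕ) (l : List Bool) : ℕ := l.foldl (fun x b => (2 * x + if b then 1 else 0) % max v 1) 0

/-- the `i`-th sample from the list `V` -/
def smp (V : List ℕ) (rs : List Bool) (w i : ℕ) : ℕ :=
  V.getD (valm V.length ((rs.drop (i * w)).take w)) 0

/-- vertices which are not dominated by `X` -/
def uncL (I : GI) (X : List ℕ) : List ℕ :=
  (List.range I.1).filter (fun x => X.all (fun v => !adjV I v x))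

/-- vertices chosen in the first `i` rounds -/
def chosen (n : ℕ) (as : List Bool) (i : ℕ) : List ℕ :=
  ((List.range (i * n)).filter (fun p => !as.getD p true)).map (fun p => p % n)

/-- the set of the vertex `v` in the query after the answers `as` -/
def qset (I : GI) (V : List ℕ) (rs as : List Bool) (w q v : ℕ) : List ℕ :=
  if v < I.1 ∧ ¬ (v = as.length % I.1 ∨
      (v < as.length % I.1 ∧ as.getD (as.length / I.1 * I.1 + v) true = true)) then
    (List.range q).filter (fun i => adjV I v (smp V rs w i))
  else []

/-- the query after the answers `as` -/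
def query (I : GI) (V : List ℕ) (rs as : List Bool) (c K : ℕ) : SI :=
  ((List.range (bL I.1 c I.2.2 K)).map
    (fun v => qset I V rs as (Nat.size I.1) (bq I.1 c I.2.2) v), bq I.1 c I.2.2, I.2.2)

/-- the oracle procedure; the advice is `h = [c, K]` -/
def bnext (z : (GI × List ℕ × List Bool) × List Bool) : SI ⊕ Bool :=
  if uncL z.1.1 (chosen z.1.1.1 z.2 (z.2.length / z.1.1.1)) = [] ∨
      z.1.2.1.getD 0 0 ≤ z.2.length / z.1.1.1 then
    Sum.inr (decide (uncL z.1.1 (chosen z.1.1.1 z.2 (z.2.length / z.1.1.1)) = [] ∧
      (chosen z.1.1.1 z.2 (z.2.length / z.1.1.1)).length ≤ z.1.2.1.getD 0 0 * z.1.1.2.2))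
  else
    Sum.inl (query z.1.1 (uncL z.1.1 (chosen z.1.1.1 z.2 (z.2.length / z.1.1.1))) z.1.2.2 z.2
      (z.1.2.1.getD 0 0) (z.1.2.1.getD 1 0))

/-- number of random bits -/
def bR (z : GI × List ℕ) : ℕ := bq z.1.1 (z.2.getD 0 0) z.1.2.2 * Nat.size z.1.1

/-- number of steps -/
def bN (z : GI × List ℕ) : ℕ := z.2.getD 0 0 * z.1.1 + 1

/-- A good tape: if the samples from `V` are all dominated by at most `k` vertices `T`, then `T` dominates more than
the fraction `1 - 1 / B` of `V`. -/
def Good (I : GI) (c : ℕ) (rs : List Bool) : Prop :=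
  ∀ X : List ℕ, X.length ≤ c * I.2.2 → uncL I X ≠ [] → ∀ T : List ℕ, T.length ≤ I.2.2 →
    (∀ i < bq I.1 c I.2.2, ∃ v ∈ T, adjV I v (smp (uncL I X) rs (Nat.size I.1) i) = true) →
    bB I.1 c * (uncL I (X ++ T)).length < (uncL I X).length

end Pool.Agent.H78DS
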