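import Pool.Agent.H78DS.BoostDef

/-! # H78DS/BoostPT: the procedure is polynomial time

`fun_prop` with the closure lemmas of `Pool.Agent.PT` (`countP`, `natSize`, `foldl`, `take`, `drop`, `getD`, `filter`, `all`, `map`, `range`,
`ite`, `decide_*`, `inl`, `inr`) and `cp_polyTime`; the fold in `valm` has all its values `≤ max v 1` (so `PolyTime.foldl` applies). It is
best to prove first `PolyTime` of `bB`, `bz`, `bq`, `bL`, `valm`, `smp`, `adjV`, `uncL`, `chosen`, `qset`, `query` as functions of tuples (in the
form `PolyTime (fun x => smp (V x) (rs x) (w x) (i x))` for `PolyTime` arguments, with the attribute `fun_prop`). -/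

set_option autoImplicit false

namespace Pool.Agent.H78DS

open Pool.Agent.PT

section
variable {α : Type*} [Enc α]

@[fun_prop]
theorem bB_polyTimeBP {n c : α → ℕ} (hn : PolyTime n) (hc : PolyTime c) :
    PolyTime (fun x => bB (n x) (c x)) := by
  unfold bB
  exact PolyTime.countP (l := fun x => List.range (n x + 1))
    (g := fun x b => decide (cp b (c x) (n x + 1) ≤ n x)) (by fun_prop) (by fun_prop)

@[fun_prop]
theorem bz_polyTimeBP {n c k : α → ℕ} (hn : PolyTime n) (hc : PolyTime c) (hk : PolyTime k) :
    PolyTime (fun x => bz (n x) (c x) (k x)) := by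
  unfold bz
  fun_prop

@[fun_prop]
theorem bq_polyTimeBP {n c k : α → ℕ} (hn : PolyTime n) (hc : PolyTime c) (hk : PolyTime k) :
    PolyTime (fun x => bq (n x) (c x) (k x)) := by
  unfold bq
  fun_prop

@[fun_prop]
theorem bL_polyTimeBP {n c k K : α → ℕ} (hn : PolyTime n) (hc : PolyTime c) (hk : PolyTime k)
    (hK : PolyTime K) : PolyTime (fun x => bL (n x) (c x) (k x) (K x)) := by
  unfold bL
  fun_prop

theorem valm_le_BP (v : ℕ) (l : List Bool) (y : ℕ) (hy : y ≤ v) :
    l.foldl (fun x b => (2 * x + if b then 1 else 0) % max v 1) y ≤ v := by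
  induction l generalizing y with
  | nil => exact hy
  | cons b l ih =>
    rw [List.foldl_cons]
    apply ih
    have h := Nat.mod_lt (2 * y + if b then 1 else 0) (show 0 < max v 1 by omega)
    omega

@[fun_prop]
theorem valm_polyTimeBP {v : α → ℕ} {l : α → List Bool} (hv : PolyTime v) (hl : PolyTime l) :
    PolyTime (fun x => valm (v x) (l x)) := by
  unfold valm
  have h1 := hv.pbdd
  have hite : PolyTime (fun p : α × (ℕ × Bool) => if p.2.2 = true then 1 else 0) :=
    PolyTime.ite (P := fun p : α × (ℕ × Bool) => p.2.2 = true)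
      (PolyTime.decide_eq_true (by fun_prop)) (by fun_prop) (by fun_prop)
  refine PolyTime.foldl (l := l)
    (g := fun (x : α) (c : ℕ) (b : Bool) => (2 * c + if b then 1 else 0) % max (v x) 1)
    (y := fun _ => 0) hl (by fun_prop) (by fun_prop) (s := fun x => sz (v x)) (by fun_prop)
    (fun x i => ?_)
  have := valm_le_BP (v x) ((l x).take i) 0 (Nat.zero_le _)
  rw [sz_nat, sz_nat]
  omega

@[fun_prop]
theorem smp_polyTimeBP {V : α → List ℕ} {rs : α → List Bool} {w i : α → ℕ} (hV : PolyTime V)
    (hr : PolyTime rs) (hw : PolyTime w) (hi : PolyTime i) :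
    PolyTime (fun x => smp (V x) (rs x) (w x) (i x)) := by
  unfold smp
  fun_prop

@[fun_prop]
theorem adjV_polyTimeBP {I : α → GI} {v y : α → ℕ} (hI : PolyTime I) (hv : PolyTime v)
    (hy : PolyTime y) : PolyTime (fun x => adjV (I x) (v x) (y x)) := by
  unfold adjV
  have h1 : PolyTime (fun x => decide (y x < (I x).1)) := PolyTime.decide_lt hy (by fun_prop)
  have h2 : PolyTime (fun x => decide (v x < (I x).1)) := PolyTime.decide_lt hv (by fun_prop)
  have h3 : PolyTime (fun x => decide ((v x, y x) ∈ (I x).2.1)) :=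
    (PolyTime.decide_mem (f := fun x => (v x, y x)) (l := fun x => (I x).2.1)
      (by fun_prop) (by fun_prop)).congr fun x => decide_eq_decide.2 Iff.rfl
  have h4 : PolyTime (fun x => decide ((y x, v x) ∈ (I x).2.1)) :=
    (PolyTime.decide_mem (f := fun x => (y x, v x)) (l := fun x => (I x).2.1)
      (by fun_prop) (by fun_prop)).congr fun x => decide_eq_decide.2 Iff.rfl
  have h5 : PolyTime (fun x => decide (y x = v x)) := PolyTime.decide_eq hy hv
  exact h5.or ((h1.and h2).and (h3.or h4))

@[fun_prop]
theorem uncL_polyTimeBP {I : α → GI} {X : α → List ℕ} (hI : PolyTime I) (hX : PolyTime X) :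
    PolyTime (fun x => uncL (I x) (X x)) := by
  unfold uncL
  refine PolyTime.filter (l := fun x => List.range (I x).1)
    (g := fun x y => (X x).all (fun v => !adjV (I x) v y)) (by fun_prop) ?_
  exact PolyTime.all (l := fun p : α × ℕ => X p.1)
    (g := fun (p : α × ℕ) v => !adjV (I p.1) v p.2) (by fun_prop) (by fun_prop)

@[fun_prop]
theorem chosen_polyTimeBP {n i : α → ℕ} {as : α → List Bool} (hn : PolyTime n)
    (ha : PolyTime as) (hi : PolyTime i) : PolyTime (fun x => chosen (n x) (as x) (i x)) := by
  unfold chosen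
  refine PolyTime.map (l := fun x => (List.range (i x * n x)).filter
    (fun p => !(as x).getD p true)) (g := fun x p => p % n x) ?_ (by fun_prop)
  exact PolyTime.filter (l := fun x => List.range (i x * n x))
    (g := fun x p => !(as x).getD p true) (by fun_prop) (by fun_prop)

@[fun_prop]
theorem qset_polyTimeBP {I : α → GI} {V : α → List ℕ} {rs as : α → List Bool} {w q v : α → ℕ}
    (hI : PolyTime I) (hV : PolyTime V) (hr : PolyTime rs) (ha : PolyTime as) (hw : PolyTime w)
    (hq : PolyTime q) (hv : PolyTime v) :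
    PolyTime (fun x => qset (I x) (V x) (rs x) (as x) (w x) (q x) (v x)) := by
  unfold qset
  refine PolyTime.ite ?_ ?_ (by fun_prop)
  · have h1 : PolyTime (fun x => decide ((as x).getD
        ((as x).length / (I x).1 * (I x).1 + v x) true = true)) :=
      PolyTime.decide_eq_true (by fun_prop)
    fun_prop
  · exact PolyTime.filter (l := fun x => List.range (q x))
      (g := fun x i => adjV (I x) (v x) (smp (V x) (rs x) (w x) i)) (by fun_prop) (by fun_prop)

@[fun_prop]
theorem query_polyTimeBP {I : α → GI} {V : α → List ℕ} {rs as : α → List Bool} {c K : α → ℕ}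
    (hI : PolyTime I) (hV : PolyTime V) (hr : PolyTime rs) (ha : PolyTime as) (hc : PolyTime c)
    (hK : PolyTime K) :
    PolyTime (fun x => query (I x) (V x) (rs x) (as x) (c x) (K x)) := by
  unfold query
  refine PolyTime.pair ?_ (by fun_prop)
  exact PolyTime.map (l := fun x => List.range (bL (I x).1 (c x) (I x).2.2 (K x)))
    (g := fun x v => qset (I x) (V x) (rs x) (as x) (Nat.size (I x).1)
      (bq (I x).1 (c x) (I x).2.2) v) (by fun_prop) (by fun_prop)

end

theorem bR_polyTime : PolyTime bR := by
  unfold bR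
  fun_prop

theorem bN_polyTime : PolyTime bN := by
  unfold bN
  fun_prop

theorem bnext_polyTime : PolyTime bnext := by
  unfold bnext
  refine PolyTime.ite (by fun_prop) ?_ ?_
  · exact PolyTime.inr (by fun_prop)
  · exact PolyTime.inl (by fun_prop)

end Pool.Agent.H78DS
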