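import Pool.Agent.H78DS.RTDefs

/-! # H78DS/Comb: nested oracle procedures

`outer` asks subtasks `w : W`, the `i`-th one is solved by the oracle procedure `inner w i` with at most `N2 w` steps.
`comb` is the combined procedure. -/

set_option autoImplicit false

namespace Pool.Agent.H78DS

open Pool.Agent.PT

variable {W Z : Type}

/-- run of a procedure whose answers may depend on the number of the query -/
def runI (outer : List Bool → W ⊕ Bool) (ans : W → ℕ → Bool) : ℕ → List Bool → Bool
  | 0, _ => false
  | N + 1, as =>
    match outer as with
    | Sum.inl w => runI outer ans N (as ++ [ans w as.length])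
    | Sum.inr b => b

/-- one internal step: if the current subtask is finished, record its result -/
def advC (outer : List Bool → W ⊕ Bool) (inner : W → ℕ → List Bool → Z ⊕ Bool) (N1 : ℕ) (N2 : W → ℕ)
    (s : List Bool × List Bool) : List Bool × List Bool :=
  if N1 ≤ s.1.length then s else
    match outer s.1 with
    | Sum.inr _ => s
    | Sum.inl w =>
      if N2 w ≤ s.2.length then (s.1 ++ [false], []) else
        match inner w s.1.length s.2 with
        | Sum.inl _ => s
        | Sum.inr b => (s.1 ++ [b], [])

/-- internal steps until a query or the end -/
def settle (outer : List Bool → W ⊕ Bool) (inner : W → ℕ → List Bool → Z ⊕ Bool) (N1 : ℕ)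
    (N2 : W → ℕ) (s : List Bool × List Bool) : List Bool × List Bool :=
  (advC outer inner N1 N2)^[N1] s

/-- the state after the answers `as` -/
def combS (outer : List Bool → W ⊕ Bool) (inner : W → ℕ → List Bool → Z ⊕ Bool) (N1 : ℕ)
    (N2 : W → ℕ) (as : List Bool) : List Bool × List Bool :=
  as.foldl (fun s a => settle outer inner N1 N2 (s.1, s.2 ++ [a]))
    (settle outer inner N1 N2 ([], []))

/-- next action in a settled state -/
def combN (outer : List Bool → W ⊕ Bool) (inner : W → ℕ → List Bool → Z ⊕ Bool) (N1 : ℕ)
    (N2 : W → ℕ) (s : List Bool × List Bool) : Z ⊕ Bool :=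
  if N1 ≤ s.1.length then Sum.inr false else
    match outer s.1 with
    | Sum.inr b => Sum.inr b
    | Sum.inl w => if N2 w ≤ s.2.length then Sum.inr false else inner w s.1.length s.2

/-- the combined procedure -/
def comb (outer : List Bool → W ⊕ Bool) (inner : W → ℕ → List Bool → Z ⊕ Bool) (N1 : ℕ)
    (N2 : W → ℕ) (as : List Bool) : Z ⊕ Bool :=
  combN outer inner N1 N2 (combS outer inner N1 N2 as)

theorem comb_inl {outer : List Bool → W ⊕ Bool} {inner : W → ℕ → List Bool → Z ⊕ Bool} {N1 : ℕ}
    {N2 : W → ℕ} {as : List Bool} {z : Z} (h : comb outer inner N1 N2 as = Sum.inl z) :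
    ∃ (w : W) (l l' : List Bool), l.length < N1 ∧ outer l = Sum.inl w ∧
      inner w l.length l' = Sum.inl z := by
  unfold comb combN at h
  split_ifs at h with h1
  cases ho : outer (combS outer inner N1 N2 as).1 with
  | inr b => rw [ho] at h; simp at h
  | inl w =>
    rw [ho] at h
    simp only at h
    split_ifs at h
    exact ⟨w, _, _, by omega, ho, h⟩

section run

variable (outer : List Bool → W ⊕ Bool) (inner : W → ℕ → List Bool → Z ⊕ Bool) (N1 : ℕ)
  (N2 : W → ℕ) (O : Z → Bool)

/-- the answers of the inner procedure -/
def innerAns (w : W) (i : ℕ) : Bool := runO (inner w i) O (N2 w) []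

/-- the value of a state -/
def valS (s : List Bool × List Bool) : Bool :=
  if N1 ≤ s.1.length then false else
    match outer s.1 with
    | Sum.inr b => b
    | Sum.inl w => runI outer (innerAns inner N2 O) (N1 - s.1.length - 1)
        (s.1 ++ [runO (inner w s.1.length) O (N2 w - s.2.length) s.2])

theorem runI_eq_valS (l : List Bool) :
    runI outer (innerAns inner N2 O) (N1 - l.length) l = valS outer inner N1 N2 O (l, []) := by
  unfold valS
  by_cases h : N1 ≤ l.length
  · rw [if_pos h, Nat.sub_eq_zero_of_le h]; rfl
  · rw [if_neg h]
    obtain ⟨m, hm⟩ : ∃ m, N1 - l.length = m + 1 := ⟨N1 - l.length - 1, by omega⟩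
    rw [hm, runI]
    have hm' : m = N1 - l.length - 1 := by omega
    cases ho : outer l with
    | inl w =>
      simp only
      rw [hm']
      rfl
    | inr b => rfl

theorem valS_adv (s : List Bool × List Bool) :
    valS outer inner N1 N2 O (advC outer inner N1 N2 s) = valS outer inner N1 N2 O s := by
  obtain ⟨a, b⟩ := s
  unfold advC
  by_cases h : N1 ≤ a.length
  · rw [if_pos h]
  · rw [if_neg h]
    cases ho : outer a with
    | inr b' => rfl
    | inl w =>
      simp only
      have key : ∀ x : Bool, runO (inner w a.length) O (N2 w - b.length) b = x →
          valS outer inner N1 N2 O (a ++ [x], []) = valS outer inner N1 N2 O (a, b) := by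
        intro x hx
        rw [← runI_eq_valS]
        conv_rhs => unfold valS
        simp only
        rw [if_neg h, ho]
        simp only
        rw [hx, List.length_append, List.length_singleton]
        rfl
      by_cases h2 : N2 w ≤ b.length
      · rw [if_pos h2]
        apply key
        rw [Nat.sub_eq_zero_of_le h2]
        rfl
      · rw [if_neg h2]
        cases hi : inner w a.length b with
        | inl z => rfl
        | inr x =>
          simp only
          apply key
          obtain ⟨m, hm⟩ : ∃ m, N2 w - b.length = m + 1 := ⟨N2 w - b.length - 1, by omega⟩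
          rw [hm, runO, hi]

theorem valS_iter (n : ℕ) (s : List Bool × List Bool) :
    valS outer inner N1 N2 O ((advC outer inner N1 N2)^[n] s) = valS outer inner N1 N2 O s := by
  induction n generalizing s with
  | zero => rfl
  | succ n ih => rw [Function.iterate_succ_apply, ih, valS_adv]

theorem valS_settle (s : List Bool × List Bool) :
    valS outer inner N1 N2 O (settle outer inner N1 N2 s) = valS outer inner N1 N2 O s :=
  valS_iter outer inner N1 N2 O N1 s

omit O in
/-- an internal step changes nothing or starts a new subtask -/
theorem adv_cases (s : List Bool × List Bool) :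
    advC outer inner N1 N2 s = s ∨ (s.1.length < N1 ∧
      (advC outer inner N1 N2 s).1.length = s.1.length + 1 ∧ (advC outer inner N1 N2 s).2 = []) := by
  unfold advC
  by_cases h : N1 ≤ s.1.length
  · rw [if_pos h]; exact Or.inl rfl
  · rw [if_neg h]
    cases ho : outer s.1 with
    | inr b' => exact Or.inl rfl
    | inl w =>
      simp only
      by_cases h2 : N2 w ≤ s.2.length
      · rw [if_pos h2]
        exact Or.inr ⟨by omega, by simp, rfl⟩
      · rw [if_neg h2]
        cases hi : inner w s.1.length s.2 with
        | inl z => exact Or.inl rfl
        | inr x => exact Or.inr ⟨by omega, by simp, rfl⟩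

omit O in
theorem iter_cases (n : ℕ) (s : List Bool × List Bool) :
    advC outer inner N1 N2 ((advC outer inner N1 N2)^[n] s) = (advC outer inner N1 N2)^[n] s ∨
      n + 1 ≤ (advC outer inner N1 N2 ((advC outer inner N1 N2)^[n] s)).1.length := by
  induction n with
  | zero =>
    rcases adv_cases outer inner N1 N2 s with h | ⟨-, h, -⟩
    · exact Or.inl h
    · exact Or.inr (by simp only [Function.iterate_zero, id]; omega)
  | succ n ih =>
    rw [Function.iterate_succ_apply']
    rcases ih with h | h
    · exact Or.inl (by rw [h, h])
    · rcases adv_cases outer inner N1 N2 (advC outer inner N1 N2 ((advC outer inner N1 N2)^[n] s)) with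
        h' | ⟨-, h', -⟩
      · exact Or.inl h'
      · exact Or.inr (by omega)

omit O in
theorem adv_settle (s : List Bool × List Bool) :
    advC outer inner N1 N2 (settle outer inner N1 N2 s) = settle outer inner N1 N2 s := by
  unfold settle
  rcases iter_cases outer inner N1 N2 N1 s with h | h
  · exact h
  · rcases adv_cases outer inner N1 N2 ((advC outer inner N1 N2)^[N1] s) with h' | ⟨h1, h2, -⟩
    · exact h'
    · omega

/-- bound for the number of the remaining queries -/
def mu (N1 M : ℕ) (s : List Bool × List Bool) : ℕ := (N1 - s.1.length) * M - s.2.length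

omit O in
theorem iter_mu (M : ℕ) (n : ℕ) (s : List Bool × List Bool) (hs : s.2.length ≤ M) :
    ((advC outer inner N1 N2)^[n] s).2.length ≤ M ∧
      mu N1 M ((advC outer inner N1 N2)^[n] s) ≤ mu N1 M s := by
  induction n generalizing s with
  | zero => exact ⟨hs, le_rfl⟩
  | succ n ih =>
    rw [Function.iterate_succ_apply]
    rcases adv_cases outer inner N1 N2 s with h | ⟨h1, h2, h3⟩
    · rw [h]; exact ih s hs
    · have h4 : (advC outer inner N1 N2 s).2.length ≤ M := by rw [h3]; simp
      have h5 := ih _ h4
      refine ⟨h5.1, h5.2.trans ?_⟩
      unfold mu
      rw [h2, h3]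
      obtain ⟨d, hd⟩ : ∃ d, N1 - s.1.length = d + 1 := ⟨N1 - s.1.length - 1, by omega⟩
      have hd' : N1 - (s.1.length + 1) = d := by omega
      rw [hd, hd', List.length_nil, add_mul, one_mul]
      omega

theorem run_comb_aux (M : ℕ) (hM : ∀ w, N2 w ≤ M) (fuel : ℕ) (as : List Bool)
    (hs : (combS outer inner N1 N2 as).2.length ≤ M)
    (hset : advC outer inner N1 N2 (combS outer inner N1 N2 as) = combS outer inner N1 N2 as)
    (hf : mu N1 M (combS outer inner N1 N2 as) + 1 ≤ fuel) :
    runO (comb outer inner N1 N2) O fuel as =
      valS outer inner N1 N2 O (combS outer inner N1 N2 as) := by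
  induction fuel generalizing as with
  | zero => omega
  | succ fuel ih =>
    rw [runO]
    have hc : comb outer inner N1 N2 as = combN outer inner N1 N2 (combS outer inner N1 N2 as) := rfl
    rw [hc]
    set s := combS outer inner N1 N2 as with hsdef
    unfold combN
    by_cases h : N1 ≤ s.1.length
    · rw [if_pos h]
      unfold valS
      rw [if_pos h]
    · rw [if_neg h]
      cases ho : outer s.1 with
      | inr b =>
        unfold valS
        rw [if_neg h, ho]
      | inl w =>
        simp only
        by_cases h2 : N2 w ≤ s.2.length
        · -- not settled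
          exfalso
          unfold advC at hset
          rw [if_neg h, ho] at hset
          simp only at hset
          rw [if_pos h2] at hset
          have := congrArg (fun t : List Bool × List Bool => t.1.length) hset
          simp at this
        · rw [if_neg h2]
          cases hi : inner w s.1.length s.2 with
          | inr x =>
            exfalso
            unfold advC at hset
            rw [if_neg h, ho] at hset
            simp only at hset
            rw [if_neg h2, hi] at hset
            have := congrArg (fun t : List Bool × List Bool => t.1.length) hset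
            simp at this
          | inl z =>
            simp only
            have hw := hM w
            have hcomb : combS outer inner N1 N2 (as ++ [O z]) =
                settle outer inner N1 N2 (s.1, s.2 ++ [O z]) := by
              rw [hsdef]
              unfold combS
              rw [List.foldl_append]
              rfl
            have hlen : (s.1, s.2 ++ [O z]).2.length ≤ M := by
              simp only [List.length_append, List.length_singleton]; omega
            have hmu := iter_mu outer inner N1 N2 M N1 (s.1, s.2 ++ [O z]) hlen
            rw [ih (as ++ [O z]) (by rw [hcomb]; exact hmu.1) (by rw [hcomb]; exact adv_settle _ _ _ _ _)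
              (by
                rw [hcomb]
                have h3 : mu N1 M (settle outer inner N1 N2 (s.1, s.2 ++ [O z])) ≤
                    mu N1 M (s.1, s.2 ++ [O z]) := hmu.2
                have h4 : mu N1 M (s.1, s.2 ++ [O z]) + 1 ≤ mu N1 M s := by
                  unfold mu
                  simp only [List.length_append, List.length_singleton]
                  obtain ⟨d, hd⟩ : ∃ d, N1 - s.1.length = d + 1 := ⟨N1 - s.1.length - 1, by omega⟩
                  rw [hd, add_mul, one_mul]
                  omega
                omega), hcomb, valS_settle]
            -- one step of the inner procedure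
            unfold valS
            simp only
            rw [if_neg h, if_neg h, ho]
            simp only
            obtain ⟨d, hd⟩ : ∃ d, N2 w - s.2.length = d + 1 := ⟨N2 w - s.2.length - 1, by omega⟩
            have hd' : N2 w - (s.2 ++ [O z]).length = d := by
              rw [List.length_append, List.length_singleton]; omega
            rw [hd', hd, runO, hi]

/-- RUN OF THE COMBINED PROCEDURE -/
theorem run_comb (M : ℕ) (hM : ∀ w, N2 w ≤ M) (fuel : ℕ) (hf : N1 * M + 1 ≤ fuel) :
    runO (comb outer inner N1 N2) O fuel [] = runI outer (innerAns inner N2 O) N1 [] := by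
  have h0 : combS outer inner N1 N2 [] = settle outer inner N1 N2 ([], []) := rfl
  have hmu := iter_mu outer inner N1 N2 M N1 ([], []) (by simp)
  have h1 : mu N1 M ([], []) = N1 * M := by simp [mu]
  rw [run_comb_aux outer inner N1 N2 O M hM fuel [] (by rw [h0]; exact hmu.1)
    (by rw [h0]; exact adv_settle _ _ _ _ _) (by
      rw [h0]
      have h2 : mu N1 M (settle outer inner N1 N2 ([], [])) ≤ mu N1 M ([], []) := hmu.2
      omega), h0, valS_settle, ← runI_eq_valS]
  simp

end run

end Pool.Agent.H78DS
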