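import Pool.Agent.H78DS.Comb
import Pool.Agent.PT.Bridge

/-! # H78DS/CombPT: the combined procedure is polynomial time -/

set_option autoImplicit false

namespace Pool.Agent.H78DS

open Pool.Agent.PT

variable {α W Z : Type} [Enc α] [Enc W] [Enc Z]

theorem adv_polyTime {outer : α × List Bool → W ⊕ Bool} {inner : (α × W × ℕ) × List Bool → Z ⊕ Bool}
    {N1 : α → ℕ} {N2 : α × W → ℕ} (h1 : PolyTime outer) (h2 : PolyTime inner) (h3 : PolyTime N1)
    (h4 : PolyTime N2) :
    PolyTime (fun p : α × (List Bool × List Bool) =>
      advC (fun l => outer (p.1, l)) (fun w i l => inner ((p.1, w, i), l)) (N1 p.1)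
        (fun w => N2 (p.1, w)) p.2) := by
  have hin : PolyTime (fun q : (α × (List Bool × List Bool)) × W =>
      if N2 (q.1.1, q.2) ≤ q.1.2.2.length then (q.1.2.1 ++ [false], ([] : List Bool)) else
        Sum.casesOn (motive := fun _ => List Bool × List Bool)
          (inner ((q.1.1, q.2, q.1.2.1.length), q.1.2.2)) (fun _ => q.1.2)
          (fun b => (q.1.2.1 ++ [b], []))) := by
    refine PolyTime.ite (by fun_prop) (by fun_prop) ?_
    refine PolyTime.sumCases (o := fun q : (α × (List Bool × List Bool)) × W =>
      inner ((q.1.1, q.2, q.1.2.1.length), q.1.2.2)) (f := fun q _ => q.1.2)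
      (g := fun q b => (q.1.2.1 ++ [b], [])) (by fun_prop) (by fun_prop) (by fun_prop)
  have hout : PolyTime (fun p : α × (List Bool × List Bool) =>
      Sum.casesOn (motive := fun _ => List Bool × List Bool) (outer (p.1, p.2.1))
        (fun w => if N2 (p.1, w) ≤ p.2.2.length then (p.2.1 ++ [false], ([] : List Bool)) else
          Sum.casesOn (motive := fun _ => List Bool × List Bool)
            (inner ((p.1, w, p.2.1.length), p.2.2)) (fun _ => p.2)
            (fun b => (p.2.1 ++ [b], [])))
        (fun _ => p.2)) := by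
    refine PolyTime.sumCases (o := fun p : α × (List Bool × List Bool) => outer (p.1, p.2.1))
      (f := fun p w => if N2 (p.1, w) ≤ p.2.2.length then (p.2.1 ++ [false], ([] : List Bool)) else
          Sum.casesOn (motive := fun _ => List Bool × List Bool)
            (inner ((p.1, w, p.2.1.length), p.2.2)) (fun _ => p.2)
            (fun b => (p.2.1 ++ [b], [])))
      (g := fun p _ => p.2) (by fun_prop) hin (by fun_prop)
  have h : PolyTime (fun p : α × (List Bool × List Bool) =>
      if N1 p.1 ≤ p.2.1.length then p.2 else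
      Sum.casesOn (motive := fun _ => List Bool × List Bool) (outer (p.1, p.2.1))
        (fun w => if N2 (p.1, w) ≤ p.2.2.length then (p.2.1 ++ [false], ([] : List Bool)) else
          Sum.casesOn (motive := fun _ => List Bool × List Bool)
            (inner ((p.1, w, p.2.1.length), p.2.2)) (fun _ => p.2)
            (fun b => (p.2.1 ++ [b], [])))
        (fun _ => p.2)) := PolyTime.ite (by fun_prop) (by fun_prop) hout
  refine h.congr fun p => ?_
  unfold advC
  beta_reduce
  split_ifs with hc
  · rfl
  · cases ho : outer (p.1, p.2.1) with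
    | inr b => rfl
    | inl w =>
      simp only
      split_ifs with hc2
      · rfl
      · cases hi : inner ((p.1, w, p.2.1.length), p.2.2) <;> rfl

section len

variable (outer : List Bool → W ⊕ Bool) (inner : W → ℕ → List Bool → Z ⊕ Bool) (N1 : ℕ)
  (N2 : W → ℕ)

theorem iter_len (n : ℕ) (s : List Bool × List Bool) :
    ((advC outer inner N1 N2)^[n] s).1.length ≤ max N1 s.1.length ∧
      ((advC outer inner N1 N2)^[n] s).2.length ≤ s.2.length := by
  induction n generalizing s with
  | zero => exact ⟨le_max_right _ _, le_rfl⟩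
  | succ n ih =>
    rw [Function.iterate_succ_apply]
    rcases adv_cases outer inner N1 N2 s with h | ⟨h1, h2, h3⟩
    · rw [h]; exact ih s
    · have h5 := ih (advC outer inner N1 N2 s)
      rw [h2, h3] at h5
      exact ⟨h5.1.trans (by omega), h5.2.trans (by simp)⟩

theorem settle_len (s : List Bool × List Bool) :
    (settle outer inner N1 N2 s).1.length ≤ max N1 s.1.length ∧
      (settle outer inner N1 N2 s).2.length ≤ s.2.length := iter_len _ _ _ _ _ _

theorem foldl_len (as : List Bool) (s : List Bool × List Bool) (hs : s.1.length ≤ N1) :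
    (as.foldl (fun s a => settle outer inner N1 N2 (s.1, s.2 ++ [a])) s).1.length ≤ N1 ∧
      (as.foldl (fun s a => settle outer inner N1 N2 (s.1, s.2 ++ [a])) s).2.length ≤
        s.2.length + as.length := by
  induction as generalizing s with
  | nil => exact ⟨hs, le_rfl⟩
  | cons a as ih =>
    rw [List.foldl_cons]
    have h1 := settle_len outer inner N1 N2 (s.1, s.2 ++ [a])
    simp only [List.length_append, List.length_singleton] at h1
    have h2 := ih (settle outer inner N1 N2 (s.1, s.2 ++ [a])) (by omega)
    refine ⟨h2.1, h2.2.trans ?_⟩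
    rw [List.length_cons]
    omega

end len

theorem sz_state (s : List Bool × List Bool) : sz s ≤ 4 * s.1.length + 4 * s.2.length + 3 := by
  rw [sz_prod]
  have h1 := sz_listBool s.1
  have h2 := sz_listBool s.2
  omega

theorem settle_polyTime {outer : α × List Bool → W ⊕ Bool}
    {inner : (α × W × ℕ) × List Bool → Z ⊕ Bool}
    {N1 : α → ℕ} {N2 : α × W → ℕ} (h1 : PolyTime outer) (h2 : PolyTime inner) (h3 : PolyTime N1)
    (h4 : PolyTime N2) :
    PolyTime (fun p : α × (List Bool × List Bool) =>
      settle (fun l => outer (p.1, l)) (fun w i l => inner ((p.1, w, i), l)) (N1 p.1)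
        (fun w => N2 (p.1, w)) p.2) := by
  have ha := adv_polyTime h1 h2 h3 h4
  have hN := h3.pbdd
  refine PolyTime.iterate' (f := fun (p : α × (List Bool × List Bool)) s =>
    advC (fun l => outer (p.1, l)) (fun w i l => inner ((p.1, w, i), l)) (N1 p.1)
        (fun w => N2 (p.1, w)) s) (n := fun p => N1 p.1) (g := fun p => p.2)
    (s := fun p => 4 * (sz (N1 p.1) + sz p.2.1) + 4 * sz p.2.2 + 3) ?_ (by fun_prop) (by fun_prop) ?_ ?_
  · exact ha.comp (f := fun q : (α × (List Bool × List Bool)) × (List Bool × List Bool) =>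
      (q.1.1, q.2)) (by fun_prop)
  · have e1 : PBdd (fun p : α × (List Bool × List Bool) => sz (N1 p.1)) :=
      (PolyTime.pbdd (f := fun p : α × (List Bool × List Bool) => N1 p.1) (by fun_prop))
    have e2 : PBdd (fun p : α × (List Bool × List Bool) => sz p.2.1) :=
      (PolyTime.pbdd (f := fun p : α × (List Bool × List Bool) => p.2.1) (by fun_prop))
    have e3 : PBdd (fun p : α × (List Bool × List Bool) => sz p.2.2) :=
      (PolyTime.pbdd (f := fun p : α × (List Bool × List Bool) => p.2.2) (by fun_prop))
    fun_prop
  · intro p i _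
    have h5 := iter_len (fun l => outer (p.1, l)) (fun w i l => inner ((p.1, w, i), l)) (N1 p.1)
        (fun w => N2 (p.1, w)) i p.2
    have h6 := sz_state ((advC (fun l => outer (p.1, l)) (fun w i l => inner ((p.1, w, i), l)) (N1 p.1)
        (fun w => N2 (p.1, w)))^[i] p.2)
    have h7 := length_le_sz p.2.1
    have h8 := length_le_sz p.2.2
    have h9 : N1 p.1 ≤ sz (N1 p.1) := by rw [sz_nat]; omega
    refine h6.trans ?_
    have h10 := h5.1
    have h11 := h5.2
    have h12 : max (N1 p.1) p.2.1.length ≤ N1 p.1 + p.2.1.length := by omega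
    omega

theorem comb_polyTime {outer : α × List Bool → W ⊕ Bool}
    {inner : (α × W × ℕ) × List Bool → Z ⊕ Bool}
    {N1 : α → ℕ} {N2 : α × W → ℕ} (h1 : PolyTime outer) (h2 : PolyTime inner) (h3 : PolyTime N1)
    (h4 : PolyTime N2) :
    PolyTime (fun p : α × List Bool =>
      comb (fun l => outer (p.1, l)) (fun w i l => inner ((p.1, w, i), l)) (N1 p.1)
        (fun w => N2 (p.1, w)) p.2) := by
  have hs := settle_polyTime h1 h2 h3 h4
  have hinit : PolyTime (fun p : α × List Bool =>
      settle (fun l => outer (p.1, l)) (fun w i l => inner ((p.1, w, i), l)) (N1 p.1)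
        (fun w => N2 (p.1, w)) ([], [])) :=
    hs.comp (f := fun p : α × List Bool => (p.1, (([] : List Bool), ([] : List Bool)))) (by fun_prop)
  have hS : PolyTime (fun p : α × List Bool =>
      combS (fun l => outer (p.1, l)) (fun w i l => inner ((p.1, w, i), l)) (N1 p.1)
        (fun w => N2 (p.1, w)) p.2) := by
    have e1 : PBdd (fun p : α × List Bool => sz (N1 p.1)) :=
      (PolyTime.pbdd (f := fun p : α × List Bool => N1 p.1) (by fun_prop))
    have e2 : PBdd (fun p : α × List Bool => sz p.2) :=
      (PolyTime.pbdd (f := fun p : α × List Bool => p.2) (by fun_prop))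
    refine PolyTime.foldl (l := fun p : α × List Bool => p.2)
      (g := fun p s a => settle (fun l => outer (p.1, l)) (fun w i l => inner ((p.1, w, i), l))
        (N1 p.1) (fun w => N2 (p.1, w)) (s.1, s.2 ++ [a]))
      (y := fun p => settle (fun l => outer (p.1, l)) (fun w i l => inner ((p.1, w, i), l)) (N1 p.1)
        (fun w => N2 (p.1, w)) ([], []))
      (s := fun p => 4 * sz (N1 p.1) + 4 * sz p.2 + 3) (by fun_prop) ?_ hinit (by fun_prop) ?_
    · exact hs.comp (f := fun q : (α × List Bool) × ((List Bool × List Bool) × Bool) =>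
        (q.1.1, (q.2.1.1, q.2.1.2 ++ [q.2.2]))) (by fun_prop)
    · intro p i
      have h5 := settle_len (fun l => outer (p.1, l)) (fun w i l => inner ((p.1, w, i), l)) (N1 p.1)
        (fun w => N2 (p.1, w)) ([], [])
      simp only [List.length_nil] at h5
      have h6 := foldl_len (fun l => outer (p.1, l)) (fun w i l => inner ((p.1, w, i), l)) (N1 p.1)
        (fun w => N2 (p.1, w)) (p.2.take i) _ (by omega :
          (settle (fun l => outer (p.1, l)) (fun w i l => inner ((p.1, w, i), l)) (N1 p.1)
            (fun w => N2 (p.1, w)) ([], [])).1.length ≤ N1 p.1)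
      have h7 := sz_state (List.foldl (fun s a => settle (fun l => outer (p.1, l))
        (fun w i l => inner ((p.1, w, i), l)) (N1 p.1) (fun w => N2 (p.1, w)) (s.1, s.2 ++ [a]))
        (settle (fun l => outer (p.1, l)) (fun w i l => inner ((p.1, w, i), l)) (N1 p.1)
          (fun w => N2 (p.1, w)) ([], [])) (p.2.take i))
      have h8 : (p.2.take i).length ≤ p.2.length := (List.take_sublist i p.2).length_le
      have h9 := length_le_sz p.2
      have h10 : N1 p.1 ≤ sz (N1 p.1) := by rw [sz_nat]; omega
      omega
  have hN : PolyTime (fun p : α × (List Bool × List Bool) =>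
      combN (fun l => outer (p.1, l)) (fun w i l => inner ((p.1, w, i), l)) (N1 p.1)
        (fun w => N2 (p.1, w)) p.2) := by
    have hin : PolyTime (fun q : (α × (List Bool × List Bool)) × W =>
        if N2 (q.1.1, q.2) ≤ q.1.2.2.length then (Sum.inr false : Z ⊕ Bool) else
          inner ((q.1.1, q.2, q.1.2.1.length), q.1.2.2)) :=
      PolyTime.ite (by fun_prop) (by fun_prop) (by fun_prop)
    have hout := PolyTime.sumCases (o := fun p : α × (List Bool × List Bool) => outer (p.1, p.2.1))
      (f := fun p w => if N2 (p.1, w) ≤ p.2.2.length then (Sum.inr false : Z ⊕ Bool) else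
          inner ((p.1, w, p.2.1.length), p.2.2))
      (g := fun p b => (Sum.inr b : Z ⊕ Bool)) (by fun_prop) hin (by fun_prop)
    have h := PolyTime.ite (P := fun p : α × (List Bool × List Bool) => N1 p.1 ≤ p.2.1.length)
      (f := fun _ => (Sum.inr false : Z ⊕ Bool)) (by fun_prop) (by fun_prop) hout
    refine h.congr fun p => ?_
    unfold combN
    beta_reduce
    split_ifs with hc
    · rfl
    · cases ho : outer (p.1, p.2.1) <;> rfl
  exact hN.comp (f := fun p : α × List Bool => (p.1, combS (fun l => outer (p.1, l))
    (fun w i l => inner ((p.1, w, i), l)) (N1 p.1) (fun w => N2 (p.1, w)) p.2)) (by fun_prop)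

end Pool.Agent.H78DS
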