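import Pool.Agent.H78DS.Dig

/-! # H78DS/Comp: algorithms from reductions

PROOF of `InSub.of_subRed`. Let `(h, e, p, C, R)` be the reduction, `(h', e', A')` the algorithm for `Q`. As `R` is polynomial
time there is a polynomial `P` with `sz (R z) ≤ P.eval (sz z)` (`PolyTime.pbdd`), hence constants `c₁, d` with
`sz (R z) ≤ c₁ * (sz z) ^ d` (`poly_le`; `sz z ≥ 1`). For `z = (x, h k, w)`, `w = sz x ^ e k` : `sz z ≤ sz x + sz (h k) + 2 w + 4 ≤
(lsz (h k) + 7) * sz x ^ (e k + 1)`, where `lsz l = sz l` is computable (`sz_list_nat`). So with `y = R z`,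
`sz y ^ e' (p k) ≤ c₂ k * sz x ^ ((e k + 1) * d * e' (p k))`, `c₂ k = (c₁ * (lsz (h k) + 7) ^ d) ^ e' (p k)`.
The new algorithm: `e'' k = e k + (e k + 1) * d * e' (p k)`,
`h'' k = e k :: e' (p k) :: c₂ k :: (h k).length :: (h k ++ h' (p k))`, and `A'' (x, l, w'')` computes `w = cp (sz x) l₀ w''`
(`= sz x ^ e k` by `cp_eq_pow`), `h k` and `h' (p k)` from `l` (`take`, `drop`), `y = R (x, h k, w)`,
`v = cp (sz y) l₁ (l₂ * w'')` (`= sz y ^ e' (p k)`), and `A' (y, h' (p k), v)`. Polynomial time by `fun_prop` (with `have := hR`,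
`have := hA'` in the form `PolyTime (fun p : … => …)`).
Limit: `e'' / k → 0` : `e k ≤ C (k + 1) / p k`, `p k → ∞`, `p k ≤ k + 1`, and
`(e k + 1) * e' (p k) / k ≤ (C (k + 1) / k) * (e' (p k) / p k) + (p k / k) * (e' (p k) / p k)`, `p k / k ≤ 2` for `k ≥ 1`; use
`squeeze_zero'` and `Tendsto.comp`.
Computability: `lsz` is primitive recursive (`Primrec.list_foldl`), powers and products as in H78DS/Advice
(`Computable₂` of `fun a b => a ^ b` : `npow_computable`). -/

set_option autoImplicit false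

namespace Pool.Agent.H78DS

open Filter Pool.Agent.PT

theorem poly_le (P : Polynomial ℕ) : ∃ c d : ℕ, ∀ n : ℕ, 1 ≤ n → P.eval n ≤ c * n ^ d := by
  refine ⟨∑ i ∈ Finset.range (P.natDegree + 1), P.coeff i, P.natDegree, fun n hn => ?_⟩
  rw [Polynomial.eval_eq_sum_range, Finset.sum_mul]
  refine Finset.sum_le_sum fun i hi => Nat.mul_le_mul_left _ (Nat.pow_le_pow_right hn ?_)
  rw [Finset.mem_range] at hi
  omega

/-- size of the code of a list of numbers -/
def lsz (l : List ℕ) : ℕ := l.foldl (fun s a => s + (2 * a + 2)) 1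

private theorem lsz_aux (l : List ℕ) : ∀ s : ℕ,
    l.foldl (fun s a => s + (2 * a + 2)) s + 1 = s + sz l := by
  induction l with
  | nil => intro s; simp
  | cons a l ih =>
    intro s
    rw [List.foldl_cons, ih, sz_cons, sz_nat]
    omega

theorem sz_list_nat (l : List ℕ) : sz l = lsz l := by
  have := lsz_aux l 1
  unfold lsz
  omega

theorem lsz_computable : Computable lsz := by
  have h : Primrec lsz := by
    refine (Primrec.list_foldl (f := fun l : List ℕ => l) (g := fun _ => 1)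
      (h := fun _ (p : ℕ × ℕ) => p.1 + (2 * p.2 + 2)) Primrec.id (Primrec.const 1) ?_).of_eq
      fun l => rfl
    exact Primrec.nat_add.comp (Primrec.fst.comp Primrec.snd)
      (Primrec.nat_add.comp (Primrec.nat_mul.comp (Primrec.const 2) (Primrec.snd.comp Primrec.snd))
        (Primrec.const 2))
  exact h.to_comp

theorem npow_computable {f g : ℕ → ℕ} (hf : Computable f) (hg : Computable g) :
    Computable (fun k => f k ^ g k) := by
  have h := Computable.nat_rec (f := g) (g := fun _ : ℕ => 1)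
    (h := fun k (p : ℕ × ℕ) => p.2 * f k) hg (Computable.const 1)
    (Primrec.nat_mul.to_comp.comp (Computable.snd.comp Computable.snd) (hf.comp Computable.fst))
  refine h.of_eq fun k => ?_
  induction g k with
  | zero => rfl
  | succ n ih => rw [pow_succ, ← ih]

variable {X Y : Type} [Enc X] [Enc Y]

private theorem of_subRed_lim {e e' p : ℕ → ℕ} {C : ℕ} (d : ℕ) (hplim : Tendsto p atTop atTop)
    (hpk : ∀ k, p k ≤ k + 1) (hek : ∀ k, e k * p k ≤ C * (k + 1))
    (hlim : Tendsto (fun k => (e' k : ℝ) / k) atTop (nhds 0)) :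
    Tendsto (fun k => ((e k + (e k + 1) * d * e' (p k) : ℕ) : ℝ) / k) atTop (nhds 0) := by
  have h1 : Tendsto (fun k => (e' (p k) : ℝ) / (p k : ℝ)) atTop (nhds 0) := hlim.comp hplim
  have h2 : Tendsto (fun k => ((p k : ℝ))⁻¹) atTop (nhds 0) :=
    tendsto_inv_atTop_zero.comp (tendsto_natCast_atTop_atTop.comp hplim)
  have h3 : Tendsto (fun k => (2 * C : ℝ) * ((p k : ℝ))⁻¹ +
      (d * (2 * C + 2) : ℝ) * ((e' (p k) : ℝ) / (p k : ℝ))) atTop (nhds 0) := by
    have h4 := (h2.const_mul (2 * C : ℝ)).add (h1.const_mul (d * (2 * C + 2) : ℝ))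
    simpa using h4
  refine squeeze_zero' (Eventually.of_forall fun k => by positivity) ?_ h3
  filter_upwards [eventually_ge_atTop 1, hplim.eventually_ge_atTop 1] with k hk hp1
  have hk0 : (0 : ℝ) < k := by exact_mod_cast hk
  have hk1 : (1 : ℝ) ≤ k := by exact_mod_cast hk
  have hp0 : (0 : ℝ) < p k := by exact_mod_cast hp1
  have a1 : (e k : ℝ) * p k ≤ C * (k + 1) := by exact_mod_cast hek k
  have a2 : (p k : ℝ) ≤ k + 1 := by exact_mod_cast hpk k
  have hC0 : (0 : ℝ) ≤ C := Nat.cast_nonneg _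
  have hd0 : (0 : ℝ) ≤ d := Nat.cast_nonneg _
  have he0 : (0 : ℝ) ≤ e' (p k) := Nat.cast_nonneg _
  have b1 : (e k : ℝ) ≤ 2 * C * k / p k := by
    rw [le_div_iff₀ hp0]
    nlinarith
  have b2 : (1 : ℝ) ≤ 2 * k / p k := by
    rw [le_div_iff₀ hp0]
    linarith
  rw [div_le_iff₀ hk0]
  push_cast
  have c1 : ((2 * C : ℝ) * ((p k : ℝ))⁻¹ +
      (d * (2 * C + 2) : ℝ) * ((e' (p k) : ℝ) / (p k : ℝ))) * k =
      2 * C * k / p k + (2 * C * k / p k + 2 * k / p k) * d * e' (p k) := by
    field_simp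
  rw [c1]
  have c2 : ((e k : ℝ) + 1) * d * e' (p k) ≤
      (2 * C * k / p k + 2 * k / p k) * d * e' (p k) := by
    refine mul_le_mul_of_nonneg_right (mul_le_mul_of_nonneg_right ?_ hd0) he0
    linarith
  linarith

theorem InSub.of_subRed {P : Prob X} {Q : Prob Y} (hr : SubRed P Q) (hQ : InSub Q) : InSub P := by
  obtain ⟨h, e, p, C, R, hh, he, hp, hR, hplim, hpk, hek, hred⟩ := hr
  obtain ⟨h', e', A', hh', he', hlim, hA', hQA⟩ := hQ
  obtain ⟨PR, hPR⟩ := hR.pbdd
  obtain ⟨c1, d, hc1⟩ := poly_le PR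
  obtain ⟨w, hw⟩ : ∃ w : X × List ℕ × ℕ → ℕ, w = fun z => cp (sz z.1) (z.2.1.getD 0 0) z.2.2 :=
    ⟨_, rfl⟩
  obtain ⟨y, hy⟩ : ∃ y : X × List ℕ × ℕ → Y, y = fun z =>
    R (z.1, (z.2.1.drop 4).take (z.2.1.getD 3 0), w z) := ⟨_, rfl⟩
  have hwP : PolyTime w := by
    rw [hw]
    fun_prop
  have hyP : PolyTime y := by
    rw [hy]
    have h1 : PolyTime (fun z : X × List ℕ × ℕ =>
      (z.1, (z.2.1.drop 4).take (z.2.1.getD 3 0), w z)) := by fun_prop
    exact hR.comp h1
  refine ⟨fun k => e k :: e' (p k) :: (c1 * (lsz (h k) + 7) ^ d) ^ e' (p k) :: (h k).length ::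
      (h k ++ h' (p k)),
    fun k => e k + (e k + 1) * d * e' (p k),
    fun z => A' (y z, (z.2.1.drop 4).drop (z.2.1.getD 3 0),
      cp (sz (y z)) (z.2.1.getD 1 0) (z.2.1.getD 2 0 * z.2.2)), ?_, ?_, ?_, ?_, fun x => ?_⟩
  · have hep : Computable (fun k => e' (p k)) := he'.comp hp
    have hc : Computable (fun k => (c1 * (lsz (h k) + 7) ^ d) ^ e' (p k)) := by
      refine npow_computable ?_ hep
      refine Primrec.nat_mul.to_comp.comp (Computable.const c1) ?_
      refine npow_computable (g := fun _ => d) ?_ (Computable.const d)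
      exact Primrec.nat_add.to_comp.comp (lsz_computable.comp hh) (Computable.const 7)
    exact Computable.list_cons.comp he (Computable.list_cons.comp hep
      (Computable.list_cons.comp hc (Computable.list_cons.comp (Computable.list_length.comp hh)
        (Computable.list_append.comp hh (hh'.comp hp)))))
  · have hep : Computable (fun k => e' (p k)) := he'.comp hp
    exact Primrec.nat_add.to_comp.comp he (Primrec.nat_mul.to_comp.comp
      (Primrec.nat_mul.to_comp.comp (Primrec.nat_add.to_comp.comp he (Computable.const 1))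
        (Computable.const d)) hep)
  · exact of_subRed_lim d hplim hpk hek hlim
  · have h1 : PolyTime (fun z : X × List ℕ × ℕ =>
      (y z, (z.2.1.drop 4).drop (z.2.1.getD 3 0),
      cp (sz (y z)) (z.2.1.getD 1 0) (z.2.1.getD 2 0 * z.2.2))) := by fun_prop
    exact hA'.comp h1
  · obtain ⟨hr1, hr2, hr3⟩ := hred x
    obtain ⟨k, hk⟩ : ∃ k, k = P.par x := ⟨_, rfl⟩
    rw [← hk] at hr1 hr2 hr3 ⊢
    have hx1 : 1 ≤ sz x := sz_pos x
    obtain ⟨W, hW⟩ : ∃ W, W = sz x ^ (e k + (e k + 1) * d * e' (p k)) := ⟨_, rfl⟩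
    obtain ⟨l, hl⟩ : ∃ l, l = e k :: e' (p k) :: (c1 * (lsz (h k) + 7) ^ d) ^ e' (p k) ::
      (h k).length :: (h k ++ h' (p k)) := ⟨_, rfl⟩
    have l0 : l.getD 0 0 = e k := by rw [hl]; rfl
    have l1 : l.getD 1 0 = e' (p k) := by rw [hl]; rfl
    have l2 : l.getD 2 0 = (c1 * (lsz (h k) + 7) ^ d) ^ e' (p k) := by rw [hl]; rfl
    have l3 : l.getD 3 0 = (h k).length := by rw [hl]; rfl
    have l4 : l.drop 4 = h k ++ h' (p k) := by rw [hl]; rfl
    have l5 : (l.drop 4).take (l.getD 3 0) = h k := by rw [l3, l4, List.take_left']; rfl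
    have l6 : (l.drop 4).drop (l.getD 3 0) = h' (p k) := by rw [l3, l4, List.drop_left']; rfl
    have hwx : w (x, l, W) = sz x ^ e k := by
      rw [hw]
      change cp (sz x) (l.getD 0 0) W = _
      rw [l0, hW]
      exact cp_eq_pow (Nat.pow_le_pow_right hx1 (Nat.le_add_right _ _))
    have hyx : y (x, l, W) = R (x, h k, sz x ^ e k) := by
      rw [hy]
      change R (x, (l.drop 4).take (l.getD 3 0), w (x, l, W)) = _
      rw [l5, hwx]
    have hsz : sz (y (x, l, W)) ^ e' (p k) ≤ (c1 * (lsz (h k) + 7) ^ d) ^ e' (p k) * W := by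
      obtain ⟨X0, hX0⟩ : ∃ X0, X0 = sz x ^ (e k + 1) := ⟨_, rfl⟩
      have b1 : sz (x, h k, sz x ^ e k) ≤ (lsz (h k) + 7) * X0 := by
        rw [sz_prod, sz_prod, sz_nat, sz_list_nat]
        have b2 : sz x ≤ X0 := by
          rw [hX0]
          exact Nat.le_self_pow (by omega) _
        have b3 : sz x ^ e k ≤ X0 := by
          rw [hX0]
          exact Nat.pow_le_pow_right hx1 (by omega)
        have b4 : 1 ≤ X0 := hx1.trans b2
        have b5 : lsz (h k) ≤ lsz (h k) * X0 := Nat.le_mul_of_pos_right _ b4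
        simp only
        nlinarith
      have b6 : sz (y (x, l, W)) ≤ c1 * ((lsz (h k) + 7) * X0) ^ d := by
        rw [hyx]
        refine (hPR (x, h k, sz x ^ e k)).trans ?_
        refine (hc1 _ (sz_pos _)).trans ?_
        exact Nat.mul_le_mul_left _ (Nat.pow_le_pow_left b1 _)
      refine (Nat.pow_le_pow_left b6 _).trans ?_
      have b7 : (c1 * ((lsz (h k) + 7) * X0) ^ d) ^ e' (p k) =
          (c1 * (lsz (h k) + 7) ^ d) ^ e' (p k) * sz x ^ ((e k + 1) * d * e' (p k)) := by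
        rw [mul_pow (lsz (h k) + 7) X0 d, ← mul_assoc, mul_pow (c1 * _), hX0, ← pow_mul,
          ← pow_mul, mul_assoc (e k + 1) d]
      rw [b7, hW]
      exact Nat.mul_le_mul_left _ (Nat.pow_le_pow_right hx1 (Nat.le_add_left _ _))
    have hv : cp (sz (y (x, l, W))) (l.getD 1 0) (l.getD 2 0 * W) =
        sz (y (x, l, W)) ^ e' (p k) := by
      rw [l1, l2]
      exact cp_eq_pow hsz
    have hq := hQA (R (x, h k, sz x ^ e k))
    rw [hr1] at hq
    constructor
    · intro hx
      have h1 := hq.1 (hr2 hx)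
      beta_reduce
      rw [← hl, ← hW]
      change A' (y (x, l, W), (l.drop 4).drop (l.getD 3 0),
        cp (sz (y (x, l, W))) (l.getD 1 0) (l.getD 2 0 * W)) = true
      rw [hv, l6, hyx]
      exact h1
    · intro hx
      have h1 := hq.2 (hr3 hx)
      beta_reduce
      rw [← hl, ← hW]
      change A' (y (x, l, W), (l.drop 4).drop (l.getD 3 0),
        cp (sz (y (x, l, W))) (l.getD 1 0) (l.getD 2 0 * W)) = false
      rw [hv, l6, hyx]
      exact h1

theorem InSub.of_inFPT {P : Prob X} (h : InFPT P) : InSub P := by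
  obtain ⟨h, A, hh, hA, hP⟩ := h
  refine ⟨h, fun _ => 0, fun z => A (z.1, z.2.1), hh, Computable.const 0, ?_, ?_, fun x => ?_⟩
  · simp
  · have h1 : PolyTime (fun z : X × List ℕ × ℕ => (z.1, z.2.1)) := by fun_prop
    exact hA.comp h1
  · exact hP x

end Pool.Agent.H78DS
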