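import Pool.Agent.PT.More

/-! # MP_91b64b_lc: parameterized promise problems, Dominating Set, Set Cover

`PolyTime`, `Enc`, `sz` are the polynomial time functions of the library `Pool.Agent.PT` (numbers are in unary). -/

set_option autoImplicit false

namespace Pool.Agent.H78DS

open Filter Pool.Agent.PT

/-! ### Problems -/

/-- parameterized promise problems: yes-instances, no-instances, parameter -/
structure Prob (X : Type) where
  /-- the yes-instances -/
  yes : X → Prop
  /-- the no-instances -/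
  no : X → Prop
  /-- the parameter -/
  par : X → ℕ

/-- Instances of Dominating Set: number of vertices, list of edges, parameter. -/
abbrev GI : Type := ℕ × List (ℕ × ℕ) × ℕ

/-- the graph of an instance -/
def gr (I : GI) : SimpleGraph (Fin I.1) :=
  SimpleGraph.fromRel (fun u v => ((u : ℕ), (v : ℕ)) ∈ I.2.1)

/-- `D` is a dominating set of `G` -/
def IsDom {V : Type} (G : SimpleGraph V) (D : Finset V) : Prop := ∀ v, v ∈ D ∨ ∃ u ∈ D, G.Adj u v

/-- minimum size of a dominating set -/
noncomputable def gam (I : GI) : ℕ :=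
  sInf {m | ∃ D : Finset (Fin I.1), IsDom (gr I) D ∧ D.card = m}

/-- The promise problem `GapDS_F`. -/
def GapDS (F : ℕ → ℝ) : Prob GI where
  yes I := gam I ≤ I.2.2
  no I := F I.2.2 * I.2.2 < gam I
  par I := I.2.2

/-- The exact problem `k`-Dominating Set. -/
def kDS : Prob GI where
  yes I := gam I ≤ I.2.2
  no I := ¬ gam I ≤ I.2.2
  par I := I.2.2

/-- Instances of Set Cover: list of sets of numbers, size `m` of the universe `{0, …, m - 1}`, parameter. -/
abbrev SI : Type := List (List ℕ) × ℕ × ℕ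

/-- the sets with the numbers in `T` cover the universe -/
def SCov (I : SI) (T : Finset ℕ) : Prop := ∀ x < I.2.1, ∃ i ∈ T, x ∈ I.1.getD i []

/-- there is a cover by at most `j` sets -/
def HasSC (I : SI) (j : ℕ) : Prop := ∃ T : Finset ℕ, T.card ≤ j ∧ SCov I T

/-- Exact Set Cover with small universe: instances with `|U| ^ g(k) ≤ |S|`. -/
def SC (g : ℕ → ℕ) : Prob SI where
  yes I := I.2.1 ^ g I.2.2 ≤ I.1.length ∧ HasSC I I.2.2
  no I := I.2.1 ^ g I.2.2 ≤ I.1.length ∧ ¬ HasSC I I.2.2
  par I := I.2.2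

/-! ### Classes and reductions -/

variable {X Y : Type} [Enc X] [Enc Y]

/-- Fixed-parameter tractable: polynomial time after a computable precomputation on the parameter. -/
def InFPT (P : Prob X) : Prop :=
  ∃ (h : ℕ → List ℕ) (A : X × List ℕ → Bool), Computable h ∧ PolyTime A ∧
    ∀ x, (P.yes x → A (x, h (P.par x)) = true) ∧ (P.no x → A (x, h (P.par x)) = false)

/-- Solvable in time `f(k) |x| ^ o(k)`: `A` runs in polynomial time in `x`, a computable advice `h(k)` and the
number `|x| ^ e(k)` in unary, where `e(k) / k → 0`. -/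
def InSub (P : Prob X) : Prop :=
  ∃ (h : ℕ → List ℕ) (e : ℕ → ℕ) (A : X × List ℕ × ℕ → Bool), Computable h ∧ Computable e ∧
    Tendsto (fun k => (e k : ℝ) / k) atTop (nhds 0) ∧ PolyTime A ∧
    ∀ x, (P.yes x → A (x, h (P.par x), sz x ^ e (P.par x)) = true) ∧
      (P.no x → A (x, h (P.par x), sz x ^ e (P.par x)) = false)

/-- Many-one reductions in time `f(k) |x| ^ O(k / p(k))` whose image has the parameter `p(k) ≤ k + 1`, with
`p(k) → ∞`. -/
def SubRed (P : Prob X) (Q : Prob Y) : Prop :=
  ∃ (h : ℕ → List ℕ) (e p : ℕ → ℕ) (C : ℕ) (R : X × List ℕ × ℕ → Y),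
    Computable h ∧ Computable e ∧ Computable p ∧ PolyTime R ∧ Tendsto p atTop atTop ∧
    (∀ k, p k ≤ k + 1) ∧ (∀ k, e k * p k ≤ C * (k + 1)) ∧
    ∀ x, Q.par (R (x, h (P.par x), sz x ^ e (P.par x))) = p (P.par x) ∧
      (P.yes x → Q.yes (R (x, h (P.par x), sz x ^ e (P.par x)))) ∧
      (P.no x → Q.no (R (x, h (P.par x), sz x ^ e (P.par x))))

/-- fpt-reductions -/
def FptRed (P : Prob X) (Q : Prob Y) : Prop :=
  ∃ (h : ℕ → List ℕ) (G : ℕ → ℕ) (R : X × List ℕ → Y), Computable h ∧ Computable G ∧ PolyTime R ∧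
    ∀ x, Q.par (R (x, h (P.par x))) ≤ G (P.par x) ∧
      (P.yes x → Q.yes (R (x, h (P.par x)))) ∧ (P.no x → Q.no (R (x, h (P.par x))))

end Pool.Agent.H78DS
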