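import Pool.Agent.H78DS.Defs

/-! # H78DS/Dig: digits and capped powers

`cp b i c = min (b ^ i) c`, computed by iterating `y ↦ min (y * b) c`; `dig b i x` = the `i`-th digit of `x` in base `b`.

* `cp_eq`: induction on `i`; `min (min (b ^ i) c * b) c = min (b ^ (i + 1)) c` : if `b = 0` both are `0` (for `i + 1`), if `b ≥ 1`
split on `b ^ i ≤ c`. For `i = 0`: the start value is `min 1 c`.
* `cp_polyTime`: `PolyTime.iterate'` with `s x = 2 * c x + 1`-like bound (all iterates are `≤ c`), or `congr`.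
* `dig_polyTime`: `x / b ^ i = x / cp b i (x + 1)` : if `b ^ i ≤ x + 1` then equal, otherwise both are `0`.
* `exists_dig`: induction on `N`: `x = x' + f N * b ^ N`. (`Nat.add_mul_div_right`, `Nat.div_eq_of_lt`, …) Or use
`Nat.ofDigits` / `finFunctionFinEquiv`. -/

set_option autoImplicit false

namespace Pool.Agent.H78DS

open Pool.Agent.PT

/-- capped power -/
def cp (b i c : ℕ) : ℕ := (fun y => min (y * b) c)^[i] (min 1 c)

/-- digit -/
def dig (b i x : ℕ) : ℕ := (x / b ^ i) % b

theorem cp_eq (b i c : ℕ) : cp b i c = min (b ^ i) c := by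
  induction i with
  | zero => simp [cp]
  | succ i ih =>
    have h : cp b (i + 1) c = min (cp b i c * b) c := by
      rw [cp, cp, Function.iterate_succ_apply']
    rw [h, ih, pow_succ]
    rcases Nat.eq_zero_or_pos b with h0 | h0
    · subst h0; simp
    · rcases le_or_gt (b ^ i) c with h1 | h1
      · rw [min_eq_left h1]
      · rw [min_eq_right h1.le, min_eq_right (Nat.le_mul_of_pos_right c h0),
          min_eq_right (h1.le.trans (Nat.le_mul_of_pos_right _ h0))]

theorem cp_eq_pow {b i c : ℕ} (h : b ^ i ≤ c) : cp b i c = b ^ i := by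
  rw [cp_eq, min_eq_left h]

theorem cp_le (b i c : ℕ) : cp b i c ≤ c := by
  rw [cp_eq]; exact min_le_right _ _

variable {α : Type*} [Enc α]

@[fun_prop]
theorem cp_polyTime {f g h : α → ℕ} (hf : PolyTime f) (hg : PolyTime g) (hh : PolyTime h) :
    PolyTime (fun x => cp (f x) (g x) (h x)) := by
  have h1 := hh.pbdd
  have h2 := PolyTime.iterate' (f := fun x (y : ℕ) => min (y * f x) (h x)) (n := g)
    (g := fun x => min 1 (h x)) (by fun_prop) hg (by fun_prop)
    (s := fun x => sz (h x)) (by fun_prop) (fun x i hi => by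
      have h3 : (fun y => min (y * f x) (h x))^[i] (min 1 (h x)) = cp (f x) i (h x) := rfl
      rw [h3]
      simp only [sz_nat]
      have := cp_le (f x) i (h x)
      omega)
  exact h2.congr fun x => rfl

@[fun_prop]
theorem dig_polyTime {f g h : α → ℕ} (hf : PolyTime f) (hg : PolyTime g) (hh : PolyTime h) :
    PolyTime (fun x => dig (f x) (g x) (h x)) := by
  have h1 : PolyTime (fun x => (h x / cp (f x) (g x) (h x + 1)) % f x) := by fun_prop
  refine h1.congr fun x => ?_
  have h2 : h x / f x ^ g x = h x / cp (f x) (g x) (h x + 1) := by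
    rcases le_or_gt (f x ^ g x) (h x + 1) with h3 | h3
    · rw [cp_eq_pow h3]
    · rw [cp_eq, min_eq_right h3.le, Nat.div_eq_of_lt (by omega), Nat.div_eq_of_lt (by omega)]
  rw [dig, h2]

theorem dig_lt {b : ℕ} (hb : 1 ≤ b) (i x : ℕ) : dig b i x < b := Nat.mod_lt _ hb

theorem exists_dig (b N : ℕ) (f : ℕ → ℕ) (hf : ∀ i < N, f i < b) :
    ∃ x < b ^ N, ∀ i < N, dig b i x = f i := by
  induction N with
  | zero => exact ⟨0, by simp, fun i hi => absurd hi (Nat.not_lt_zero i)⟩
  | succ N ih =>
    obtain ⟨x, hx, hd⟩ := ih fun i hi => hf i (Nat.lt_succ_of_lt hi)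
    have hfN := hf N (Nat.lt_succ_self N)
    have hb : 0 < b := lt_of_le_of_lt (Nat.zero_le _) hfN
    refine ⟨x + f N * b ^ N, ?_, fun i hi => ?_⟩
    · have h1 : f N + 1 ≤ b := hfN
      have h2 : (f N + 1) * b ^ N ≤ b * b ^ N := Nat.mul_le_mul_right _ h1
      rw [pow_succ, mul_comm (b ^ N) b]
      calc x + f N * b ^ N < b ^ N + f N * b ^ N := by omega
        _ = (f N + 1) * b ^ N := by ring
        _ ≤ b * b ^ N := h2
    · rcases Nat.lt_succ_iff_lt_or_eq.1 hi with h1 | h1
      · rw [← hd i h1, dig, dig]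
        obtain ⟨k, rfl⟩ := Nat.exists_eq_add_of_lt h1
        have h2 : f (i + k + 1) * b ^ (i + k + 1) = (f (i + k + 1) * b ^ k * b) * b ^ i := by ring
        rw [h2, Nat.add_mul_div_right _ _ (pow_pos hb i), Nat.add_mul_mod_self_right]
      · subst h1
        rw [dig, Nat.add_mul_div_right _ _ (pow_pos hb i), Nat.div_eq_of_lt hx, Nat.zero_add,
          Nat.mod_eq_of_lt hfN]

end Pool.Agent.H78DS
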