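import Pool.Agent.H78DS.Dig

/-! # H78DS/GapDef: the gap producing reduction (after Lin 2019)

From `I = (S, m, k)` with `L` sets: new sets `(s, j)` with `s < L`, `j < k`; new elements `(a, q, α)` with `a, q < P`,
`P = 2 (L + σ) + 1`, and `α < M` (`M = m ^ B`, `B = σ ^ k`), where `α` codes a function `{0, …, B - 1} → {0, …, m - 1}`,
`b ↦ dig m b α`. The set `(s, j)` contains `(a, q, α)` if for some `b < B`, the `j`-th digit of `b` (base `σ`) is
`((a s) mod q) mod σ` and `dig m b α ∈ S_s`. The graph: set vertices `s k + j` form a clique, every element has `H + 1`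
copies, adjacent to the sets which contain it. -/

set_option autoImplicit false

namespace Pool.Agent.H78DS

open Pool.Agent.PT

/-- the set `(s, j)` contains the element `(a, q, α)` -/
def covB (I : SI) (σ B s j a q α : ℕ) : Bool :=
  (List.range B).any (fun b => decide (dig σ j b = ((a * s) % q) % σ) &&
    decide (dig I.2.1 b α ∈ I.1.getD s []))

/-- number of set vertices -/
def nS (I : SI) : ℕ := I.1.length * I.2.2

/-- range of `a`, `q` -/
def PP (I : SI) (σ : ℕ) : ℕ := 2 * (I.1.length + σ) + 1

/-- number of elements with their copies -/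
def nE (I : SI) (H σ M : ℕ) : ℕ := PP I σ * PP I σ * M * (H + 1)

/-- the element vertex with number `y` is covered by the set vertex `u` -/
def covV (I : SI) (H σ B M u y : ℕ) : Bool :=
  covB I σ B (u / I.2.2) (u % I.2.2) (y / (H + 1) / M / PP I σ) (y / (H + 1) / M % PP I σ)
    (y / (H + 1) % M)

/-- directed adjacency -/
def adjB (I : SI) (H σ B M u v : ℕ) : Bool :=
  decide (u < nS I) && (decide (v < nS I) || covV I H σ B M u (v - nS I))

/-- the new instance; `M` should be `m ^ B` and `B` should be `σ ^ k` -/
def gapInst (I : SI) (H σ B M : ℕ) : GI :=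
  (nS I + nE I H σ M,
    ((List.range (nS I + nE I H σ M)).product (List.range (nS I + nE I H σ M))).filter
      (fun p => adjB I H σ B M p.1 p.2), I.2.2)

end Pool.Agent.H78DS
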