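import Pool.Agent.H78DS.GapDef

/-! # H78DS/GapYes: yes-instances stay yes-instances

PROOF of `gap_yes`. `gam ≤ k` follows from a dominating set `D` with `D.card ≤ k` (`Nat.sInf_le` and `le_trans`). Let
`L, m, k` be the components of `I`.
Case `k = 0`: the cover `T` is empty (`T.card ≤ 0`), so `m = 0`; `B = σ ^ 0 = 1`, `M = 0 ^ 1 = 0`, `nS = 0`, `nE = 0`: there
is no vertex, `D = ∅`.
Case `k ≥ 1`, `nS = 0` : then `L = 0`, all `getD s []` are empty, so `m = 0`, `M = 0 ^ (σ ^ k) = 0` (`σ ^ k ≥ 1`), no vertex.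
Case `k ≥ 1`, `L ≥ 1`: choose `τ : ℕ → ℕ` with `τ j < L` for all `j` such that all `x < m` are in `S_(τ j)` for some `j < k`:
enumerate `T ∩ [0, L)` (numbers `≥ L` are useless) as `τ 0, …` and continue with `0`; (from `T.card ≤ k` get a surjection, e.g.
`Finset.exists_...`, `T.equivFin` or `List` `T.toList.getD j 0`). `D` = set of the vertices `τ j * k + j` (`< L k = nS`),
`j < k`. It has at most `k` elements. A set vertex `v < nS` : `D` is nonempty (contains `τ 0 * k`), either `v ∈ D` or it is adjacent to a vertex of `D`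
(clique). An element vertex `v = nS + y`: let `a, q, α` be its components, `α < M = m ^ B` (`M ≥ 1` as there is a vertex, so
`m ≥ 1`). Let `φ s = ((a s) mod q) mod σ < σ`; by `exists_dig` there is `b < σ ^ k = B` with `dig σ j b = φ (τ j)` for all
`j < k`. `x = dig m b α < m` is in `S_(τ j)` for some `j < k`. So the vertex `u = τ j * k + j` satisfies `covV … u y`
(`u / k = τ j`, `u % k = j`), and `(u, v)` is in the list of edges, `u ≠ v`. -/

set_option autoImplicit false

namespace Pool.Agent.H78DS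

private theorem gam_le {I : GI} {D : Finset (Fin I.1)} (hD : IsDom (gr I) D) {k : ℕ}
    (hk : D.card ≤ k) : gam I ≤ k :=
  (Nat.sInf_le (show D.card ∈ {m | ∃ D : Finset (Fin I.1), IsDom (gr I) D ∧ D.card = m} from
    ⟨D, hD, rfl⟩)).trans hk

private theorem gam_le_of_zero {I : GI} (h : I.1 = 0) {k : ℕ} : gam I ≤ k := by
  refine gam_le (D := ∅) (fun v => ?_) (by simp)
  have := v.2
  omega

private theorem gy_choose {S : List (List ℕ)} {m k : ℕ} (hL : 1 ≤ S.length) {T : Finset ℕ}
    (hT : T.card ≤ k) (hc : ∀ x < m, ∃ i ∈ T, x ∈ S.getD i []) :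
    ∃ τ : ℕ → ℕ, (∀ j, τ j < S.length) ∧ ∀ x < m, ∃ j < k, x ∈ S.getD (τ j) [] := by
  obtain ⟨l, hl⟩ : ∃ l, l = (T.filter (· < S.length)).toList := ⟨_, rfl⟩
  have hmem : ∀ i, i ∈ l ↔ i ∈ T ∧ i < S.length := by
    intro i
    rw [hl, Finset.mem_toList, Finset.mem_filter]
  have hlen : l.length ≤ k := by
    rw [hl, Finset.length_toList]
    exact (Finset.card_filter_le _ _).trans hT
  refine ⟨fun j => l.getD j 0, fun j => ?_, fun x hx => ?_⟩
  · by_cases hj : j < l.length
    · have h1 : l.getD j 0 = l[j] := List.getD_eq_getElem _ _ hj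
      simp only [h1]
      exact ((hmem _).1 (List.getElem_mem hj)).2
    · have h1 : l.getD j 0 = 0 := List.getD_eq_default _ _ (not_lt.1 hj)
      simp only [h1]
      exact hL
  · obtain ⟨i, hi, hxi⟩ := hc x hx
    have hiL : i < S.length := by
      by_contra hcon
      rw [List.getD_eq_default _ _ (not_lt.1 hcon)] at hxi
      exact absurd hxi (by simp)
    obtain ⟨j, hj, hji⟩ := List.getElem_of_mem ((hmem i).2 ⟨hi, hiL⟩)
    refine ⟨j, by omega, ?_⟩
    have h1 : l.getD j 0 = l[j] := List.getD_eq_getElem _ _ hj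
    simp only [h1, hji]
    exact hxi

theorem gap_yes (I : SI) (H σ : ℕ) (hσ : 1 ≤ σ) (h : HasSC I I.2.2) :
    gam (gapInst I H σ (σ ^ I.2.2) (I.2.1 ^ (σ ^ I.2.2))) ≤ I.2.2 := by
  obtain ⟨S, m, k⟩ := I
  obtain ⟨T, hT, hc⟩ := h
  simp only at hT hc ⊢
  have hc' : ∀ x < m, ∃ i ∈ T, x ∈ S.getD i [] := hc
  have hB : σ ^ k ≠ 0 := by positivity
  by_cases hm : m = 0
  · -- no element vertices
    subst hm
    have hM : 0 ^ (σ ^ k) = 0 := zero_pow hB
    by_cases hk : k = 0
    · refine gam_le_of_zero ?_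
      show nS (S, 0, k) + nE (S, 0, k) H σ (0 ^ σ ^ k) = 0
      unfold nS nE
      rw [hM]
      simp [hk]
    · by_cases hL : S.length = 0
      · refine gam_le_of_zero ?_
        show nS (S, 0, k) + nE (S, 0, k) H σ (0 ^ σ ^ k) = 0
        unfold nS nE
        rw [hM]
        simp [hL]
      · have hk1 : 1 ≤ k := by omega
        have hL1 : 1 ≤ S.length := by omega
        have hn : nS (S, 0, k) + nE (S, 0, k) H σ (0 ^ σ ^ k) = S.length * k := by
          unfold nS nE
          rw [hM]
          simp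
        have hpos : 0 < S.length * k := by positivity
        refine gam_le (D := {⟨0, by
          show 0 < nS (S, 0, k) + nE (S, 0, k) H σ (0 ^ σ ^ k)
          rw [hn]
          exact hpos⟩}) (fun v => ?_) (by simpa using hk1)
        have hv : (v : ℕ) < nS (S, 0, k) + nE (S, 0, k) H σ (0 ^ σ ^ k) := v.2
        by_cases hv0 : (v : ℕ) = 0
        · left
          rw [Finset.mem_singleton]
          exact Fin.ext hv0
        · right
          refine ⟨_, Finset.mem_singleton_self _, ?_⟩
          unfold gr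
          rw [SimpleGraph.fromRel_adj]
          refine ⟨fun hh => hv0 (by rw [← hh]), Or.inl ?_⟩
          show (0, (v : ℕ)) ∈ (gapInst (S, 0, k) H σ (σ ^ k) (0 ^ σ ^ k)).2.1
          unfold gapInst
          simp only
          rw [List.mem_filter]
          refine ⟨?_, ?_⟩
          · rw [List.pair_mem_product]
            refine ⟨List.mem_range.2 (by omega), List.mem_range.2 hv⟩
          · unfold adjB
            have e1 : (0 : ℕ) < nS (S, 0, k) := hpos
            have e2 : (v : ℕ) < nS (S, 0, k) := by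
              rw [hn] at hv
              exact hv
            simp [e1, e2]
  · have hk : k ≠ 0 := by
      rintro rfl
      obtain ⟨i, hi, _⟩ := hc' 0 (by omega)
      rw [Nat.le_zero, Finset.card_eq_zero] at hT
      rw [hT] at hi
      exact absurd hi (Finset.notMem_empty i)
    have hL : 1 ≤ S.length := by
      by_contra hcon
      obtain ⟨i, hi, hi'⟩ := hc' 0 (by omega)
      rw [List.getD_eq_default _ _ (by omega)] at hi'
      exact absurd hi' (by simp)
    obtain ⟨τ, hτ1, hτ2⟩ := gy_choose hL hT hc'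
    have hnS : nS (S, m, k) = S.length * k := rfl
    have hlt : ∀ j < k, τ j * k + j < nS (S, m, k) := by
      intro j hj
      rw [hnS]
      calc τ j * k + j < τ j * k + k := by omega
        _ = (τ j + 1) * k := by ring
        _ ≤ S.length * k := Nat.mul_le_mul_right k (hτ1 j)
    have hlt' : ∀ j : Fin k, τ j * k + j < (gapInst (S, m, k) H σ (σ ^ k) (m ^ σ ^ k)).1 :=
      fun j => (hlt j j.2).trans_le (Nat.le_add_right _ _)
    refine gam_le (D := (Finset.univ : Finset (Fin k)).image
      fun j : Fin k => ⟨τ j * k + j, hlt' j⟩) (fun v => ?_) (by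
        refine Finset.card_image_le.trans ?_
        simp)
    have hv : (v : ℕ) < nS (S, m, k) + nE (S, m, k) H σ (m ^ σ ^ k) := v.2
    have key : ∀ j : Fin k, (τ j * k + j : ℕ) ≠ v →
        adjB (S, m, k) H σ (σ ^ k) (m ^ σ ^ k) (τ j * k + j) v = true →
        ∃ u ∈ (Finset.univ : Finset (Fin k)).image (fun j : Fin k => (⟨τ j * k + j, hlt' j⟩ :
            Fin (gapInst (S, m, k) H σ (σ ^ k) (m ^ σ ^ k)).1)),
          (gr (gapInst (S, m, k) H σ (σ ^ k) (m ^ σ ^ k))).Adj u v := by
      intro j hne hadj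
      refine ⟨_, Finset.mem_image_of_mem _ (Finset.mem_univ j), ?_⟩
      unfold gr
      rw [SimpleGraph.fromRel_adj]
      refine ⟨fun hh => hne (by rw [← hh]), Or.inl ?_⟩
      show (τ j * k + j, (v : ℕ)) ∈ (gapInst (S, m, k) H σ (σ ^ k) (m ^ σ ^ k)).2.1
      unfold gapInst
      simp only
      rw [List.mem_filter]
      refine ⟨?_, hadj⟩
      rw [List.pair_mem_product]
      exact ⟨List.mem_range.2 ((hlt j j.2).trans_le (Nat.le_add_right _ _)), List.mem_range.2 hv⟩
    by_cases hvS : (v : ℕ) < nS (S, m, k)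
    · by_cases hv0 : (τ 0 * k + 0 : ℕ) = v
      · left
        rw [Finset.mem_image]
        exact ⟨⟨0, by omega⟩, Finset.mem_univ _, Fin.ext hv0⟩
      · right
        refine key ⟨0, by omega⟩ hv0 ?_
        unfold adjB
        have e1 := hlt 0 (by omega)
        simp only [decide_eq_true e1, decide_eq_true hvS, Bool.true_or, Bool.and_true]
    · right
      have hy : (v : ℕ) - nS (S, m, k) < nE (S, m, k) H σ (m ^ σ ^ k) := by omega
      have hM0 : 0 < m ^ σ ^ k := by positivity
      obtain ⟨b, hb, hbj⟩ := exists_dig σ k (fun j =>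
        ((((v : ℕ) - nS (S, m, k)) / (H + 1) / (m ^ σ ^ k) / PP (S, m, k) σ * τ j) %
          (((v : ℕ) - nS (S, m, k)) / (H + 1) / (m ^ σ ^ k) % PP (S, m, k) σ)) % σ)
        (fun j _ => Nat.mod_lt _ hσ)
      obtain ⟨j, hj, hxj⟩ := hτ2 (dig m b (((v : ℕ) - nS (S, m, k)) / (H + 1) % (m ^ σ ^ k)))
        (dig_lt (by omega) _ _)
      refine key ⟨j, hj⟩ (by have := hlt j hj; simp only; omega) ?_
      have hd : (τ j * k + j) / k = τ j := by
        rw [Nat.mul_comm, Nat.mul_add_div (by omega), Nat.div_eq_of_lt hj, Nat.add_zero]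
      have hmod : (τ j * k + j) % k = j := by
        rw [Nat.mul_comm, Nat.mul_add_mod, Nat.mod_eq_of_lt hj]
      have e1 := hlt j hj
      have e2 : covV (S, m, k) H σ (σ ^ k) (m ^ σ ^ k) (τ j * k + j)
          ((v : ℕ) - nS (S, m, k)) = true := by
        unfold covV covB
        simp only [hd, hmod]
        rw [List.any_eq_true]
        refine ⟨b, List.mem_range.2 hb, ?_⟩
        rw [Bool.and_eq_true, decide_eq_true_eq, decide_eq_true_eq]
        exact ⟨hbj j hj, hxj⟩
      unfold adjB
      simp only [e2, Bool.or_true, Bool.and_true, decide_eq_true e1]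

end Pool.Agent.H78DS
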