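import Pool.Agent.H78DS.Defs

/-! # MP_91b64b_lc: randomised fpt Turing reductions -/

set_option autoImplicit false

namespace Pool.Agent.H78DS

open Filter Pool.Agent.PT

/-- Run of an oracle procedure with at most `N` steps: `next` maps the list of the answers so far to the next query or to the
result. -/
def runO {Y : Type} (next : List Bool → Y ⊕ Bool) (O : Y → Bool) : ℕ → List Bool → Bool
  | 0, _ => false
  | N + 1, as =>
    match next as with
    | Sum.inl y => runO next O N (as ++ [O y])
    | Sum.inr b => b

variable {X Y : Type} [Enc X] [Enc Y]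

/-- Randomised fpt Turing reductions with one-sided error. `h` is a computable advice for the parameter, `R` the number of
random bits, `N` the number of steps; all queries satisfy the promise of `Q` and have a parameter `≤ G(k)`. For every
oracle which solves `Q`, yes-instances of `P` are accepted with probability at least `1 / 2` and no-instances are never
accepted. -/
def RTRed (P : Prob X) (Q : Prob Y) : Prop :=
  ∃ (h : ℕ → List ℕ) (G : ℕ → ℕ) (R N : X × List ℕ → ℕ)
    (next : (X × List ℕ × List Bool) × List Bool → Y ⊕ Bool),
    Computable h ∧ Computable G ∧ PolyTime R ∧ PolyTime N ∧ PolyTime next ∧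
    ∀ x : X,
      (∀ (r as : List Bool) (y : Y), next ((x, h (P.par x), r), as) = Sum.inl y →
        Q.par y ≤ G (P.par x) ∧ (Q.yes y ∨ Q.no y)) ∧
      ∀ O : Y → Bool, (∀ y, Q.yes y → O y = true) → (∀ y, Q.no y → O y = false) →
        (P.yes x → 2 ^ R (x, h (P.par x)) ≤ 2 * (Finset.univ.filter
          (fun r : Fin (R (x, h (P.par x))) → Bool =>
            runO (fun as => next ((x, h (P.par x), List.ofFn r), as)) O (N (x, h (P.par x))) [] =
              true)).card) ∧
        (P.no x → ∀ r : Fin (R (x, h (P.par x))) → Bool,
          runO (fun as => next ((x, h (P.par x), List.ofFn r), as)) O (N (x, h (P.par x))) [] =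
            false)

/-- Randomised fpt Turing reductions with error at most `2 ^ (- m)` for every `m` (given in unary). `h` is a computable
advice for the parameter, `R` the number of random bits, `N` the number of steps; all queries satisfy the promise of `Q`
and have a parameter `≤ G(k)`. For every oracle which solves `Q`, the result is wrong with probability at most
`2 ^ (- m)`. -/
def BRed (P : Prob X) (Q : Prob Y) : Prop :=
  ∃ (h : ℕ → List ℕ) (G : ℕ → ℕ) (R N : (X × List ℕ) × ℕ → ℕ)
    (next : ((X × List ℕ × List Bool) × ℕ) × List Bool → Y ⊕ Bool),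
    Computable h ∧ Computable G ∧ PolyTime R ∧ PolyTime N ∧ PolyTime next ∧
    ∀ (x : X) (m : ℕ), P.yes x ∨ P.no x →
      (∀ (r as : List Bool) (y : Y), next (((x, h (P.par x), r), m), as) = Sum.inl y →
        Q.par y ≤ G (P.par x) ∧ (Q.yes y ∨ Q.no y)) ∧
      ∀ O : Y → Bool, (∀ y, Q.yes y → O y = true) → (∀ y, Q.no y → O y = false) →
        (P.yes x → 2 ^ m * (Finset.univ.filter
          (fun r : Fin (R ((x, h (P.par x)), m)) → Bool =>
            runO (fun as => next (((x, h (P.par x), List.ofFn r), m), as)) O
              (N ((x, h (P.par x)), m)) [] = false)).card ≤ 2 ^ R ((x, h (P.par x)), m)) ∧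
        (P.no x → 2 ^ m * (Finset.univ.filter
          (fun r : Fin (R ((x, h (P.par x)), m)) → Bool =>
            runO (fun as => next (((x, h (P.par x), List.ofFn r), m), as)) O
              (N ((x, h (P.par x)), m)) [] = true)).card ≤ 2 ^ R ((x, h (P.par x)), m))

/-- Randomised fixed-parameter tractable with error at most `2 ^ (- m)` for every `m` (given in unary). -/
def InBPFPT (P : Prob X) : Prop :=
  ∃ (h : ℕ → List ℕ) (R : (X × List ℕ) × ℕ → ℕ) (A : (X × List ℕ × List Bool) × ℕ → Bool),
    Computable h ∧ PolyTime R ∧ PolyTime A ∧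
    ∀ (x : X) (m : ℕ),
      (P.yes x → 2 ^ m * (Finset.univ.filter
        (fun r : Fin (R ((x, h (P.par x)), m)) → Bool =>
          A ((x, h (P.par x), List.ofFn r), m) = false)).card ≤ 2 ^ R ((x, h (P.par x)), m)) ∧
      (P.no x → 2 ^ m * (Finset.univ.filter
        (fun r : Fin (R ((x, h (P.par x)), m)) → Bool =>
          A ((x, h (P.par x), List.ofFn r), m) = true)).card ≤ 2 ^ R ((x, h (P.par x)), m))

end Pool.Agent.H78DS
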