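import Pool.Agent.H78DS.BoostDef
import Pool.Agent.H78DS.Blocks

/-! # H78DS/TapeA: the probability that all samples avoid a large set

ONE BLOCK (`block_avoid`). The map `(Fin w → Bool) → ℕ`, `b ↦ val b` (`foldl (2 x + b)`) is a bijection onto `[0, 2 ^ w)` and
`valm v (List.ofFn b) = val b % v` for `v ≥ 1` (`Nat.add_mod`, `Nat.mul_mod`, induction from the right, `List.foldl_append` or
`List.ofFn_succ'`). With `v = V.length`, each residue `ρ < v` is the residue of at least `⌊2 ^ w / v⌋` numbers below `2 ^ w`, so at
least `V.countP P * ⌊2 ^ w / v⌋` blocks give a sample with `P`, and `2 v ⌊2 ^ w / v⌋ ≥ 2 ^ w` as `v ≤ 2 ^ w`. Hence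
`2 B * #(blocks with P) ≥ 2 * v * ⌊2 ^ w / v⌋ ≥ 2 ^ w`, and the other blocks are `2 ^ w -` these.
ALL BLOCKS (`tape_avoid`). Induction on `q`: `smp V rs w 0` depends on `rs.take w` and `smp V rs w (i + 1) = smp V (rs.drop w) w i`;
`(Fin ((q + 1) * w) → Bool) ≃ (Fin w → Bool) × (Fin (q * w) → Bool)` (`Fin.appendEquiv` after the cast `(q + 1) * w = w + q * w`,
`List.ofFn` of `Fin.append` is the append of the lists). -/

set_option autoImplicit false

namespace Pool.Agent.H78DS

/-- value of a block of bits -/
def vlT (x : ℕ) (l : List Bool) : ℕ := l.foldl (fun x b => 2 * x + if b then 1 else 0) x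

theorem valm_eq (v : ℕ) (hv : 1 ≤ v) (l : List Bool) : valm v l = vlT 0 l % v := by
  have key : ∀ (l : List Bool) (x : ℕ),
      l.foldl (fun x b => (2 * x + if b then 1 else 0) % max v 1) (x % v) = vlT x l % v := by
    intro l
    induction l with
    | nil => intro x; rfl
    | cons b l ih =>
      intro x
      rw [List.foldl_cons]
      have h1 : (2 * (x % v) + if b then 1 else 0) % max v 1 =
          (2 * x + if b then 1 else 0) % v := by
        rw [max_eq_left hv]
        exact (((Nat.mod_modEq x v).mul_left 2).add_right _)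
      rw [h1, ih]
      rfl
  have h := key l 0
  rw [Nat.zero_mod] at h
  exact h

theorem vlT_inj : ∀ (l l' : List Bool) (x x' : ℕ), l.length = l'.length → vlT x l = vlT x' l' →
    x = x' ∧ l = l'
  | [], [], x, x', _, h => ⟨h, rfl⟩
  | [], _ :: _, _, _, h, _ => by simp at h
  | _ :: _, [], _, _, h, _ => by simp at h
  | b :: l, b' :: l', x, x', h, h' => by
    have h1 := vlT_inj l l' _ _ (by simpa using h)
      (show vlT (2 * x + if b then 1 else 0) l = vlT (2 * x' + if b' then 1 else 0) l' from h')
    obtain ⟨h2, rfl⟩ := h1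
    cases b <;> cases b' <;> simp at h2 ⊢ <;> omega

theorem vlT_lt (l : List Bool) (x : ℕ) : vlT x l < (x + 1) * 2 ^ l.length := by
  induction l generalizing x with
  | nil => simp [vlT]
  | cons b l ih =>
    have h := ih (2 * x + if b then 1 else 0)
    have h1 : vlT x (b :: l) = vlT (2 * x + if b then 1 else 0) l := rfl
    rw [h1, List.length_cons, pow_succ]
    refine h.trans_le ?_
    have h2 : (2 * x + if b then 1 else 0) + 1 ≤ (x + 1) * 2 := by split_ifs <;> omega
    calc ((2 * x + if b then 1 else 0) + 1) * 2 ^ l.length ≤ ((x + 1) * 2) * 2 ^ l.length :=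
          Nat.mul_le_mul_right _ h2
      _ = (x + 1) * (2 ^ l.length * 2) := by ring

theorem card_vlT (w : ℕ) (R : ℕ → Prop) [DecidablePred R] :
    (Finset.univ.filter (fun b : Fin w → Bool => R (vlT 0 (List.ofFn b)))).card =
      ((Finset.range (2 ^ w)).filter R).card := by
  have hinj : Function.Injective (fun b : Fin w → Bool => vlT 0 (List.ofFn b)) := by
    intro b b' h
    have := (vlT_inj _ _ 0 0 (by simp) h).2
    exact List.ofFn_injective this
  have himg : Finset.univ.image (fun b : Fin w → Bool => vlT 0 (List.ofFn b)) =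
      Finset.range (2 ^ w) := by
    apply Finset.eq_of_subset_of_card_le
    · intro u hu
      obtain ⟨b, -, rfl⟩ := Finset.mem_image.1 hu
      rw [Finset.mem_range]
      have := vlT_lt (List.ofFn b) 0
      simpa using this
    · rw [Finset.card_image_of_injective _ hinj, Finset.card_range]
      simp
  rw [← himg, Finset.filter_image, Finset.card_image_of_injective _ hinj]

theorem countP_eq_card (V : List ℕ) (P : ℕ → Bool) :
    V.countP P = ((Finset.range V.length).filter (fun i => P (V.getD i 0) = true)).card := by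
  induction V using List.reverseRecOn with
  | nil => simp
  | append_singleton V a ih =>
    rw [List.countP_append, List.length_append, List.length_singleton, Finset.range_add_one,
      Finset.filter_insert, ih]
    have h1 : (V ++ [a]).getD V.length 0 = a := by simp
    have h2 : (Finset.range V.length).filter (fun i => P ((V ++ [a]).getD i 0) = true) =
        (Finset.range V.length).filter (fun i => P (V.getD i 0) = true) := by
      apply Finset.filter_congr
      intro i hi
      rw [List.getD_append _ _ _ _ (Finset.mem_range.1 hi)]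
    rw [h1, h2]
    by_cases hP : P a = true
    · rw [if_pos hP, Finset.card_insert_of_notMem (by simp)]
      simp [hP]
    · rw [if_neg hP]
      simp [hP]

theorem block_avoid (V : List ℕ) (hV : V ≠ []) (w B : ℕ) (hw : V.length ≤ 2 ^ w) (hB : 1 ≤ B)
    (P : ℕ → Bool) (hP : V.length ≤ B * V.countP P) :
    2 * B * (Finset.univ.filter (fun b : Fin w → Bool =>
      P (V.getD (valm V.length (List.ofFn b)) 0) = false)).card ≤ (2 * B - 1) * 2 ^ w := by
  have hv : 1 ≤ V.length := List.length_pos_iff.2 hV
  set v := V.length with hvdef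
  -- blocks with `P`
  have h1 : (Finset.univ.filter (fun b : Fin w → Bool =>
      P (V.getD (valm v (List.ofFn b)) 0) = false)).card +
      (Finset.univ.filter (fun b : Fin w → Bool =>
      P (V.getD (valm v (List.ofFn b)) 0) = true)).card = 2 ^ w := by
    have h := Finset.card_filter_add_card_filter_not (s := (Finset.univ : Finset (Fin w → Bool)))
      (fun b => P (V.getD (valm v (List.ofFn b)) 0) = true)
    simp only [Bool.not_eq_true] at h
    rw [add_comm, h]
    simp
  have h2 : (Finset.univ.filter (fun b : Fin w → Bool =>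
      P (V.getD (valm v (List.ofFn b)) 0) = true)).card =
      ((Finset.range (2 ^ w)).filter (fun u => P (V.getD (u % v) 0) = true)).card := by
    rw [← card_vlT w (fun u => P (V.getD (u % v) 0) = true)]
    congr 1
    apply Finset.filter_congr
    intro b _
    rw [valm_eq v hv]
  set D := 2 ^ w / v with hD
  have h3 : V.countP P * D ≤
      ((Finset.range (2 ^ w)).filter (fun u => P (V.getD (u % v) 0) = true)).card := by
    rw [countP_eq_card, ← Finset.card_range D, ← Finset.card_product]
    apply Finset.card_le_card_of_injOn (fun p => v * p.2 + p.1)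
    · rintro ⟨ρ, a⟩ h
      simp only [Finset.coe_product, Set.mem_prod, Finset.mem_coe, Finset.mem_filter,
        Finset.mem_range] at h ⊢
      obtain ⟨⟨h4, h5⟩, h6⟩ := h
      have h7 : (v * a + ρ) % v = ρ := by
        rw [Nat.mul_add_mod, Nat.mod_eq_of_lt h4]
      refine ⟨?_, by rw [h7]; exact h5⟩
      have h8 : v * D ≤ 2 ^ w := Nat.mul_div_le _ _
      calc v * a + ρ < v * a + v := by omega
        _ = v * (a + 1) := by ring
        _ ≤ v * D := Nat.mul_le_mul_left _ h6
        _ ≤ 2 ^ w := h8
    · rintro ⟨ρ, a⟩ h ⟨ρ', a'⟩ h' heq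
      simp only [Finset.coe_product, Set.mem_prod, Finset.mem_coe, Finset.mem_filter,
        Finset.mem_range] at h h' heq
      have h4 := h.1.1
      have h5 := h'.1.1
      have h6 : (v * a + ρ) % v = (v * a' + ρ') % v := by rw [heq]
      rw [Nat.mul_add_mod, Nat.mul_add_mod, Nat.mod_eq_of_lt h4, Nat.mod_eq_of_lt h5] at h6
      subst h6
      have h7 : v * a = v * a' := by omega
      have h8 := Nat.eq_of_mul_eq_mul_left hv h7
      subst h8
      rfl
  have h4 : 2 ^ w ≤ 2 * v * D := by
    have h5 : 2 ^ w < v * D + v := by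
      have := Nat.lt_mul_div_succ (2 ^ w) hv
      rw [Nat.mul_add, mul_one] at this
      exact this
    have h6 : 1 ≤ D := by
      rw [hD, Nat.one_le_div_iff hv]; exact hw
    have h7 : v * 1 ≤ v * D := Nat.mul_le_mul_left _ h6
    have h8 : 2 * v * D = v * D + v * D := by ring
    omega
  have h5 : 2 ^ w ≤ 2 * B * (Finset.univ.filter (fun b : Fin w → Bool =>
      P (V.getD (valm v (List.ofFn b)) 0) = true)).card := by
    rw [h2]
    calc 2 ^ w ≤ 2 * v * D := h4
      _ ≤ 2 * (B * V.countP P) * D := Nat.mul_le_mul_right _ (Nat.mul_le_mul_left _ hP)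
      _ = 2 * B * (V.countP P * D) := by ring
      _ ≤ _ := Nat.mul_le_mul_left _ h3
  have h6 : (2 * B - 1) * 2 ^ w = 2 * B * 2 ^ w - 2 ^ w := by
    rw [Nat.sub_mul, one_mul]
  rw [h6]
  have h7 : 2 * B * 2 ^ w = 2 * B * (Finset.univ.filter (fun b : Fin w → Bool =>
      P (V.getD (valm v (List.ofFn b)) 0) = false)).card + 2 * B *
      (Finset.univ.filter (fun b : Fin w → Bool =>
      P (V.getD (valm v (List.ofFn b)) 0) = true)).card := by
    rw [← h1]; ring
  omega

theorem tape_avoid (V : List ℕ) (hV : V ≠ []) (w q B : ℕ) (hw : V.length ≤ 2 ^ w) (hB : 1 ≤ B)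
    (P : ℕ → Bool) (hP : V.length ≤ B * V.countP P) :
    (2 * B) ^ q * (Finset.univ.filter (fun r : Fin (q * w) → Bool =>
      ∀ i < q, P (smp V (List.ofFn r) w i) = false)).card ≤ (2 * B - 1) ^ q * 2 ^ (q * w) := by
  have h1 := block_count w q (fun l => !P (V.getD (valm V.length l) 0))
  simp only [Bool.not_eq_true'] at h1
  have h2 : (Finset.univ.filter (fun r : Fin (q * w) → Bool =>
      ∀ i < q, P (smp V (List.ofFn r) w i) = false)).card =
      (Finset.univ.filter (fun b : Fin w → Bool =>
        P (V.getD (valm V.length (List.ofFn b)) 0) = false)).card ^ q := h1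
  rw [h2, ← mul_pow]
  calc (2 * B * (Finset.univ.filter (fun b : Fin w → Bool =>
        P (V.getD (valm V.length (List.ofFn b)) 0) = false)).card) ^ q ≤
        ((2 * B - 1) * 2 ^ w) ^ q := Nat.pow_le_pow_left (block_avoid V hV w B hw hB P hP) q
    _ = (2 * B - 1) ^ q * 2 ^ (q * w) := by rw [mul_pow, ← pow_mul, mul_comm w q]

end Pool.Agent.H78DS
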